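import Pool.Agent.R837.FS.Top
import Pool.Agent.R837.FM.Main

/-!
The quotients of affine spaces by groups with a condition on the determinant of the last block:
the main theorem.
-/

set_option autoImplicit false
set_option linter.unusedSectionVars false

open Finset AlgebraicGeometry CategoryTheory MvPolynomial

universe u v w z

namespace Pool.Agent.R837.FS

open Pool.Agent.R837.FM

section grp

variable {F : Type v} [Field F] [Fintype F] {n : ℕ}

/-- The condition on the matrices. -/
def CondT (lv s : Fin n → ℕ) (a d : ℕ) (g : Matrix (Fin n) (Fin n) F) : Prop :=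
  (∀ i j, lv i < lv j → g i j = 0) ∧
  (∀ i, lv i < a → (∀ j, lv j = lv i → j = i) → g i i ^ s i = 1) ∧
  (g.toSquareBlock lv a).det ^ d = 1

lemma block_mul {lv : Fin n → ℕ} {g h : Matrix (Fin n) (Fin n) F}
    (hg : ∀ i j, lv i < lv j → g i j = 0) (hh : ∀ i j, lv i < lv j → h i j = 0) (b : ℕ) :
    (g * h).toSquareBlock lv b = g.toSquareBlock lv b * h.toSquareBlock lv b := by
  classical
  ext ⟨i, hi⟩ ⟨j, hj⟩
  rw [Matrix.mul_apply]
  change (g * h) i j = ∑ l : {l // lv l = b}, g i l * h l j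
  rw [Matrix.mul_apply, ← Fintype.sum_subtype_add_sum_subtype (fun l => lv l = b)
    (fun l => g i l * h l j)]
  have h1 : ∑ l : {l // ¬ lv l = b}, g i l * h l j = 0 := by
    refine Finset.sum_eq_zero fun l _ => ?_
    rcases lt_or_gt_of_ne l.2 with h1 | h1
    · rw [hh l j (by omega), mul_zero]
    · rw [hg i l (by omega), zero_mul]
  rw [h1, add_zero]

lemma condT_mul {lv s : Fin n → ℕ} {a d : ℕ} {g h : Matrix (Fin n) (Fin n) F}
    (hg : CondT lv s a d g) (hh : CondT lv s a d h) : CondT lv s a d (g * h) := by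
  refine ⟨fun i j hij => ?_, fun i hia hi => ?_, ?_⟩
  · rw [Matrix.mul_apply]
    refine Finset.sum_eq_zero fun l _ => ?_
    by_cases h1 : lv i < lv l
    · rw [hg.1 i l h1, zero_mul]
    · rw [hh.1 l j (by omega), mul_zero]
  · rw [Matrix.mul_apply, Finset.sum_eq_single i]
    · rw [mul_pow, hg.2.1 i hia hi, hh.2.1 i hia hi, mul_one]
    · intro l _ hl
      rcases lt_trichotomy (lv i) (lv l) with h1 | h1 | h1
      · rw [hg.1 i l h1, zero_mul]
      · exact absurd (hi l h1.symm) hl
      · rw [hh.1 l i h1, mul_zero]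
    · intro h
      exact absurd (Finset.mem_univ i) h
  · rw [block_mul hg.1 hh.1, Matrix.det_mul, mul_pow, hg.2.2, hh.2.2, mul_one]

lemma condT_one (lv s : Fin n → ℕ) (a d : ℕ) :
    CondT lv s a d (1 : Matrix (Fin n) (Fin n) F) := by
  refine ⟨fun i j hij => ?_, fun i _ _ => ?_, ?_⟩
  · rw [Matrix.one_apply_ne]
    rintro rfl
    exact lt_irrefl _ hij
  · rw [Matrix.one_apply_eq, one_pow]
  · have h1 : (1 : Matrix (Fin n) (Fin n) F).toSquareBlock lv a = 1 := by
      ext ⟨i, hi⟩ ⟨j, hj⟩
      change (1 : Matrix (Fin n) (Fin n) F) i j = _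
      rw [Matrix.one_apply, Matrix.one_apply]
      simp only [Subtype.mk.injEq]
    rw [h1, Matrix.det_one, one_pow]

/-- The group of the invertible matrices satisfying the condition. -/
def parT (F : Type v) [Field F] [Fintype F] {n : ℕ} (lv s : Fin n → ℕ) (a d : ℕ) :
    Subgroup (Matrix.GeneralLinearGroup (Fin n) F) where
  carrier := {g | CondT lv s a d (g : Matrix (Fin n) (Fin n) F)}
  mul_mem' := fun hg hh => condT_mul hg hh
  one_mem' := condT_one lv s a d
  inv_mem' := by
    intro g hg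
    classical
    have hpow : ∀ k : ℕ, CondT lv s a d ((g ^ k : Matrix.GeneralLinearGroup (Fin n) F) :
        Matrix (Fin n) (Fin n) F) := by
      intro k
      induction k with
      | zero =>
        rw [pow_zero]
        exact condT_one lv s a d
      | succ k ih =>
        rw [pow_succ]
        exact condT_mul ih hg
    have h1 : g⁻¹ = g ^ (orderOf g - 1) := by
      have h2 : 0 < orderOf g := orderOf_pos g
      rw [inv_eq_iff_mul_eq_one, ← pow_succ', Nat.sub_add_cancel h2, pow_orderOf_eq_one]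
    change CondT lv s a d ((g⁻¹ : Matrix.GeneralLinearGroup (Fin n) F) :
      Matrix (Fin n) (Fin n) F)
    rw [h1]
    exact hpow _

end grp

section act

variable {F : Type v} [Field F] [Fintype F] {k : Type u} [Field k] [Algebra F k] {n m : ℕ}

/-- The group of the affine transformations `x ↦ g x + v`, where `g` is in `P` and
the rows of `v` are in `W`. -/
def affG (P : Subgroup (Matrix.GeneralLinearGroup (Fin n) F)) (W : Submodule F (Fin m → k)) :
    Subgroup (MvPolynomial (Fin n × Fin m) k ≃ₐ[k] MvPolynomial (Fin n × Fin m) k) where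
  carrier := {σ | ∃ g ∈ P, ∃ v : Fin n → Fin m → k, (∀ i, v i ∈ W) ∧
    (σ : MvPolynomial (Fin n × Fin m) k →ₐ[k] MvPolynomial (Fin n × Fin m) k) =
      aff (g : Matrix (Fin n) (Fin n) F) v}
  mul_mem' := by
    rintro σ τ ⟨g, hg, v, hv, h1⟩ ⟨h, hh, w, hw, h2⟩
    refine ⟨h * g, P.mul_mem hh hg,
      fun i => ∑ j, (h : Matrix (Fin n) (Fin n) F) i j • v j + w i,
      fun i => W.add_mem (W.sum_mem fun j _ => W.smul_mem _ (hv j)) (hw i), ?_⟩
    have h3 : ((σ * τ : MvPolynomial (Fin n × Fin m) k ≃ₐ[k] MvPolynomial (Fin n × Fin m) k) :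
        MvPolynomial (Fin n × Fin m) k →ₐ[k] MvPolynomial (Fin n × Fin m) k) =
        (σ : MvPolynomial (Fin n × Fin m) k →ₐ[k] MvPolynomial (Fin n × Fin m) k).comp
          (τ : MvPolynomial (Fin n × Fin m) k →ₐ[k] MvPolynomial (Fin n × Fin m) k) := rfl
    rw [h3, h1, h2, aff_comp, Units.val_mul]
  one_mem' := ⟨1, P.one_mem, fun _ _ => 0, fun _ => W.zero_mem, (aff_one (F := F)).symm⟩
  inv_mem' := by
    rintro σ ⟨g, hg, v, hv, h1⟩
    refine ⟨g⁻¹, P.inv_mem hg, vinv g v,
      fun i => W.neg_mem (W.sum_mem fun j _ => W.smul_mem _ (hv j)), ?_⟩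
    apply inv_eq_of_comp
    rw [h1]
    exact aff_inv g v

instance finite_affG (P : Subgroup (Matrix.GeneralLinearGroup (Fin n) F))
    (W : Submodule F (Fin m → k)) [Finite W] : Finite (affG (n := n) P W) := by
  classical
  have h1 : ∀ σ : affG (n := n) P W, ∃ p : Matrix (Fin n) (Fin n) F × (Fin n → W),
      (σ.1 : MvPolynomial (Fin n × Fin m) k →ₐ[k] MvPolynomial (Fin n × Fin m) k) =
        aff p.1 fun i => (p.2 i : Fin m → k) := by
    rintro ⟨σ, g, hg, v, hv, h⟩
    exact ⟨(g, fun i => ⟨v i, hv i⟩), h⟩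
  choose f hf using h1
  have : Finite (Matrix (Fin n) (Fin n) F) := inferInstanceAs (Finite (Fin n → Fin n → F))
  refine Finite.of_injective f fun σ τ h => ?_
  apply Subtype.ext
  apply AlgEquiv.coe_toAlgHom_injective
  rw [hf, hf, h]

end act

section det

variable {F : Type v} [Field F] [Fintype F] {n : ℕ} {lv : Fin n → ℕ}
  {L : Type u} [Field L] [Algebra F L] {m : ℕ} {X : Submodule F (Fin m → L)}
  {Λ0 : Submodule F (Fin m → L)}

lemma q_congr {x : Fin n → X} {e e' : ℕ → ℕ} {σ : L →+* L} {b : ℕ} (h : Q Λ0 x lv e σ b)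
    (he : e b = e' b) : Q Λ0 x lv e' σ b := by
  obtain ⟨g, h1, h2⟩ := h
  rw [he] at h1
  exact ⟨g, h1, h2⟩

/-- Matrices give the condition `Q`. -/
lemma q_of_matrix2 {x : Fin n → X} {e : ℕ → ℕ} {g : Matrix (Fin n) (Fin n) F}
    (hg : ∀ i j, lv i < lv j → g i j = 0) {b : ℕ} (hdet : (g.toSquareBlock lv b).det ^ e b = 1)
    {σ : L →+* L}
    (hσ : ∀ i, (fun l => σ ((x i : Fin m → L) l)) - ∑ j, g i j • (x j : Fin m → L) ∈ Λ0) :
    Q Λ0 x lv e σ b := by
  classical
  refine ⟨g.toSquareBlock lv b, hdet, ?_⟩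
  rintro ⟨i, rfl⟩
  have h1 : ∑ j, g i j • (x j : Fin m → L) =
      ∑ j : {j // lv j = lv i}, g.toSquareBlock lv (lv i) ⟨i, rfl⟩ j • (x j : Fin m → L) +
      ∑ j : {j // ¬ lv j = lv i}, g i j • (x j : Fin m → L) :=
    (Fintype.sum_subtype_add_sum_subtype (fun j => lv j = lv i)
      (fun j => g i j • (x j : Fin m → L))).symm
  have h2 : (fun l => σ ((x i : Fin m → L) l)) -
      ∑ j : {j // lv j = lv i}, g.toSquareBlock lv (lv i) ⟨i, rfl⟩ j • (x j : Fin m → L) =
      ((fun l => σ ((x i : Fin m → L) l)) - ∑ j, g i j • (x j : Fin m → L)) +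
      ∑ j : {j // ¬ lv j = lv i}, g i j • (x j : Fin m → L) := by
    rw [h1]
    abel
  rw [h2]
  refine Submodule.add_mem _ (Submodule.mem_sup_left (hσ i))
    (Submodule.mem_sup_right (Submodule.sum_mem _ fun j _ => ?_))
  rcases lt_or_gt_of_ne j.2 with h | h
  · exact Submodule.smul_mem _ _ (Submodule.subset_span ⟨j, h, rfl⟩)
  · rw [hg i j h, zero_smul]
    exact Submodule.zero_mem _

/-- The condition `Q` gives matrices. -/
lemma matrix_of_q2 {x : Fin n → X} {e : ℕ → ℕ} (he : ∀ b, e b ≠ 0)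
    {σ : L →+* L} (h : ∀ a, Q Λ0 x lv e σ a) :
    ∃ g : Matrix (Fin n) (Fin n) F, g.det ≠ 0 ∧ (∀ i j, lv i < lv j → g i j = 0) ∧
      (∀ b, (g.toSquareBlock lv b).det ^ e b = 1) ∧
      ∀ i, (fun l => σ ((x i : Fin m → L) l)) - ∑ j, g i j • (x j : Fin m → L) ∈ Λ0 := by
  classical
  choose G hG1 hG2 using h
  have hrow : ∀ i, ∃ c : Fin n → F, (∀ j, ¬ lv j < lv i → c j = 0) ∧ ∃ w0 ∈ Λ0,
      (fun l => σ ((x i : Fin m → L) l)) =
        ∑ j : {j // lv j = lv i}, G (lv i) ⟨i, rfl⟩ j • (x j : Fin m → L) +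
          ∑ j, c j • (x j : Fin m → L) + w0 := by
    intro i
    have h1 := hG2 (lv i) ⟨i, rfl⟩
    unfold Lam at h1
    obtain ⟨w0, hw0, w1, hw1, h0⟩ := Submodule.mem_sup.1 h1
    obtain ⟨c, hc, h2⟩ := (Finsupp.mem_span_image_iff_linearCombination F).1 hw1
    refine ⟨c, fun j hj => ?_, ?_⟩
    · by_contra h0
      exact hj (hc (Finsupp.mem_support_iff.2 h0))
    · rw [Finsupp.linearCombination_apply] at h2
      have h3 : c.sum (fun i a => a • (x i : Fin m → L)) = ∑ j, c j • (x j : Fin m → L) :=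
        Finsupp.sum_fintype _ _ fun i => zero_smul _ _
      have h4 := h3.symm.trans h2
      refine ⟨w0, hw0, ?_⟩
      rw [h4, add_assoc, add_comm w1 w0, h0]
      exact (add_sub_cancel _ _).symm
  choose c hc1 w0 hw0 hc2 using hrow
  let g : Matrix (Fin n) (Fin n) F := Matrix.of fun i j =>
    (if h : lv j = lv i then G (lv i) ⟨i, rfl⟩ ⟨j, h⟩ else 0) + c i j
  have hblock : ∀ a, g.toSquareBlock lv a = G a := by
    intro a
    ext ⟨i, hi⟩ ⟨j, hj⟩
    subst hi
    change (if h : lv j = lv i then G (lv i) ⟨i, rfl⟩ ⟨j, h⟩ else 0) + c i j = _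
    rw [dif_pos hj, hc1 i j (by omega), add_zero]
  have hg0 : ∀ i j, lv i < lv j → g i j = 0 := by
    intro i j hij
    change (if h : lv j = lv i then G (lv i) ⟨i, rfl⟩ ⟨j, h⟩ else 0) + c i j = 0
    rw [dif_neg (by omega), hc1 i j (by omega), add_zero]
  refine ⟨g, ?_, hg0, fun b => ?_, fun i => ?_⟩
  · rw [det_eq_prod_blocks g hg0]
    refine Finset.prod_ne_zero_iff.2 fun a _ => ?_
    rw [hblock]
    intro h0
    have h1 := hG1 a
    rw [h0, zero_pow (he a)] at h1
    exact zero_ne_one h1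
  · rw [hblock]
    exact hG1 b
  · have hcore : ∑ j, g i j • (x j : Fin m → L) =
        ∑ j : {j // lv j = lv i}, G (lv i) ⟨i, rfl⟩ j • (x j : Fin m → L) +
          ∑ j, c i j • (x j : Fin m → L) := by
      have h1 : ∀ j, g i j • (x j : Fin m → L) =
          (if h : lv j = lv i then G (lv i) ⟨i, rfl⟩ ⟨j, h⟩ else 0) • (x j : Fin m → L) +
            c i j • (x j : Fin m → L) := fun j => add_smul _ _ _
      rw [Finset.sum_congr rfl fun j _ => h1 j, Finset.sum_add_distrib]
      congr 1
      rw [← Fintype.sum_subtype_add_sum_subtype (fun j => lv j = lv i)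
        (fun j => (if h : lv j = lv i then G (lv i) ⟨i, rfl⟩ ⟨j, h⟩ else 0) • (x j : Fin m → L))]
      have h2 : ∑ j : {j // ¬ lv j = lv i},
          (if h : lv (j : Fin n) = lv i then G (lv i) ⟨i, rfl⟩ ⟨j, h⟩ else 0) •
            (x j : Fin m → L) = 0 := by
        refine Finset.sum_eq_zero fun j _ => ?_
        rw [dif_neg j.2, zero_smul]
      rw [h2, add_zero]
      refine Finset.sum_congr rfl fun j _ => ?_
      rw [dif_pos j.2]
    rw [hc2 i, hcore, add_sub_cancel_left]
    exact hw0 i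

/-- The exponents of the lower levels. -/
noncomputable def st (F : Type v) [Fintype F] {n : ℕ} (lv s : Fin n → ℕ) (a : ℕ) (i : Fin n) : ℕ :=
  if lv i < a then s i else Fintype.card F - 1

/-- The exponents of all levels. -/
noncomputable def et (F : Type v) [Field F] [Fintype F] {n : ℕ} (lv s : Fin n → ℕ) (a d b : ℕ) :
    ℕ :=
  if b = a then d else ee F lv (st F lv s a) b

lemma card_sub_pos (F : Type v) [Field F] [Fintype F] : 0 < Fintype.card F - 1 := by
  have h1 : 1 < Fintype.card F := Fintype.one_lt_card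
  omega


lemma st_dvd {s : Fin n → ℕ} {a : ℕ} (hs : ∀ i, lv i < a → s i ∣ Fintype.card F - 1) (i : Fin n) :
    st F lv s a i ∣ Fintype.card F - 1 := by
  unfold st
  split_ifs with h
  · exact hs i h
  · exact dvd_rfl

lemma et_ne {s : Fin n → ℕ} {a d : ℕ} (hs : ∀ i, lv i < a → s i ∣ Fintype.card F - 1)
    (hd : 0 < d) (b : ℕ) : et F lv s a d b ≠ 0 := by
  have h1 := card_sub_pos F
  unfold et
  split_ifs
  · exact hd.ne'
  · intro h0
    rcases ee_spec (lv := lv) (st_dvd hs) b with h | ⟨-, h⟩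
    · omega
    · rw [h0, zero_dvd_iff] at h
      omega

lemma condT_cond {s : Fin n → ℕ} {a d : ℕ} (ha : ∀ i, lv i ≤ a) (hd : d ∣ Fintype.card F - 1)
    {g : Matrix (Fin n) (Fin n) F} (hg : CondT lv s a d g) : Cond lv (st F lv s a) g := by
  classical
  refine ⟨hg.1, fun i hi => ?_⟩
  unfold st
  split_ifs with h
  · exact hg.2.1 i h hi
  · obtain rfl : lv i = a := le_antisymm (ha i) (not_lt.1 h)
    obtain ⟨d', hd'⟩ := hd
    have h1 := hg.2.2
    let _ : Unique {j // lv j = lv i} := ⟨⟨⟨i, rfl⟩⟩, fun j => Subtype.ext (hi j j.2)⟩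
    rw [Matrix.det_unique] at h1
    have h2 : g i i ^ d = 1 := h1
    rw [hd', pow_mul, h2, one_pow]

lemma block_det2 {s : Fin n → ℕ} {a d : ℕ} (ha : ∀ i, lv i ≤ a) (hd : d ∣ Fintype.card F - 1)
    {g : Matrix (Fin n) (Fin n) F} (hg : CondT lv s a d g) (hdet : g.det ≠ 0) (b : ℕ) :
    (g.toSquareBlock lv b).det ^ et F lv s a d b = 1 := by
  unfold et
  split_ifs with h
  · subst h
    exact hg.2.2
  · exact block_det (condT_cond ha hd hg) hdet b

lemma condT_of {s : Fin n → ℕ} {a d : ℕ} {g : Matrix (Fin n) (Fin n) F}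
    (hg0 : ∀ i j, lv i < lv j → g i j = 0)
    (hg : ∀ b, (g.toSquareBlock lv b).det ^ et F lv s a d b = 1) : CondT lv s a d g := by
  classical
  refine ⟨hg0, fun i hia hi => ?_, ?_⟩
  · have h1 := hg (lv i)
    have h2 : et F lv s a d (lv i) = s i := by
      unfold et
      rw [if_neg hia.ne, ee_single hi]
      unfold st
      rw [if_pos hia]
    rw [h2] at h1
    let _ : Unique {j // lv j = lv i} := ⟨⟨⟨i, rfl⟩⟩, fun j => Subtype.ext (hi j j.2)⟩
    rw [Matrix.det_unique] at h1
    exact h1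
  · have h1 := hg a
    have h2 : et F lv s a d a = d := by
      unfold et
      rw [if_pos rfl]
    rwa [h2] at h1

end det

section main

variable {F : Type v} [Field F] [Fintype F] {k : Type u} [Field k] [Algebra F k] {n m : ℕ}

/-- The main theorem. -/
theorem main (hm : 0 < m) (lv : Fin n → ℕ) (s : Fin n → ℕ) (a d : ℕ) (ha : ∀ i, lv i ≤ a)
    (hane : ∃ i, lv i = a) (hs : ∀ i, lv i < a → s i ∣ Fintype.card F - 1)
    (hd : d ∣ Fintype.card F - 1) (W : Submodule F (Fin m → k)) [Finite W] :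
    Pool.Agent.H920R2.HasResolution
      (X := Spec (CommRingCat.of (inva (affG (n := n) (parT F lv s a d) W))))
      (Spec.map (CommRingCat.ofHom (algebraMap k
        (inva (affG (n := n) (parT F lv s a d) W))))) := by
  classical
  obtain ⟨N, hN⟩ := hd
  have hq := card_sub_pos F
  have hd0 : 0 < d := Nat.pos_of_ne_zero fun h => by
    rw [h, zero_mul] at hN
    omega
  have hN0 : 0 < N := Nat.pos_of_ne_zero fun h => by
    rw [h, mul_zero] at hN
    omega
  have hint := isIntegral_inva (affG (n := n) (parT F lv s a d) W)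
  have hWf : Module.Finite F W := Module.Finite.of_finite
  let bW := Module.finBasis F W
  let w := Module.finrank F W
  let z : Fin w → (⊤ : Submodule F (Fin m → LL k n m)) :=
    fun j => ⟨cst F k n m (bW j : Fin m → k), trivial⟩
  have hspan : Submodule.span F (Set.range fun j => (z j : Fin m → LL k n m)) =
      W.map (cst F k n m) := by
    have h1 : (Set.range fun j => (z j : Fin m → LL k n m)) =
        cst F k n m '' (W.subtype '' (Set.range bW)) := by
      rw [← Set.range_comp, ← Set.range_comp]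
      rfl
    rw [h1, Submodule.span_image, Submodule.span_image, bW.span_eq, Submodule.map_top,
      Submodule.range_subtype]
  have hzk : ∀ j l, (z j : Fin m → LL k n m) l ∈ (⊥ : Subalgebra k (LL k n m)) :=
    fun j l => Subalgebra.algebraMap_mem _ _
  have hzli : LinearIndependent F fun j => (z j : Fin m → LL k n m) := by
    have h1 : LinearIndependent F fun j => W.subtype (bW j) :=
      bW.linearIndependent.map' W.subtype (Submodule.ker_subtype W)
    exact h1.map' (cst F k n m) (LinearMap.ker_eq_bot.2 cst_injective)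
  obtain ⟨H, r, hH, S0⟩ := const_stage (F := F) (m := m) (emb k n m).range w z hzk hzli
  rw [hspan] at S0
  have hcard : w = Fintype.card (Fin w) := (Fintype.card_fin w).symm
  rw [hcard] at S0
  have hxz : LinearIndependent F (Sum.elim (fun i => (xr F k n m i : Fin m → LL k n m)) fun j =>
      (z j : Fin m → LL k n m)) := by
    rw [Fintype.linearIndependent_iff]
    intro b hb
    rw [Fintype.sum_sum_type] at hb
    have hb1 : ∀ i, b (Sum.inl i) = 0 := by
      intro i
      have h1 : emb k n m (∑ i, algebraMap F k (b (Sum.inl i)) • MvPolynomial.X (i, ⟨0, hm⟩) +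
          MvPolynomial.C (∑ j, b (Sum.inr j) • (bW j : Fin m → k) ⟨0, hm⟩)) = 0 := by
        have h2 := congrFun hb ⟨0, hm⟩
        rw [Pi.add_apply, Finset.sum_apply, Finset.sum_apply] at h2
        rw [map_add, map_sum, Pi.zero_apply] at *
        rw [← h2]
        congr 1
        · refine Finset.sum_congr rfl fun i _ => ?_
          rw [map_smul, algebraMap_smul]
          rfl
        · have h3 : emb k n m (MvPolynomial.C (∑ j, b (Sum.inr j) •
              (bW j : Fin m → k) ⟨0, hm⟩)) = algebraMap k (LL k n m)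
                (∑ j, b (Sum.inr j) • (bW j : Fin m → k) ⟨0, hm⟩) := (emb k n m).commutes _
          rw [h3, map_sum]
          refine Finset.sum_congr rfl fun j _ => ?_
          change algebraMap k (LL k n m) (b (Sum.inr j) • (bW j : Fin m → k) ⟨0, hm⟩) =
            b (Sum.inr j) • algebraMap k (LL k n m) ((bW j : Fin m → k) ⟨0, hm⟩)
          rw [Algebra.algebraMap_eq_smul_one, Algebra.algebraMap_eq_smul_one, smul_assoc]
      have h2 := (map_eq_zero_iff _ (emb_injective k n m)).1 h1
      have h3 := congrArg (MvPolynomial.coeff (Finsupp.single (i, ⟨0, hm⟩) 1)) h2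
      rw [MvPolynomial.coeff_add, MvPolynomial.coeff_sum, MvPolynomial.coeff_zero,
        Finset.sum_eq_single i, MvPolynomial.coeff_C, if_neg, add_zero] at h3
      · rw [MvPolynomial.coeff_smul, MvPolynomial.coeff_X, if_pos rfl, smul_eq_mul, mul_one] at h3
        exact (map_eq_zero_iff _ (algebraMap F k).injective).1 h3
      · intro h
        have h4 := congrArg (fun f => f (i, ⟨0, hm⟩)) h
        simp at h4
      · intro j _ hj
        rw [MvPolynomial.coeff_smul, MvPolynomial.coeff_X, if_neg, smul_zero]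
        intro h
        have h4 := Finsupp.single_left_injective (one_ne_zero) h
        exact hj (Prod.mk.inj h4).1
      · intro h
        exact absurd (Finset.mem_univ i) h
    have hb2 : ∀ j, b (Sum.inr j) = 0 := by
      apply Fintype.linearIndependent_iff.1 hzli fun j => b (Sum.inr j)
      rw [← hb]
      simp only [hb1, zero_smul, Finset.sum_const_zero, zero_add]
      rfl
    rintro (i | j)
    · exact hb1 i
    · exact hb2 j
  refine resolution_top (F := F) (k := k) (L := LL k n m) (x := xr F k n m) (lv := lv)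
    (e := ee F lv (st F lv s a))
    (g := (emb k n m).comp (inva (affG (n := n) (parT F lv s a d) W)).val) (z := z)
    ((emb_injective k n m).comp Subtype.val_injective) (emb_range F k n m) hspan.symm
    S0 0 ?_ (fun _ _ _ _ _ => trivial) hxz
    ?_ (adjoin_top F k n m) (le_trdeg k n m) (ee_spec (st_dvd hs)) a ha hane hd0 hN0
    (by rw [hN, mul_comm])
    {σ | ∃ τ ∈ affG (n := n) (parT F lv s a d) W, σ = sg τ} ?_ ?_ ?_ ?_
  · intro _
    exact ⟨Empty, inferInstance, fun p => p.elim, rfl, by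
      rw [Set.range_eq_empty, Algebra.adjoin_empty]⟩
  · exact fun c => ⟨algebraMap F k c, (IsScalarTower.algebraMap_apply F k (LL k n m) c).symm⟩
  · rintro _ ⟨τ, ⟨g, hg, v, hv, hτ⟩, rfl⟩
    have h3 : CondT lv s a d (g : Matrix (Fin n) (Fin n) F) := hg
    have h4 : (g : Matrix (Fin n) (Fin n) F).det ≠ 0 := g.det_ne_zero
    have h5 : ∀ b, Q (W.map (cst F k n m)) (xr F k n m) lv (et F lv s a d) (sg τ) b := by
      intro b
      refine q_of_matrix2 (L := LL k n m) (x := xr F k n m) h3.1
        (block_det2 ha ⟨N, hN⟩ h3 h4 b) (σ := sg τ) (fun i => ?_)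
      rw [sg_xr hτ i]
      exact ⟨v i, hv i, rfl⟩
    refine ⟨fun t => ⟨fun b hb => ?_, ?_⟩, fun b hb => ?_, ?_⟩
    · obtain ⟨c, rfl⟩ := Algebra.mem_bot.1 hb
      exact sg_algebraMap _ c
    · obtain ⟨c, rfl⟩ := Algebra.mem_bot.1 hH
      exact sg_algebraMap _ c
    · refine q_congr (h5 b) ?_
      unfold et
      rw [if_neg hb.ne]
    · refine q_congr (h5 a) ?_
      unfold et
      rw [if_pos rfl]
  · rintro _ ⟨b, rfl⟩ h
    have h1 : b ∈ inva (affG (n := n) (parT F lv s a d) W) := by
      intro τ hτ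
      have h2 := h _ ⟨τ, hτ, rfl⟩
      change sg τ (emb k n m b) = emb k n m b at h2
      rw [sg_emb] at h2
      exact emb_injective k n m h2
    exact ⟨⟨b, h1⟩, rfl⟩
  · rintro σ ⟨-, hσ0⟩ hσ1 hσ2 b
    have hσ : ∀ b, Q (W.map (cst F k n m)) (xr F k n m) lv (et F lv s a d) σ b := by
      intro b
      rcases lt_trichotomy b a with hb | hb | hb
      · refine q_congr (hσ1 b hb) ?_
        unfold et
        rw [if_neg hb.ne]
      · subst hb
        refine q_congr hσ2 ?_
        unfold et
        rw [if_pos rfl]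
      · have : IsEmpty {i // lv i = b} := ⟨fun i => by have h1 := ha i; have h2 := i.2; omega⟩
        exact ⟨1, by rw [Matrix.det_one, one_pow], fun i => isEmptyElim i⟩
    obtain ⟨g, hdet, hg, hgb, hgσ⟩ := matrix_of_q2 (et_ne hs hd0) hσ
    choose v hv hvσ using hgσ
    let g' : Matrix.GeneralLinearGroup (Fin n) F := Matrix.GeneralLinearGroup.mkOfDetNeZero g hdet
    obtain ⟨τ, hτ⟩ := exists_equiv g' v
    have hτmem : τ ∈ affG (n := n) (parT F lv s a d) W := ⟨g', condT_of hg hgb, v, hv, hτ⟩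
    refine ⟨⟨b.1, rfl⟩, ?_⟩
    change σ (emb k n m b.1) = emb k n m b.1
    rw [eq_aff_of (g := g) (v := v) (fun c => hσ0 _ (Subalgebra.algebraMap_mem _ c))
      (fun i => by rw [hvσ i, add_sub_cancel])]
    have h1 : aff g v b.1 = b.1 := by
      have h2 := b.2 τ hτmem
      have h3 : τ b.1 = aff g v b.1 := congrArg (fun f => f b.1) hτ
      rw [← h3]
      exact h2
    rw [h1]
  · rintro V hV _ ⟨b, rfl⟩
    obtain ⟨P, hP, h1⟩ := Algebra.IsIntegral.isIntegral
      (R := inva (affG (n := n) (parT F lv s a d) W)) b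
    have h2 : IsIntegral V (emb k n m b) := by
      let f : inva (affG (n := n) (parT F lv s a d) W) →+* V :=
        ((emb k n m).comp (inva (affG (n := n) (parT F lv s a d) W)).val).toRingHom.codRestrict
          V.toSubring hV
      refine ⟨P.map f, hP.map f, ?_⟩
      rw [Polynomial.eval₂_map]
      have h3 : (algebraMap V (LL k n m)).comp f =
          (emb k n m).toRingHom.comp (algebraMap (inva (affG (n := n) (parT F lv s a d) W)) _) :=
        rfl
      change Polynomial.eval₂ ((algebraMap V (LL k n m)).comp f) ((emb k n m).toRingHom b) P = 0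
      rw [h3, ← Polynomial.hom_eval₂, h1, map_zero]
    obtain ⟨y, hy⟩ := IsIntegrallyClosed.isIntegral_iff.1 h2
    change emb k n m b ∈ V
    rw [← hy]
    exact y.2

end main

end Pool.Agent.R837.FS
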