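import Mathlib

/-!
Minors of matrices over subalgebras of a field.
-/

set_option autoImplicit false
set_option linter.unusedSectionVars false

open Finset

universe u v w z

namespace Pool.Agent.R837.FS

section dom

variable {k : Type z} [Field k] {L : Type u} [Field L] [Algebra k L]

/-- The entries of the matrix are in the algebra. -/
def Ent (C : Subalgebra k L) {α β : Type} (M : Matrix α β L) : Prop := ∀ i j, M i j ∈ C

/-- The second matrix arises from the first one by multiplication with matrices over `C`. -/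
def Dom (C : Subalgebra k L) {α β α' β' : Type} [Fintype α] [Fintype β] (Φ : Matrix α β L)
    (Φ' : Matrix α' β' L) : Prop :=
  ∃ (P : Matrix α' α L) (Q : Matrix β β' L), Ent C P ∧ Ent C Q ∧ Φ' = P * Φ * Q

lemma Ent.mono {C C' : Subalgebra k L} (h : C ≤ C') {α β : Type} {M : Matrix α β L}
    (hM : Ent C M) : Ent C' M := fun i j => h (hM i j)

lemma Ent.mul {C : Subalgebra k L} {α β γ : Type} [Fintype β] {M : Matrix α β L}
    {M' : Matrix β γ L} (h : Ent C M) (h' : Ent C M') : Ent C (M * M') := by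
  intro i j
  rw [Matrix.mul_apply]
  exact C.sum_mem fun l _ => C.mul_mem (h i l) (h' l j)

lemma ent_one {C : Subalgebra k L} {α : Type} [DecidableEq α] :
    Ent C (1 : Matrix α α L) := by
  intro i j
  rw [Matrix.one_apply]
  split_ifs
  · exact C.one_mem
  · exact C.zero_mem

lemma Dom.mono {C C' : Subalgebra k L} (h : C ≤ C') {α β α' β' : Type} [Fintype α] [Fintype β]
    {Φ : Matrix α β L} {Φ' : Matrix α' β' L} (hΦ : Dom C Φ Φ') : Dom C' Φ Φ' := by
  obtain ⟨P, Q, hP, hQ, h1⟩ := hΦ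
  exact ⟨P, Q, hP.mono h, hQ.mono h, h1⟩

lemma Dom.trans {C : Subalgebra k L} {α β α' β' α'' β'' : Type} [Fintype α] [Fintype β]
    [Fintype α'] [Fintype β'] {Φ : Matrix α β L} {Φ' : Matrix α' β' L} {Φ'' : Matrix α'' β'' L}
    (h : Dom C Φ Φ') (h' : Dom C Φ' Φ'') : Dom C Φ Φ'' := by
  obtain ⟨P, Q, hP, hQ, rfl⟩ := h
  obtain ⟨P', Q', hP', hQ', rfl⟩ := h'
  exact ⟨P' * P, Q * Q', hP'.mul hP, hQ.mul hQ', by simp only [Matrix.mul_assoc]⟩

lemma dom_submatrix {C : Subalgebra k L} {α β α' β' : Type} [Fintype α] [Fintype β]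
    [DecidableEq α] [DecidableEq β] (Φ : Matrix α β L) (f : α' → α) (g : β' → β) :
    Dom C Φ (Φ.submatrix f g) := by
  refine ⟨(1 : Matrix α α L).submatrix f id, (1 : Matrix β β L).submatrix id g, ?_, ?_, ?_⟩
  · exact fun i j => ent_one _ _
  · exact fun i j => ent_one _ _
  · ext i j
    rw [Matrix.mul_apply]
    simp only [Matrix.mul_apply, Matrix.submatrix_apply, id, Matrix.one_apply]
    simp

/-- The span of the minors of size `j`. -/
def Mn (C : Subalgebra k L) (j : ℕ) {α β : Type} (Φ : Matrix α β L) : Submodule C L :=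
  Submodule.span C {x | ∃ (f : Fin j → α) (g : Fin j → β), x = (Φ.submatrix f g).det}

lemma det_mul_rows {j : ℕ} {γ : Type} [Fintype γ] {C : Subalgebra k L}
    {A : Matrix (Fin j) γ L} (hA : Ent C A) (B : Matrix γ (Fin j) L) :
    (A * B).det ∈ Submodule.span C {x | ∃ h : Fin j → γ, x = (B.submatrix h id).det} := by
  classical
  have h1 : (A * B).det = ∑ h : Fin j → γ, (∏ i, A i (h i)) * (B.submatrix h id).det := by
    have h2 : (A * B) = fun i => ∑ c, A i c • B c := by
      funext i l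
      rw [Matrix.mul_apply, Finset.sum_apply]
      rfl
    rw [h2]
    have h3 := (Matrix.detRowAlternating (n := Fin j) (R := L)).toMultilinearMap.map_sum
      (fun (i : Fin j) (c : γ) => A i c • B c)
    refine Eq.trans h3 ?_
    refine Finset.sum_congr rfl fun h _ => ?_
    have h4 := (Matrix.detRowAlternating (n := Fin j) (R := L)).toMultilinearMap.map_smul_univ
      (fun i => A i (h i)) (fun i => B (h i))
    exact h4
  rw [h1]
  refine Submodule.sum_mem _ fun h _ => ?_
  have h2 : ∏ i, A i (h i) ∈ C := C.prod_mem fun i _ => hA _ _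
  exact Submodule.smul_mem _ (⟨_, h2⟩ : C) (Submodule.subset_span ⟨h, rfl⟩)

lemma det_mul_cols {j : ℕ} {γ : Type} [Fintype γ] {C : Subalgebra k L}
    {A : Matrix γ (Fin j) L} (hA : Ent C A) (B : Matrix (Fin j) γ L) :
    (B * A).det ∈ Submodule.span C {x | ∃ h : Fin j → γ, x = (B.submatrix id h).det} := by
  have h1 := det_mul_rows (C := C) (A := A.transpose) (fun i j => hA j i) B.transpose
  rw [← Matrix.transpose_mul, Matrix.det_transpose] at h1
  refine Submodule.span_mono ?_ h1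
  rintro x ⟨h, rfl⟩
  refine ⟨h, ?_⟩
  rw [← Matrix.det_transpose]
  rfl

/-- The minors of a product. -/
lemma mn_dom {C : Subalgebra k L} {α β α' β' : Type} [Fintype α] [Fintype β]
    {Φ : Matrix α β L} {Φ' : Matrix α' β' L} (h : Dom C Φ Φ') (j : ℕ) :
    Mn C j Φ' ≤ Mn C j Φ := by
  obtain ⟨P, Q, hP, hQ, rfl⟩ := h
  refine Submodule.span_le.2 ?_
  rintro x ⟨f, g, rfl⟩
  have h1 : (P * Φ * Q).submatrix f g = P.submatrix f id * (Φ * Q.submatrix id g) := by
    rw [Matrix.mul_assoc]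
    ext i l
    simp only [Matrix.submatrix_apply, Matrix.mul_apply]
    rfl
  rw [h1]
  have h2 := det_mul_rows (C := C) (A := P.submatrix f id) (fun i j => hP _ _)
    (Φ * Q.submatrix id g)
  refine (Submodule.span_le.2 ?_) h2
  rintro x ⟨h, rfl⟩
  have h3 : (Φ * Q.submatrix id g).submatrix h id = Φ.submatrix h id * Q.submatrix id g := by
    ext i l
    simp only [Matrix.submatrix_apply, Matrix.mul_apply]
    rfl
  rw [h3]
  have h4 := det_mul_cols (C := C) (A := Q.submatrix id g) (fun i j => hQ _ _)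
    (Φ.submatrix h id)
  refine Submodule.span_mono ?_ h4
  rintro x ⟨h', rfl⟩
  exact ⟨h, h', rfl⟩

lemma mn_mono {C C' : Subalgebra k L} (hC : C ≤ C') {α β : Type} {Φ : Matrix α β L} {j : ℕ}
    {x : L} (hx : x ∈ Mn C j Φ) : x ∈ Mn C' j Φ := by
  refine Submodule.span_induction (p := fun x _ => x ∈ Mn C' j Φ) ?_ ?_ ?_ ?_ hx
  · exact fun x hx => Submodule.subset_span hx
  · exact Submodule.zero_mem _
  · exact fun x y _ _ hx hy => Submodule.add_mem _ hx hy
  · intro c x _ hx
    exact Submodule.smul_mem _ (⟨c.1, hC c.2⟩ : C') hx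

/-- Determinants with a row in a submodule. -/
lemma det_mem_of_row {j : ℕ} {C : Subalgebra k L} {M : Matrix (Fin j) (Fin j) L} (hM : Ent C M)
    (I : Submodule C L) (i0 : Fin j) (h : ∀ l, M i0 l ∈ I) : M.det ∈ I := by
  rw [Matrix.det_apply]
  refine Submodule.sum_mem _ fun σ _ => ?_
  rw [Units.smul_def]
  refine zsmul_mem ?_ _
  have h1 : ∏ i, M (σ i) i = (∏ i ∈ Finset.univ.erase (σ.symm i0), M (σ i) i) *
      M i0 (σ.symm i0) := by
    rw [← Finset.prod_erase_mul Finset.univ (fun i => M (σ i) i) (Finset.mem_univ (σ.symm i0)),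
      σ.apply_symm_apply]
  rw [h1]
  have h2 : ∏ i ∈ Finset.univ.erase (σ.symm i0), M (σ i) i ∈ C :=
    C.prod_mem fun i _ => hM _ _
  exact Submodule.smul_mem _ (⟨_, h2⟩ : C) (h _)

lemma det_mem {j : ℕ} {C : Subalgebra k L} {M : Matrix (Fin j) (Fin j) L} (hM : Ent C M) :
    M.det ∈ C := by
  rw [Matrix.det_apply]
  refine C.sum_mem fun σ _ => ?_
  rw [Units.smul_def]
  exact zsmul_mem (C.prod_mem fun i _ => hM _ _) _

/-- The diagonal entries. -/
def dl (d : ℕ → L) (i : ℕ) : L := ∏ j ∈ range (i + 1), d j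

/-- The products of the diagonal entries. -/
def DD (d : ℕ → L) (c : ℕ) : L := ∏ i ∈ range c, dl d i

lemma dl_ne {d : ℕ → L} (hd : ∀ i, d i ≠ 0) (i : ℕ) : dl d i ≠ 0 :=
  Finset.prod_ne_zero_iff.2 fun j _ => hd j

lemma DD_ne {d : ℕ → L} (hd : ∀ i, d i ≠ 0) (i : ℕ) : DD d i ≠ 0 :=
  Finset.prod_ne_zero_iff.2 fun j _ => dl_ne hd j

lemma DD_zero (d : ℕ → L) : DD d 0 = 1 := rfl

lemma DD_succ (d : ℕ → L) (c : ℕ) : DD d (c + 1) = DD d c * dl d c := Finset.prod_range_succ _ _

lemma dl_succ (d : ℕ → L) (c : ℕ) : dl d (c + 1) = dl d c * d (c + 1) :=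
  Finset.prod_range_succ _ _

lemma dl_zero (d : ℕ → L) : dl d 0 = d 0 := by
  unfold dl
  rw [Finset.prod_range_succ, Finset.prod_range_zero, one_mul]

lemma DD_one (d : ℕ → L) : DD d 1 = d 0 := by
  rw [DD_succ, DD_zero, one_mul, dl_zero]

/-- Adding a first term. -/
def cns (w : L) (d : ℕ → L) : ℕ → L
  | 0 => w
  | (i + 1) => d i

lemma dl_cns (w : L) (d : ℕ → L) (i : ℕ) : dl (cns w d) (i + 1) = w * dl d i := by
  unfold dl
  rw [Finset.prod_range_succ', mul_comm]
  rfl

lemma dl_cns_zero (w : L) (d : ℕ → L) : dl (cns w d) 0 = w := dl_zero _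

lemma DD_cns (w : L) (d : ℕ → L) (c : ℕ) : DD (cns w d) (c + 1) = w ^ (c + 1) * DD d c := by
  unfold DD
  rw [Finset.prod_range_succ', dl_cns_zero, Finset.prod_congr rfl fun i _ => dl_cns w d i,
    Finset.prod_mul_distrib, Finset.prod_const, Finset.card_range]
  ring

lemma dl_le {E : Subalgebra k L} {d : ℕ → L} {c x n : ℕ} (hd : ∀ i < n, d i ∈ E) (hc : c ≤ x)
    (hx : x < n) : ∃ b ∈ E, dl d x = dl d c * b := by
  refine ⟨∏ j ∈ Finset.Ico (c + 1) (x + 1), d j, E.prod_mem fun j hj => hd j ?_, ?_⟩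
  · have := (Finset.mem_Ico.1 hj).2
    omega
  · exact (Finset.prod_range_mul_prod_Ico d (Nat.succ_le_succ hc)).symm

lemma prod_le {E : Subalgebra k L} {d : ℕ → L} {n : ℕ} (hd : ∀ i < n, d i ∈ E) :
    ∀ (c : ℕ) (s : Finset ℕ), s.card = c → (∀ x ∈ s, x < n) →
      ∃ b ∈ E, ∏ x ∈ s, dl d x = DD d c * b := by
  intro c
  induction c with
  | zero =>
    intro s hs _
    rw [Finset.card_eq_zero] at hs
    subst hs
    exact ⟨1, E.one_mem, by rw [Finset.prod_empty, DD_zero, one_mul]⟩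
  | succ c ih =>
    intro s hs hsn
    have hne : s.Nonempty := Finset.card_pos.1 (by omega)
    let x := s.max' hne
    have hx : x ∈ s := Finset.max'_mem _ _
    have hsub : s ⊆ range (x + 1) := fun y hy =>
      Finset.mem_range.2 (Nat.lt_succ_of_le (Finset.le_max' _ _ hy))
    have h1 := Finset.card_le_card hsub
    rw [hs, Finset.card_range] at h1
    obtain ⟨b, hb, h2⟩ := ih (s.erase x) (by rw [Finset.card_erase_of_mem hx, hs]; rfl)
      fun y hy => hsn y (Finset.mem_of_mem_erase hy)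
    obtain ⟨b', hb', h3⟩ := dl_le hd (c := c) (x := x) (by omega) (hsn x hx)
    refine ⟨b * b', E.mul_mem hb hb', ?_⟩
    rw [← Finset.prod_erase_mul _ _ hx, h2, h3, DD_succ]
    ring

lemma diag_minor {E : Subalgebra k L} {d : ℕ → L} {n : ℕ} (hd : ∀ i < n, d i ∈ E) {c : ℕ}
    (F G : Fin c → Fin n) : ∃ b ∈ E,
      ((Matrix.diagonal fun i : Fin n => dl d i).submatrix F G).det = DD d c * b := by
  classical
  by_cases hF : Function.Injective F
  swap
  · obtain ⟨i, i', hii, hne⟩ : ∃ i i', F i = F i' ∧ i ≠ i' := by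
      unfold Function.Injective at hF
      push Not at hF
      exact hF
    refine ⟨0, E.zero_mem, ?_⟩
    rw [Matrix.det_zero_of_row_eq hne (by
      funext l
      rw [Matrix.submatrix_apply, Matrix.submatrix_apply, hii]), mul_zero]
  have hD : (Matrix.diagonal fun i : Fin n => dl d i).submatrix F G = Matrix.of fun i l =>
      dl d (F i) * (1 : Matrix (Fin n) (Fin n) L) (F i) (G l) := by
    ext i l
    rw [Matrix.submatrix_apply, Matrix.of_apply, Matrix.diagonal_apply, Matrix.one_apply]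
    split_ifs
    · rw [mul_one]
    · rw [mul_zero]
  rw [hD, Matrix.det_mul_column]
  have h1 : (Matrix.of fun i l => (1 : Matrix (Fin n) (Fin n) L) (F i) (G l)).det ∈ E :=
    det_mem fun i l => ent_one _ _
  obtain ⟨b, hb, h2⟩ := prod_le hd c (Finset.univ.image fun i => (F i : ℕ))
    (by
      rw [Finset.card_image_of_injective _ (f := fun i => (F i : ℕ))
        (fun i i' h => hF (Fin.val_injective h)), Finset.card_univ, Fintype.card_fin])
    (by
      intro x hx
      obtain ⟨i, -, rfl⟩ := Finset.mem_image.1 hx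
      exact (F i).2)
  rw [Finset.prod_image fun i _ i' _ h => hF (Fin.val_injective h)] at h2
  rw [h2]
  exact ⟨b * _, E.mul_mem hb h1, mul_assoc _ _ _⟩

/-- The minors of matrices with a diagonal form. -/
lemma minor_of_dom {E : Subalgebra k L} {d : ℕ → L} {n : ℕ} (hd : ∀ i < n, d i ∈ E)
    {α β : Type} {Φ : Matrix α β L} (h : Dom E (Matrix.diagonal fun i : Fin n => dl d i) Φ)
    {c : ℕ} (F : Fin c → α) (G : Fin c → β) : ∃ b ∈ E, (Φ.submatrix F G).det = DD d c * b := by
  have h1 := mn_dom h c (Submodule.subset_span ⟨F, G, rfl⟩)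
  refine Submodule.span_induction (p := fun x _ => ∃ b ∈ E, x = DD d c * b) ?_ ?_ ?_ ?_ h1
  · rintro x ⟨F', G', rfl⟩
    exact diag_minor hd F' G'
  · exact ⟨0, E.zero_mem, (mul_zero _).symm⟩
  · rintro x y _ _ ⟨b, hb, rfl⟩ ⟨b', hb', rfl⟩
    exact ⟨b + b', E.add_mem hb hb', by ring⟩
  · rintro a x _ ⟨b, hb, rfl⟩
    refine ⟨a.1 * b, E.mul_mem a.2 hb, ?_⟩
    rw [Algebra.smul_def]
    change a.1 * (DD d c * b) = _
    ring

/-- Schur complements. -/
lemma det_schur {c : ℕ} (M : Matrix (Fin (c + 1)) (Fin (c + 1)) L) (h : M 0 0 ≠ 0) :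
    M.det = M 0 0 * (Matrix.of fun i j : Fin c =>
      M i.succ j.succ - M i.succ 0 / M 0 0 * M 0 j.succ).det := by
  let e : Fin (c + 1) → L := Fin.cons 0 fun i => M i.succ 0 / M 0 0
  let B : Matrix (Fin (c + 1)) (Fin (c + 1)) L := Matrix.of fun i j => M i j - e i * M 0 j
  have h1 : M.det = B.det := by
    refine Matrix.det_eq_of_forall_row_eq_smul_add_const e 0 rfl fun i j => ?_
    have h2 : e 0 = 0 := rfl
    change M i j = (M i j - e i * M 0 j) + e i * (M 0 j - e 0 * M 0 j)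
    rw [h2]
    ring
  rw [h1, Matrix.det_succ_column_zero, Finset.sum_eq_single 0]
  · have h2 : B 0 0 = M 0 0 := by
      change M 0 0 - 0 * M 0 0 = _
      ring
    rw [h2]
    simp only [Fin.val_zero, pow_zero, one_mul]
    congr 1
  · intro i _ hi
    obtain ⟨i', rfl⟩ := Fin.exists_succ_eq.2 hi
    have h2 : B i'.succ 0 = 0 := by
      change M i'.succ 0 - M i'.succ 0 / M 0 0 * M 0 0 = 0
      rw [div_mul_cancel₀ _ h, sub_self]
    rw [h2]
    ring
  · intro h0
    exact absurd (Finset.mem_univ _) h0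

end dom

end Pool.Agent.R837.FS
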