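import Pool.Agent.R837.FM.Step2
import Pool.Agent.R837.FS.Min

/-!
The step of the construction of the charts: the matrix of the Frobenius.
-/

set_option autoImplicit false
set_option linter.unusedSectionVars false

open Finset

universe u v w z

namespace Pool.Agent.R837.FS

open Pool.Agent.R837.FM

section step

variable {F : Type v} [Field F] [Fintype F] {k : Type z} [Field k] {L : Type u} [Field L]
  [Algebra F L] [Algebra k L] {m s : ℕ}
  {B : Subalgebra k L} {X Λ : Submodule F (Fin m → L)} {N : ℕ} {T : Type}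
  {R : T → Subalgebra k L} {H : T → L} {r : T → X →ₗ[F] (Fin s → L)}
  {ι : Type} [Fintype ι] [DecidableEq ι] {x : ι → X} {e : ℕ}

/-- The step of the construction, with more information. -/
theorem step_more [Finite T] (S : Stage F B X Λ N R H r) (x : ι → X)
    (hxB : ∀ i l, (x i : Fin m → L) l ∈ B)
    (hind : ∀ a : ι → F, ((∑ i, a i • x i : X) : Fin m → L) ∈ Λ → a = 0) (e : ℕ) (he : 0 < e) :
    ∃ M, Stage F B X (Λ ⊔ Submodule.span F (Set.range fun i => (x i : Fin m → L)))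
      (N + Fintype.card ι) (fun τ : TT r x => RR R e τ) (fun τ : TT r x => HH H M e τ)
      (fun τ : TT r x => rr τ) ∧
      (∀ τ τ' : TT r x, Loc (R τ.1.1) (H τ'.1.1 / H τ.1.1) ≤
        Loc (RR R e τ) (HH H M e τ' / HH H M e τ)) ∧
      (∀ τ τ' : TT r x, τ.2.Δ / τ'.2.Δ ∈ Loc (RR R e τ) (HH H M e τ' / HH H M e τ)) ∧
      (∀ τ τ' : TT r x, τ'.2.Δ / τ.2.Δ ∈ Loc (RR R e τ) (HH H M e τ' / HH H M e τ)) ∧
      ∀ τ : TT r x, 1 / τ.2.Δ ∈ Loc B (HH H M e τ) := by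
  obtain ⟨M0, hM1, hM2⟩ := exists_exp S x hxB e
  have hHH : ∀ τ : TT r x, HH H (e * M0 + 1) e τ = H τ.1.1 * (H τ.1.1 ^ M0 * τ.2.Δ) ^ e := by
    intro τ
    change H τ.1.1 ^ (e * M0 + 1) * τ.2.Δ ^ e = _
    rw [mul_pow, ← pow_mul, pow_succ, mul_comm M0 e]
    ring
  have hdiv : ∀ τ τ' : TT r x, HH H (e * M0 + 1) e τ' / HH H (e * M0 + 1) e τ =
      H τ'.1.1 / H τ.1.1 * ((H τ'.1.1 / H τ.1.1) ^ M0 * (τ'.2.Δ / τ.2.Δ)) ^ e := by
    intro τ τ'
    rw [hHH, hHH, mul_div_mul_comm, ← div_pow, mul_div_mul_comm, ← div_pow]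
  have hH0 : ∀ τ : TT r x, HH H (e * M0 + 1) e τ ≠ 0 := fun τ =>
    mul_ne_zero (pow_ne_zero _ (S.H0 _)) (pow_ne_zero _ τ.2.Δ_ne)
  have hloc : ∀ τ τ' : TT r x, Loc (RR R e τ) (H τ'.1.1 / H τ.1.1) ≤
      Loc (RR R e τ) (HH H (e * M0 + 1) e τ' / HH H (e * M0 + 1) e τ) := by
    intro τ τ'
    rw [hdiv]
    exact loc_le_of_mul (Subalgebra.pow_mem _ (hM1 τ τ') _) (pow_ne_zero _
      (mul_ne_zero (pow_ne_zero _ (div_ne_zero (S.H0 _) (S.H0 _)))
        (div_ne_zero τ'.2.Δ_ne τ.2.Δ_ne)))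
  have hinv : ∀ τ τ' : TT r x, τ.2.Δ / τ'.2.Δ ∈
      Loc (RR R e τ) (HH H (e * M0 + 1) e τ' / HH H (e * M0 + 1) e τ) := by
    intro τ τ'
    have h1 : τ.2.Δ / τ'.2.Δ = (τ'.2.Δ / τ.2.Δ) ^ (e - 1) *
        ((H τ'.1.1 / H τ.1.1) ^ (e * M0 + 1) *
        (HH H (e * M0 + 1) e τ' / HH H (e * M0 + 1) e τ)⁻¹) := by
      have h2 : HH H (e * M0 + 1) e τ' / HH H (e * M0 + 1) e τ =
          (H τ'.1.1 / H τ.1.1) ^ (e * M0 + 1) * (τ'.2.Δ / τ.2.Δ) ^ e := by
        change H τ'.1.1 ^ (e * M0 + 1) * τ'.2.Δ ^ e / (H τ.1.1 ^ (e * M0 + 1) * τ.2.Δ ^ e) = _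
        rw [mul_div_mul_comm, ← div_pow, ← div_pow]
      have h3 : H τ'.1.1 / H τ.1.1 ≠ 0 := div_ne_zero (S.H0 _) (S.H0 _)
      have h4 : τ'.2.Δ / τ.2.Δ ≠ 0 := div_ne_zero τ'.2.Δ_ne τ.2.Δ_ne
      have h5 : τ.2.Δ / τ'.2.Δ = (τ'.2.Δ / τ.2.Δ)⁻¹ := by rw [inv_div]
      rw [h2, h5]
      generalize H τ'.1.1 / H τ.1.1 = α at h3
      generalize τ'.2.Δ / τ.2.Δ = δ at h4
      obtain ⟨e', rfl⟩ : ∃ e', e = e' + 1 := ⟨e - 1, by omega⟩
      rw [Nat.add_sub_cancel]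
      field_simp
      ring
    rw [h1]
    refine Subalgebra.mul_mem _ (Subalgebra.pow_mem _ ?_ _) (Subalgebra.mul_mem _
      (Subalgebra.pow_mem _ (le_loc _ _ (τ.2.le_alg (S.rt _ _))) _) (inv_mem_loc _ _))
    exact hloc τ τ' (det_div_mem' (R := R) (e := e) τ τ' (loc_mono τ.2.le_alg _) (le_loc _ _)
      (fun l => S.op τ.1.1 τ'.1.1 l))
  have hle : ∀ τ τ' : TT r x, Loc (R τ.1.1) (H τ'.1.1 / H τ.1.1) ≤
      Loc (RR R e τ) (HH H (e * M0 + 1) e τ' / HH H (e * M0 + 1) e τ) :=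
    fun τ τ' => (loc_mono τ.2.le_alg _).trans (hloc τ τ')
  have hc : ∀ (τ τ' : TT r x) l p, τ'.2.c l p ∈
      Loc (RR R e τ) (HH H (e * M0 + 1) e τ' / HH H (e * M0 + 1) e τ) := fun τ τ' l p =>
    c_mem' (R := R) (e := e) τ τ' (hle τ τ') (le_loc _ _) (fun l => S.op τ.1.1 τ'.1.1 l)
      (hinv τ τ') l p
  -- the map to `B`
  have hlocB : ∀ τ : TT r x, Loc B (H τ.1.1) ≤ Loc B (HH H (e * M0 + 1) e τ) := by
    intro τ
    rw [hHH]
    exact loc_le_of_mul (Subalgebra.pow_mem _ (hM2 τ) _) (pow_ne_zero _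
      (mul_ne_zero (pow_ne_zero _ (S.H0 _)) τ.2.Δ_ne))
  have hentB : ∀ (τ : TT r x) (j : ℕ) l i, fr F j (r τ.1.1 (x i) l) ∈ Loc B (H τ.1.1) := by
    intro τ j l i
    exact fr_mem_alg (op_mem (S.coef τ.1.1 l) (Loc B (H τ.1.1)) (S.dn _)
        fun l => le_loc _ _ (hxB i l)) _
  have hinvB : ∀ τ : TT r x, 1 / τ.2.Δ ∈ Loc B (HH H (e * M0 + 1) e τ) := by
    intro τ
    have h1 : 1 / τ.2.Δ = τ.2.Δ ^ (e - 1) *
        (H τ.1.1 ^ (e * M0 + 1) * (HH H (e * M0 + 1) e τ)⁻¹) := by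
      change _ = _ * (H τ.1.1 ^ (e * M0 + 1) * (H τ.1.1 ^ (e * M0 + 1) * τ.2.Δ ^ e)⁻¹)
      have h3 : H τ.1.1 ≠ 0 := S.H0 _
      have h4 : τ.2.Δ ≠ 0 := τ.2.Δ_ne
      obtain ⟨e', rfl⟩ : ∃ e', e = e' + 1 := ⟨e - 1, by omega⟩
      rw [Nat.add_sub_cancel]
      generalize H τ.1.1 = α at h3
      generalize τ.2.Δ = δ at h4
      field_simp
      ring
    rw [h1]
    refine Subalgebra.mul_mem _ (Subalgebra.pow_mem _ (hlocB τ ?_) _) (Subalgebra.mul_mem _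
      (Subalgebra.pow_mem _ (le_loc _ _ (S.HB _)) _) (inv_mem_loc _ _))
    exact mem_of_entries _ fun p i => hentB τ _ _ _
  refine ⟨e * M0 + 1, ?_, hle, hinv, fun τ τ' => hloc τ τ' (det_div_mem' (R := R) (e := e) τ τ'
    (loc_mono τ.2.le_alg _) (le_loc _ _) (fun l => S.op τ.1.1 τ'.1.1 l)), hinvB⟩
  refine
    { H0 := hH0
      HB := ?_
      rt := ?_
      gl := ?_
      dn := ?_
      coef := ?_
      op := ?_
      ker := fun τ y => ker_step S.ker hind τ y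
      int := ?_
      cv := fun V hV => cv_step S hxB hind e V hV
      dim := ?_ }
  · intro τ
    rw [hHH]
    exact B.mul_mem (S.HB _) (B.pow_mem (hM2 τ) _)
  · intro τ τ'
    rw [hdiv]
    exact Subalgebra.mul_mem _ (τ.2.le_alg (S.rt _ _)) (Subalgebra.pow_mem _ (hM1 τ τ') _)
  · intro τ τ'
    refine τ'.2.alg_le ((S.gl τ.1.1 τ'.1.1).trans (hle τ τ')) ?_ (hc τ τ')
    have h1 : τ'.2.Δ ^ e = (τ'.2.Δ / τ.2.Δ) ^ e * τ.2.Δ ^ e := by
      rw [← mul_pow, div_mul_cancel₀ _ τ.2.Δ_ne]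
    rw [h1]
    refine Subalgebra.mul_mem _ (Subalgebra.pow_mem _ ?_ _) (le_loc _ _ τ.2.Δ_mem)
    exact hloc τ τ' (det_div_mem' (R := R) (e := e) τ τ' (loc_mono τ.2.le_alg _) (le_loc _ _)
      (fun l => S.op τ.1.1 τ'.1.1 l))
  · intro τ
    refine τ.2.alg_le ((S.dn _).trans (hlocB τ)) ?_ fun l p => ?_
    · exact Subalgebra.pow_mem _ (hlocB τ (mem_of_entries _ fun p i => hentB τ _ _ _)) _
    · refine coord_mem (Equiv.refl ι) τ.2.e (g := std ι L) (fun p' => ?_) ?_ (τ.2.hc l)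
        τ.2.Δ_ne ?_ p
      · exact mem_spn_std fun i => hlocB τ (hentB τ _ _ _)
      · exact mem_spn_std fun i => hlocB τ (hentB τ _ _ _)
      · rw [std_det]
        exact hinvB τ
  · intro τ l
    exact rr_mem_op τ (fun l => op_mono τ.2.le_alg _ (S.coef _ l)) (fun l p => τ.2.c_mem l p) l
  · intro τ τ' l
    have h1 : (fun y => rr τ' y l) ∈ Op F
        (Loc (RR R e τ) (HH H (e * M0 + 1) e τ' / HH H (e * M0 + 1) e τ)) (r τ.1.1) :=
      rr_mem_op τ' (fun l => op_mono (hle τ τ') _ (S.op _ _ l)) (hc τ τ') l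
    refine div_zero (fun l p => le_loc _ _ (τ.2.c_mem l p)) τ.2.li (fun i => rr_x τ i) h1 ?_
    intro i
    rw [rr_x]
    rfl
  · intro τ V hV y hy l
    refine S.int τ.1.1 V (fun a ha => hV a (τ.2.le_alg ha)) y ?_ l
    exact int_aux (F := F) V _ τ.2.c (fun l p => hV _ (τ.2.c_mem l p)) _ hy
  · intro τ
    obtain ⟨P, hP, base, hcard, h⟩ := S.dim τ.1.1
    refine ⟨P ⊕ Idx fun l => (τ.1.2 l : ℕ), inferInstance,
      Sum.elim base (bs F (r τ.1.1) fun l => (τ.1.2 l : ℕ)), ?_, ?_⟩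
    · rw [Fintype.card_sum, hcard]
      exact congrArg (N + ·) τ.2.card.symm
    · have h1 : Op F (RR R e τ) (co X) ≤
          spn (RR R e τ) (gens F (r τ.1.1) ∪ Set.range base) := by
        refine spn_le_spn le_rfl fun g hg => ?_
        exact spn_mono τ.2.le_alg subset_rfl (h (subset_spn hg))
      refine h1.trans (spn_le_spn le_rfl ?_)
      rintro g (⟨l, j, rfl⟩ | ⟨p, rfl⟩)
      · have h2 := div (F := F) (r := r τ.1.1) (d := fun l => (τ.1.2 l : ℕ)) (c := τ.2.c)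
          (Q := RR R e τ) (fun l p => τ.2.c_mem l p) l j
        refine spn_mono le_rfl ?_ h2
        rintro g (hg | ⟨p, rfl⟩)
        · exact Or.inl hg
        · exact Or.inr ⟨Sum.inr p, rfl⟩
      · exact subset_spn (Or.inr ⟨Sum.inl p, rfl⟩)

end step

section frob

variable {F : Type v} [Field F] [Fintype F] {k : Type z} [Field k] {L : Type u} [Field L]
  [Algebra F L] [Algebra k L] {s : ℕ} {ι : Type} [Fintype ι] [DecidableEq ι]
  {y : ι → Fin s → L} {d : Fin s → ℕ}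

/-- The matrix of the basis. -/
noncomputable def Fm (h : Good F y d) : Matrix ι ι L := fm (fam F y d) h.e

/-- The matrix of the Frobenius, on the level of the indices. -/
noncomputable def Pi0 (c : Fin s → Idx d → L) : Matrix (Idx d) (Idx d) L :=
  Matrix.of fun p p' => if h : (p'.2 : ℕ) + 1 < d p'.1 then
    (if p = ⟨p'.1, ⟨p'.2 + 1, h⟩⟩ then 1 else 0) else c p'.1 p

/-- The matrix of the Frobenius. -/
noncomputable def Ph (h : Good F y d) : Matrix ι ι L := (Pi0 h.c).submatrix h.e h.e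

lemma Fm_det (h : Good F y d) : (Fm h).det = h.Δ := rfl

lemma Fm_Ph (h : Good F y d) : (Fm h).map (fr F 1) = Fm h * Ph h := by
  ext i i'
  rw [Matrix.map_apply, Matrix.mul_apply]
  obtain ⟨l, j, hj⟩ : ∃ l j, ∃ hj : j < d l, h.e i' = ⟨l, ⟨j, hj⟩⟩ :=
    ⟨(h.e i').1, (h.e i').2, (h.e i').2.2, rfl⟩
  obtain ⟨hj, hi'⟩ := hj
  have h1 : fr F 1 (Fm h i i') = fr F (j + 1) (y i l) := by
    change fr F 1 (fam F y d (h.e i') i) = _
    rw [hi']
    exact (fr_succ F j _).symm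
  rw [h1]
  have h2 : ∑ i'', Fm h i i'' * Ph h i'' i' = ∑ p, fam F y d p i * Pi0 h.c p ⟨l, ⟨j, hj⟩⟩ := by
    rw [← Equiv.sum_comp h.e]
    refine Finset.sum_congr rfl fun i'' _ => ?_
    change fam F y d (h.e i'') i * Pi0 h.c (h.e i'') (h.e i') = _
    rw [hi']
  rw [h2]
  by_cases hjd : j + 1 < d l
  · rw [Finset.sum_eq_single ⟨l, ⟨j + 1, hjd⟩⟩]
    · have h3 : Pi0 h.c ⟨l, ⟨j + 1, hjd⟩⟩ ⟨l, ⟨j, hj⟩⟩ = 1 := by
        change (if h : j + 1 < d l then _ else _) = _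
        rw [dif_pos hjd, if_pos rfl]
      rw [h3, mul_one]
      rfl
    · intro p _ hp
      have h3 : Pi0 h.c p ⟨l, ⟨j, hj⟩⟩ = 0 := by
        change (if h : j + 1 < d l then _ else _) = _
        rw [dif_pos hjd, if_neg hp]
      rw [h3, mul_zero]
    · intro h3
      exact absurd (Finset.mem_univ _) h3
  · have h3 : ∀ p, Pi0 h.c p ⟨l, ⟨j, hj⟩⟩ = h.c l p := by
      intro p
      change (if h : j + 1 < d l then _ else _) = _
      rw [dif_neg hjd]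
    have h4 : j + 1 = d l := by omega
    rw [h4]
    refine (h.hc l i).trans (Finset.sum_congr rfl fun p _ => ?_)
    rw [h3, mul_comm]

lemma map_mul_fr (M M' : Matrix ι ι L) : (M * M').map (fr F 1) = M.map (fr F 1) * M'.map (fr F 1) :=
  Matrix.map_mul

lemma det_map_fr (M : Matrix ι ι L) : (M.map (fr F 1)).det = M.det ^ Fintype.card F := by
  have h1 : (M.map (fr F 1)).det = fr F 1 M.det := ((fr F 1 : L →ₐ[F] L).map_det M).symm
  rw [h1, fr_one]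

/-- The determinant of the Frobenius. -/
lemma Ph_det (h : Good F y d) : (Ph h).det = h.Δ ^ (Fintype.card F - 1) := by
  have h1 := congrArg Matrix.det (Fm_Ph h)
  rw [det_map_fr, Matrix.det_mul, Fm_det] at h1
  have h2 : h.Δ ^ Fintype.card F = h.Δ * h.Δ ^ (Fintype.card F - 1) := by
    rw [← pow_succ', Nat.sub_add_cancel Fintype.card_pos]
  rw [h2] at h1
  exact (mul_left_cancel₀ h.Δ_ne h1).symm

lemma Ph_ent (h : Good F y d) {Q : Subalgebra k L} (hQ : ∀ l p, h.c l p ∈ Q) : Ent Q (Ph h) := by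
  intro i i'
  change (if h : _ then _ else _) ∈ Q
  split_ifs
  · exact Q.one_mem
  · exact Q.zero_mem
  · exact hQ _ _

lemma ent_inv {Q : Subalgebra k L} {A : Matrix ι ι L} (hA : Ent Q A) (hd : A.det⁻¹ ∈ Q) :
    Ent Q A⁻¹ := by
  let A' : Matrix ι ι Q := Matrix.of fun i j => ⟨A i j, hA i j⟩
  have h1 : A = A'.map Q.val := rfl
  intro i j
  rw [Matrix.inv_def, Ring.inverse_eq_inv', Matrix.smul_apply, smul_eq_mul]
  refine Q.mul_mem hd ?_
  have h2 : A.adjugate = A'.adjugate.map Q.val := by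
    rw [h1]
    exact (Q.val.toRingHom.map_adjugate A').symm
  rw [h2]
  exact (A'.adjugate i j).2

/-- The change of the charts. -/
theorem Ph_dom {y' : ι → Fin s → L} {d' : Fin s → ℕ} (h : Good F y d) (h' : Good F y' d')
    {Q : Subalgebra k L} (hcol : ∀ p' : Idx d', fam F y' d' p' ∈
      spn Q (Set.range (fam F y d))) (hinv : h.Δ / h'.Δ ∈ Q) : Dom Q (Ph h) (Ph h') := by
  have h1 : ∀ i', ∃ a : Idx d → Q, ∀ i, Fm h' i i' = ∑ p, (a p : L) * fam F y d p i := by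
    intro i'
    obtain ⟨a, ha, h2⟩ := mem_spn_range.1 (hcol (h'.e i'))
    exact ⟨fun p => ⟨a p, ha p⟩, h2⟩
  choose a ha using h1
  let A : Matrix ι ι L := Matrix.of fun i i' => a i' (h.e i)
  have hA : Fm h' = Fm h * A := by
    ext i i'
    rw [ha, Matrix.mul_apply, ← Equiv.sum_comp h.e]
    refine Finset.sum_congr rfl fun i'' _ => ?_
    change (a i' (h.e i'') : L) * fam F y d (h.e i'') i = fam F y d (h.e i'') i * _
    exact mul_comm _ _
  have hAe : Ent Q A := fun i j => (a j (h.e i)).2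
  have hdet : A.det = h'.Δ / h.Δ := by
    have h2 := congrArg Matrix.det hA
    rw [Matrix.det_mul, Fm_det, Fm_det] at h2
    rw [h2, mul_div_cancel_left₀ _ h.Δ_ne]
  have hdi : A.det⁻¹ ∈ Q := by
    rw [hdet, inv_div]
    exact hinv
  have hAu : IsUnit A.det := by
    rw [hdet]
    exact (div_ne_zero h'.Δ_ne h.Δ_ne).isUnit
  refine ⟨A⁻¹, A.map (fr F 1), ent_inv hAe hdi, fun i j => fr_mem_alg (hAe i j) 1, ?_⟩
  have h2 : A * Ph h' = Ph h * A.map (fr F 1) := by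
    have h3 : Fm h * (A * Ph h') = Fm h * (Ph h * A.map (fr F 1)) := by
      rw [← Matrix.mul_assoc, ← hA, ← Fm_Ph, hA, map_mul_fr, Fm_Ph, Matrix.mul_assoc]
    have h4 : IsUnit (Fm h).det := by
      rw [Fm_det]
      exact h.Δ_ne.isUnit
    have h5 := congrArg ((Fm h)⁻¹ * ·) h3
    simpa only [Matrix.nonsing_inv_mul_cancel_left _ _ h4] using h5
  rw [Matrix.mul_assoc, ← h2, Matrix.nonsing_inv_mul_cancel_left _ _ hAu]

end frob

end Pool.Agent.R837.FS
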