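import Pool.Agent.R837.FS.Min

/-!
Pivoting of matrices over valuation rings.
-/

set_option autoImplicit false
set_option linter.unusedSectionVars false

open Finset

universe u v w z

namespace Pool.Agent.R837.FS

section piv

variable {k : Type z} [Field k] {L : Type u} [Field L] [Algebra k L]

/-- The data of a chart of the matrices of size `r`. -/
structure Pv {r : ℕ} (V : ValuationSubring L) (W : Matrix (Fin r) (Fin r) L) (d : ℕ → L)
    (P : Type) [Fintype P] (gs : P → L) : Prop where
  card : Fintype.card P + r = r * r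
  d0 : ∀ i, d i ≠ 0
  dV : ∀ i, d i ∈ V
  gV : ∀ p, gs p ∈ V
  dec : ∃ A B : Matrix (Fin r) (Fin r) L, Ent (Algebra.adjoin k (Set.range gs)) A ∧
    Ent (Algebra.adjoin k (Set.range gs)) B ∧ W = A * (Matrix.diagonal fun i : Fin r => dl d i) * B
  mi : ∀ c ≤ r, ∃ F G : Fin c → Fin r, (W.submatrix F G).det = DD d c
  conv : ∀ Q : Subalgebra k L, (∀ i j, W i j ∈ Q) →
    (∀ c < r, ∀ F G : Fin (c + 1) → Fin r, (W.submatrix F G).det / DD d (c + 1) ∈ Q) →
    (∀ i < r, d i ∈ Q) ∧ ∀ p, gs p ∈ Q

/-- Permutations of rows and columns. -/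
lemma Pv.perm {r : ℕ} {V : ValuationSubring L} {W : Matrix (Fin r) (Fin r) L} {d : ℕ → L}
    {P : Type} [Fintype P] {gs : P → L} (h : Pv (k := k) V W d P gs) (e e' : Fin r ≃ Fin r) :
    Pv (k := k) V (W.submatrix e e') d P gs := by
  refine { card := h.card, d0 := h.d0, dV := h.dV, gV := h.gV, dec := ?_, mi := ?_, conv := ?_ }
  · obtain ⟨A, B, hA, hB, h1⟩ := h.dec
    refine ⟨A.submatrix e id, B.submatrix id e', fun i j => hA _ _, fun i j => hB _ _, ?_⟩
    rw [h1]
    ext i j
    simp only [Matrix.submatrix_apply, Matrix.mul_apply]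
    rfl
  · intro c hc
    obtain ⟨F, G, h1⟩ := h.mi c hc
    refine ⟨e.symm ∘ F, e'.symm ∘ G, ?_⟩
    rw [← h1]
    congr 1
    ext i j
    simp only [Matrix.submatrix_apply, Function.comp_apply, Equiv.apply_symm_apply]
  · intro Q hQ hQ'
    refine h.conv Q (fun i j => ?_) fun c hc F G => ?_
    · have h1 := hQ (e.symm i) (e'.symm j)
      simpa only [Matrix.submatrix_apply, Equiv.apply_symm_apply] using h1
    · have h1 := hQ' c hc (e.symm ∘ F) (e'.symm ∘ G)
      have h2 : (W.submatrix e e').submatrix (e.symm ∘ F) (e'.symm ∘ G) = W.submatrix F G := by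
        ext i j
        simp only [Matrix.submatrix_apply, Function.comp_apply, Equiv.apply_symm_apply]
      rwa [h2] at h1

/-- The minors containing the pivot. -/
lemma minor_piv {r c : ℕ} (M : Matrix (Fin (r + 1)) (Fin (r + 1)) L) (h0 : M 0 0 ≠ 0)
    {M' : Matrix (Fin r) (Fin r) L}
    (hM' : ∀ i j, M i.succ j.succ = M 0 0 * M' i j + M i.succ 0 / M 0 0 * M 0 j.succ)
    (F G : Fin c → Fin r) :
    (M.submatrix (Fin.cons 0 fun i => (F i).succ : Fin (c + 1) → Fin (r + 1))
      (Fin.cons 0 fun i => (G i).succ : Fin (c + 1) → Fin (r + 1))).det =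
      M 0 0 ^ (c + 1) * (M'.submatrix F G).det := by
  let S : Matrix (Fin (c + 1)) (Fin (c + 1)) L :=
    M.submatrix (Fin.cons 0 fun i => (F i).succ : Fin (c + 1) → Fin (r + 1))
      (Fin.cons 0 fun i => (G i).succ : Fin (c + 1) → Fin (r + 1))
  have hS0 : S 0 0 = M 0 0 := rfl
  have h1 : (Matrix.of fun i j : Fin c => S i.succ j.succ - S i.succ 0 / S 0 0 * S 0 j.succ) =
      M 0 0 • M'.submatrix F G := by
    ext i j
    change M (F i).succ (G j).succ - M (F i).succ 0 / M 0 0 * M 0 (G j).succ =
      M 0 0 * M' (F i) (G j)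
    rw [hM']
    ring
  refine (det_schur S (by rw [hS0]; exact h0)).trans ?_
  rw [h1, Matrix.det_smul, Fintype.card_fin, ← mul_assoc, hS0, ← pow_succ']

lemma piv_step {r : ℕ} {V : ValuationSubring L} (M : Matrix (Fin (r + 1)) (Fin (r + 1)) L)
    (h0 : M 0 0 ≠ 0) (hV : M 0 0 ∈ V) (hl : ∀ i : Fin r, M i.succ 0 / M 0 0 ∈ V)
    (hu : ∀ j : Fin r, M 0 j.succ / M 0 0 ∈ V) {M' : Matrix (Fin r) (Fin r) L}
    (hM' : ∀ i j, M i.succ j.succ = M 0 0 * M' i j + M i.succ 0 / M 0 0 * M 0 j.succ)
    {d : ℕ → L} {P : Type} [Fintype P] {gs : P → L} (h : Pv (k := k) V M' d P gs) :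
    Pv (k := k) V M (cns (M 0 0) d) (P ⊕ (Fin r ⊕ Fin r)) (Sum.elim gs
      (Sum.elim (fun i : Fin r => M i.succ 0 / M 0 0) fun j : Fin r => M 0 j.succ / M 0 0)) := by
  set gs' : P ⊕ (Fin r ⊕ Fin r) → L := Sum.elim gs
      (Sum.elim (fun i : Fin r => M i.succ 0 / M 0 0) fun j : Fin r => M 0 j.succ / M 0 0)
    with hgs'
  have hle : Algebra.adjoin k (Set.range gs) ≤ Algebra.adjoin k (Set.range gs') := by
    refine Algebra.adjoin_mono ?_
    rintro _ ⟨p, rfl⟩
    exact ⟨Sum.inl p, rfl⟩
  refine
    { card := ?_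
      d0 := ?_
      dV := ?_
      gV := ?_
      dec := ?_
      mi := ?_
      conv := ?_ }
  · rw [Fintype.card_sum, Fintype.card_sum, Fintype.card_fin]
    have := h.card
    nlinarith
  · rintro (_ | i)
    · exact h0
    · exact h.d0 i
  · rintro (_ | i)
    · exact hV
    · exact h.dV i
  · rintro (p | i | j)
    · exact h.gV p
    · exact hl i
    · exact hu j
  · obtain ⟨A, B, hA, hB, h1⟩ := h.dec
    refine ⟨Matrix.of fun i => Fin.cases (Fin.cons 1 0 : Fin (r + 1) → L)
      (fun i' => Fin.cons (M i'.succ 0 / M 0 0) (A i')) i,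
      Matrix.of fun i => Fin.cases (Fin.cons 1 fun j => M 0 j.succ / M 0 0 : Fin (r + 1) → L)
      (fun i' => Fin.cons 0 (B i')) i, ?_, ?_, ?_⟩
    · intro i j
      refine Fin.cases ?_ (fun i => ?_) i
      · refine Fin.cases ?_ (fun j => ?_) j
        · exact Subalgebra.one_mem _
        · exact Subalgebra.zero_mem _
      · refine Fin.cases ?_ (fun j => ?_) j
        · exact Algebra.subset_adjoin ⟨Sum.inr (Sum.inl i), rfl⟩
        · exact hle (hA i j)
    · intro i j
      refine Fin.cases ?_ (fun i => ?_) i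
      · refine Fin.cases ?_ (fun j => ?_) j
        · exact Subalgebra.one_mem _
        · exact Algebra.subset_adjoin ⟨Sum.inr (Sum.inr j), rfl⟩
      · refine Fin.cases ?_ (fun j => ?_) j
        · exact Subalgebra.zero_mem _
        · exact hle (hB i j)
    · ext i j
      rw [Matrix.mul_apply, Fin.sum_univ_succ]
      simp only [Matrix.mul_diagonal, Matrix.of_apply]
      refine Fin.cases ?_ (fun i => ?_) i
      · refine Fin.cases ?_ (fun j => ?_) j
        · simp [dl_cns_zero]
        · simp [dl_cns_zero]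
          field_simp
      · refine Fin.cases ?_ (fun j => ?_) j
        · simp [dl_cns_zero]
          field_simp
        · have h2 : M' i j = ∑ t, A i t * dl d t * B t j := by
            rw [h1, Matrix.mul_apply]
            exact Finset.sum_congr rfl fun t _ => by rw [Matrix.mul_diagonal]
          rw [hM', h2, Finset.mul_sum, add_comm]
          simp only [Fin.cases_succ, Fin.cons_succ, Fin.cons_zero, Fin.cases_zero, Fin.val_zero,
            dl_cns_zero, Fin.val_succ, dl_cns]
          congr 1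
          · field_simp
          · exact Finset.sum_congr rfl fun t _ => by ring
  · intro c hc
    rcases c with _ | c
    · refine ⟨Fin.elim0, Fin.elim0, ?_⟩
      rw [Matrix.det_isEmpty, DD_zero]
    · obtain ⟨F, G, h1⟩ := h.mi c (by omega)
      refine ⟨_, _, (minor_piv M h0 hM' F G).trans ?_⟩
      rw [h1, DD_cns]
  · intro Q hQ hQ'
    have h1 : ∀ i j, M i j / M 0 0 ∈ Q := by
      intro i j
      have h2 := hQ' 0 (Nat.succ_pos _) (fun _ => i) (fun _ => j)
      have h3 : (M.submatrix (fun _ : Fin (0 + 1) => i) fun _ : Fin (0 + 1) => j).det = M i j :=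
        Matrix.det_fin_one _
      rw [h3, zero_add, DD_one] at h2
      exact h2
    have h2 := h.conv Q (fun i j => ?_) fun c hc F G => ?_
    · refine ⟨?_, ?_⟩
      · rintro (_ | i) hi
        · exact hQ 0 0
        · exact h2.1 i (by omega)
      · rintro (p | i | j)
        · exact h2.2 p
        · exact h1 _ _
        · exact h1 _ _
    · have h3 : M' i j = M i.succ j.succ / M 0 0 - (M i.succ 0 / M 0 0) * (M 0 j.succ / M 0 0) := by
        rw [hM']
        field_simp
        ring
      rw [h3]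
      exact Q.sub_mem (h1 _ _) (Q.mul_mem (h1 _ _) (h1 _ _))
    · have h3 := hQ' (c + 1) (by omega) (Fin.cons 0 fun i => (F i).succ)
        (Fin.cons 0 fun i => (G i).succ)
      rw [minor_piv M h0 hM', DD_cns, mul_div_mul_left _ _ (pow_ne_zero _ h0)] at h3
      exact h3

/-- Pivoting over a valuation ring. -/
theorem piv (V : ValuationSubring L) : ∀ (r : ℕ) (W : Matrix (Fin r) (Fin r) L),
    (∀ i j, W i j ∈ V) → W.det ≠ 0 → ∃ (d : ℕ → L) (P : Type) (_ : Fintype P) (gs : P → L),
      Pv (k := k) V W d P gs ∧ ∀ i, r ≤ i → d i = 1 := by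
  intro r
  induction r with
  | zero =>
    intro W _ _
    refine ⟨fun _ => 1, Empty, inferInstance, fun p => p.elim, ?_, fun _ _ => rfl⟩
    refine
      { card := rfl
        d0 := fun _ => one_ne_zero
        dV := fun _ => V.one_mem
        gV := fun p => p.elim
        dec := ?_
        mi := ?_
        conv := ?_ }
    · refine ⟨W, W, fun i => i.elim0, fun i => i.elim0, ?_⟩
      ext i
      exact i.elim0
    · intro c hc
      obtain rfl : c = 0 := by omega
      exact ⟨Fin.elim0, Fin.elim0, by rw [Matrix.det_isEmpty, DD_zero]⟩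
    · exact fun Q _ _ => ⟨fun i hi => absurd hi (Nat.not_lt_zero _), fun p => p.elim⟩
  | succ r ih =>
    intro W hW hdet
    obtain ⟨⟨a, b⟩, hab⟩ := Finite.exists_max
      fun p : Fin (r + 1) × Fin (r + 1) => V.valuation (W p.1 p.2)
    have hab' : ∀ i j, V.valuation (W i j) ≤ V.valuation (W a b) := fun i j => hab (i, j)
    have hw0 : W a b ≠ 0 := by
      intro h0
      apply hdet
      have h1 : W = 0 := by
        ext i j
        have h2 := hab' i j
        rw [h0, map_zero, le_zero_iff, map_eq_zero] at h2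
        exact h2
      rw [h1, Matrix.det_zero]
    have hdiv : ∀ i j, W i j / W a b ∈ V := by
      intro i j
      rw [← V.valuation_le_one_iff, map_div₀]
      exact div_le_one_of_le₀ (hab' i j) zero_le
    let M : Matrix (Fin (r + 1)) (Fin (r + 1)) L :=
      W.submatrix (Fin.cycleRange a).symm (Fin.cycleRange b).symm
    have hM00 : M 0 0 = W a b := by
      change W ((Fin.cycleRange a).symm 0) ((Fin.cycleRange b).symm 0) = _
      rw [Fin.cycleRange_symm_zero, Fin.cycleRange_symm_zero]
    have hMdiv : ∀ i j, M i j / M 0 0 ∈ V := by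
      intro i j
      rw [hM00]
      exact hdiv _ _
    have hMV : ∀ i j, M i j ∈ V := fun i j => hW _ _
    have h0 : M 0 0 ≠ 0 := by rw [hM00]; exact hw0
    have hMdet : M.det ≠ 0 := by
      have h1 : IsUnit W := (Matrix.isUnit_iff_isUnit_det W).2 hdet.isUnit
      have h2 : IsUnit M := (Matrix.isUnit_submatrix_equiv _ _).2 h1
      exact ((Matrix.isUnit_iff_isUnit_det M).1 h2).ne_zero
    let M' : Matrix (Fin r) (Fin r) L := Matrix.of fun i j =>
      M i.succ j.succ / M 0 0 - (M i.succ 0 / M 0 0) * (M 0 j.succ / M 0 0)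
    have hM' : ∀ i j, M i.succ j.succ =
        M 0 0 * M' i j + M i.succ 0 / M 0 0 * M 0 j.succ := by
      intro i j
      change _ = M 0 0 * (M i.succ j.succ / M 0 0 -
        (M i.succ 0 / M 0 0) * (M 0 j.succ / M 0 0)) + _
      field_simp
      ring
    have h1 := minor_piv M h0 hM' id id
    have h2 : M.submatrix (Fin.cons 0 fun i => (id i).succ : Fin (r + 1) → Fin (r + 1))
        (Fin.cons 0 fun i => (id i).succ : Fin (r + 1) → Fin (r + 1)) = M := by
      ext i j
      refine Fin.cases ?_ (fun i => ?_) i <;> refine Fin.cases ?_ (fun j => ?_) j <;> rfl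
    rw [h2] at h1
    have hM'det : M'.det ≠ 0 := by
      intro h3
      apply hMdet
      rw [h1]
      have h4 : M'.submatrix id id = M' := rfl
      rw [h4, h3, mul_zero]
    obtain ⟨d, P, hP, gs, h3, h4⟩ := ih M'
      (fun i j => sub_mem (hMdiv _ _) (mul_mem (hMdiv _ _) (hMdiv _ _))) hM'det
    have h5 := piv_step (k := k) M h0 (hMV _ _) (fun i => hMdiv _ _) (fun j => hMdiv _ _) hM' h3
    have h6 := h5.perm (Fin.cycleRange a) (Fin.cycleRange b)
    have h7 : M.submatrix (Fin.cycleRange a) (Fin.cycleRange b) = W := by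
      ext i j
      simp only [M, Matrix.submatrix_apply, Equiv.symm_apply_apply]
    rw [h7] at h6
    refine ⟨_, _, _, _, h6, ?_⟩
    rintro (_ | i) hi
    · omega
    · exact h4 i (by omega)

end piv

end Pool.Agent.R837.FS
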