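import Pool.Agent.R837.FS.Stp
import Pool.Agent.R837.FS.Piv

/-!
The block form of the matrix of the Frobenius and its pivoting.
-/

set_option autoImplicit false
set_option linter.unusedSectionVars false

open Finset

universe u v w z

namespace Pool.Agent.R837.FS

open Pool.Agent.R837.FM

section ext

variable {k : Type z} [Field k] {L : Type u} [Field L] [Algebra k L]

/-- Adding terms equal to one. -/
def shf (u : ℕ) (d : ℕ → L) : ℕ → L := fun j => if j < u then 1 else d (j - u)

lemma shf_add (u : ℕ) (d : ℕ → L) (i : ℕ) : shf u d (u + i) = d i := by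
  unfold shf
  rw [if_neg (by omega), Nat.add_sub_cancel_left]

lemma shf_lt {u : ℕ} (d : ℕ → L) {i : ℕ} (h : i < u) : shf u d i = 1 := if_pos h

lemma dl_shf_lt {u : ℕ} (d : ℕ → L) {i : ℕ} (h : i < u) : dl (shf u d) i = 1 :=
  Finset.prod_eq_one fun j hj => shf_lt d (by have := Finset.mem_range.1 hj; omega)

lemma dl_shf_add (u : ℕ) (d : ℕ → L) (i : ℕ) : dl (shf u d) (u + i) = dl d i := by
  unfold dl
  rw [add_assoc, Finset.prod_range_add, Finset.prod_eq_one fun j hj => shf_lt d
    (Finset.mem_range.1 hj), one_mul]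
  exact Finset.prod_congr rfl fun j _ => shf_add u d j

lemma DD_shf_le {u : ℕ} (d : ℕ → L) {c : ℕ} (h : c ≤ u) : DD (shf u d) c = 1 :=
  Finset.prod_eq_one fun j hj => dl_shf_lt d (by have := Finset.mem_range.1 hj; omega)

lemma DD_shf_add (u : ℕ) (d : ℕ → L) (c : ℕ) : DD (shf u d) (u + c) = DD d c := by
  unfold DD
  rw [Finset.prod_range_add, Finset.prod_eq_one fun j hj => dl_shf_lt d
    (Finset.mem_range.1 hj), one_mul]
  exact Finset.prod_congr rfl fun j _ => dl_shf_add u d j

lemma DD_eq_prod (d : ℕ → L) (n : ℕ) : DD d n = ∏ j : Fin n, d j ^ (n - j : ℕ) := by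
  induction n with
  | zero => rfl
  | succ n ih =>
    rw [DD_succ, ih, Fin.prod_univ_castSucc]
    have h1 : dl d n = (∏ j : Fin n, d j) * d n := by
      unfold dl
      rw [Finset.prod_range_succ, Fin.prod_univ_eq_prod_range]
    have h2 : ∀ j : Fin n, d (j.castSucc : Fin (n + 1)) ^ (n + 1 - (j.castSucc : Fin (n + 1)) : ℕ) =
        d j ^ (n - j : ℕ) * d j := by
      intro j
      rw [Fin.val_castSucc, ← pow_succ]
      congr 1
      have := j.2
      omega
    rw [Finset.prod_congr rfl fun j _ => h2 j, Finset.prod_mul_distrib, h1, Fin.val_last,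
      Nat.add_sub_cancel_left, pow_one]
    ring

/-- The data of a chart of a matrix. -/
structure Ch {ι : Type} [Fintype ι] (Φ : Matrix ι ι L) (V : ValuationSubring L)
    (E0 : Set L) (d : ℕ → L) (u : ℕ) (P : Type) [Fintype P] (gs : P → L) : Prop where
  d0 : ∀ i, d i ≠ 0
  dV : ∀ i, d i ∈ V
  gV : ∀ p, gs p ∈ V
  d1 : ∀ i < u, d i = 1
  dom : ∀ E : Subalgebra k L, E0 ⊆ E → (∀ p, gs p ∈ E) →
    Dom E (Matrix.diagonal fun i : Fin (Fintype.card ι) => dl d i) Φ
  mi : ∀ c ≤ Fintype.card ι, ∃ F G : Fin c → ι, (Φ.submatrix F G).det = DD d c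
  conv : ∀ Q : Subalgebra k L, (∀ i j, Φ i j ∈ Q) →
    (∀ c < Fintype.card ι, ∀ F G : Fin (c + 1) → ι,
      (Φ.submatrix F G).det / DD d (c + 1) ∈ Q) →
    (∀ i, d i ∈ Q) ∧ ∀ p, gs p ∈ Q

/-- Matrices in block form. -/
theorem block_chart {U S : Type} [Fintype U] [DecidableEq U] [Fintype S] [DecidableEq S]
    {ι : Type} [Fintype ι] [DecidableEq ι] (e1 e2 : U ⊕ S ≃ ι) (Φ : Matrix ι ι L)
    (K : Matrix U S L) (W : Matrix S S L)
    (hΦ : Φ.submatrix e1 e2 = Matrix.fromBlocks 1 K 0 W) (V : ValuationSubring L)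
    (hW : ∀ i j, W i j ∈ V) (hdet : W.det ≠ 0) :
    ∃ (d : ℕ → L) (P : Type) (_ : Fintype P) (gs : P → L),
      Fintype.card P + Fintype.card S = Fintype.card S * Fintype.card S ∧
      (∀ i, Fintype.card ι ≤ i → d i = 1) ∧
      Ch (k := k) Φ V {a | ∃ i j, a = K i j} d (Fintype.card U) P gs := by
  classical
  have hcard : Fintype.card ι = Fintype.card U + Fintype.card S := by
    rw [← Fintype.card_congr e1, Fintype.card_sum]
  let es := Fintype.equivFin S
  let eu := Fintype.equivFin U
  obtain ⟨d, P, hP, gs, h, hd1⟩ := piv (k := k) V (Fintype.card S) (W.submatrix es.symm es.symm)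
    (fun i j => hW _ _) (by rw [Matrix.det_submatrix_equiv_self]; exact hdet)
  refine ⟨shf (Fintype.card U) d, P, hP, gs, h.card, ?_, ?_⟩
  · intro i hi
    obtain ⟨j, rfl⟩ : ∃ j, i = Fintype.card U + j := ⟨i - Fintype.card U, by omega⟩
    rw [shf_add]
    exact hd1 j (by omega)
  have hblk : Φ = (Matrix.fromBlocks 1 K 0 W).submatrix e1.symm e2.symm := by
    rw [← hΦ]
    ext i j
    simp only [Matrix.submatrix_apply, Equiv.apply_symm_apply]
  have hall : ∀ i, shf (Fintype.card U) d i ≠ 0 ∧ shf (Fintype.card U) d i ∈ V := by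
    intro i
    unfold shf
    split_ifs
    · exact ⟨one_ne_zero, V.one_mem⟩
    · exact ⟨h.d0 _, h.dV _⟩
  -- the minors of the block
  have hmin : ∀ (c : ℕ) (F G : Fin c → Fin (Fintype.card S)),
      ∃ F' G' : Fin (Fintype.card U + c) → ι, (Φ.submatrix F' G').det =
        ((W.submatrix es.symm es.symm).submatrix F G).det := by
    intro c F G
    let o : Fin (Fintype.card U + c) ≃ Fin (Fintype.card U) ⊕ Fin c := finSumFinEquiv.symm
    refine ⟨fun i => e1 (Sum.map eu.symm (es.symm ∘ F) (o i)),
      fun i => e2 (Sum.map eu.symm (es.symm ∘ G) (o i)), ?_⟩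
    have h1 : (Φ.submatrix (fun i => e1 (Sum.map eu.symm (es.symm ∘ F) (o i)))
        fun i => e2 (Sum.map eu.symm (es.symm ∘ G) (o i))) =
        (Matrix.fromBlocks 1 (K.submatrix eu.symm (es.symm ∘ G)) 0
          ((W.submatrix es.symm es.symm).submatrix F G) :
            Matrix (Fin (Fintype.card U) ⊕ Fin c) (Fin (Fintype.card U) ⊕ Fin c) L).submatrix
          o o := by
      ext i j
      rw [hblk]
      simp only [Matrix.submatrix_apply, Equiv.symm_apply_apply]
      rcases o i with a | a <;> rcases o j with b | b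
      · change (1 : Matrix U U L) (eu.symm a) (eu.symm b) = (1 : Matrix _ _ L) a b
        rw [Matrix.one_apply, Matrix.one_apply]
        simp only [EmbeddingLike.apply_eq_iff_eq]
      · rfl
      · rfl
      · rfl
    rw [h1, Matrix.det_submatrix_equiv_self, Matrix.det_fromBlocks_zero₂₁, Matrix.det_one, one_mul]
  refine
    { d0 := fun i => (hall i).1
      dV := fun i => (hall i).2
      gV := h.gV
      d1 := fun i hi => shf_lt d hi
      dom := ?_
      mi := ?_
      conv := ?_ }
  · intro E hE hgs
    obtain ⟨A, B, hA, hB, h1⟩ := h.dec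
    have hle : Algebra.adjoin k (Set.range gs) ≤ E := by
      rw [Algebra.adjoin_le_iff]
      rintro _ ⟨p, rfl⟩
      exact hgs p
    -- the first reindexing
    let e0 : U ⊕ Fin (Fintype.card S) → Fin (Fintype.card ι) := Sum.elim
      (fun p => ⟨eu p, by have := (eu p).2; omega⟩)
      (fun i => ⟨Fintype.card U + i, by have := i.2; omega⟩)
    have he0 : Function.Injective e0 := by
      rintro (a | a) (b | b) hab
      · have h2 : ((eu a : ℕ)) = eu b := congrArg (fun t : Fin (Fintype.card ι) => (t : ℕ)) hab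
        exact congrArg _ (eu.injective (Fin.ext h2))
      · have h2 : ((eu a : ℕ)) = Fintype.card U + b := congrArg (fun t : Fin (Fintype.card ι) => (t : ℕ)) hab
        have := (eu a).2
        omega
      · have h2 : Fintype.card U + a = (eu b : ℕ) := congrArg (fun t : Fin (Fintype.card ι) => (t : ℕ)) hab
        have := (eu b).2
        omega
      · have h2 : Fintype.card U + a = Fintype.card U + (b : ℕ) := congrArg (fun t : Fin (Fintype.card ι) => (t : ℕ)) hab
        exact congrArg _ (Fin.ext (by omega))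
    have hDg : (Matrix.diagonal fun i : Fin (Fintype.card ι) =>
        dl (shf (Fintype.card U) d) i).submatrix e0 e0 =
        (Matrix.fromBlocks 1 0 0 (Matrix.diagonal fun i : Fin (Fintype.card S) => dl d i) :
          Matrix (U ⊕ Fin (Fintype.card S)) (U ⊕ Fin (Fintype.card S)) L) := by
      rw [Matrix.submatrix_diagonal _ _ he0]
      have h2 : (Matrix.fromBlocks 1 0 0
          (Matrix.diagonal fun i : Fin (Fintype.card S) => dl d i) :
          Matrix (U ⊕ Fin (Fintype.card S)) (U ⊕ Fin (Fintype.card S)) L) =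
          Matrix.diagonal (Sum.elim (fun _ : U => (1 : L))
            fun i : Fin (Fintype.card S) => dl d i) := by
        rw [← Matrix.fromBlocks_diagonal]
        congr 1
      rw [h2]
      congr 1
      funext a
      rcases a with a | a
      · exact dl_shf_lt d (eu a).2
      · exact dl_shf_add _ d a
    have h3 : Dom E (Matrix.diagonal fun i : Fin (Fintype.card ι) =>
        dl (shf (Fintype.card U) d) i)
        (Matrix.fromBlocks 1 0 0 (Matrix.diagonal fun i : Fin (Fintype.card S) => dl d i) :
          Matrix (U ⊕ Fin (Fintype.card S)) (U ⊕ Fin (Fintype.card S)) L) := by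
      rw [← hDg]
      exact dom_submatrix _ _ _
    have h4 : Dom E
        (Matrix.fromBlocks 1 0 0 (Matrix.diagonal fun i : Fin (Fintype.card S) => dl d i) :
          Matrix (U ⊕ Fin (Fintype.card S)) (U ⊕ Fin (Fintype.card S)) L)
        ((Matrix.fromBlocks 1 K 0 W : Matrix (U ⊕ S) (U ⊕ S) L)) := by
      refine ⟨(Matrix.fromBlocks 1 0 0 (A.submatrix es id) :
          Matrix (U ⊕ S) (U ⊕ Fin (Fintype.card S)) L),
        (Matrix.fromBlocks 1 K 0 (B.submatrix id es) :
          Matrix (U ⊕ Fin (Fintype.card S)) (U ⊕ S) L), ?_, ?_, ?_⟩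
      · rintro (a | a) (b | b)
        · exact ent_one a b
        · exact E.zero_mem
        · exact E.zero_mem
        · exact hle (hA _ _)
      · rintro (a | a) (b | b)
        · exact ent_one a b
        · exact hE ⟨a, b, rfl⟩
        · exact E.zero_mem
        · exact hle (hB _ _)
      · rw [Matrix.fromBlocks_multiply, Matrix.fromBlocks_multiply]
        simp only [Matrix.one_mul, Matrix.mul_one, Matrix.zero_mul, Matrix.mul_zero, add_zero,
          zero_add]
        congr 1
        have h5 : W = (W.submatrix es.symm es.symm).submatrix es es := by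
          ext i j
          simp only [Matrix.submatrix_apply, Equiv.symm_apply_apply]
        conv_lhs => rw [h5, h1]
        ext i j
        simp only [Matrix.submatrix_apply, Matrix.mul_apply]
        rfl
    have h5 : Dom E (Matrix.fromBlocks 1 K 0 W : Matrix (U ⊕ S) (U ⊕ S) L) Φ := by
      conv_rhs => rw [hblk]
      exact dom_submatrix _ _ _
    exact (h3.trans h4).trans h5
  · intro c hc
    rcases Nat.lt_or_ge (Fintype.card U) c with hcu | hcu
    · obtain ⟨c', rfl⟩ : ∃ c', c = Fintype.card U + c' := ⟨c - Fintype.card U, by omega⟩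
      obtain ⟨F, G, h1⟩ := h.mi c' (by omega)
      obtain ⟨F', G', h2⟩ := hmin c' F G
      exact ⟨F', G', by rw [h2, h1, DD_shf_add]⟩
    · let q : Fin c → U := fun i => eu.symm (Fin.castLE hcu i)
      refine ⟨fun i => e1 (Sum.inl (q i)), fun i => e2 (Sum.inl (q i)), ?_⟩
      rw [DD_shf_le d hcu]
      have h1 : (Φ.submatrix (fun i => e1 (Sum.inl (q i))) fun i => e2 (Sum.inl (q i))) = 1 := by
        ext i j
        rw [hblk]
        simp only [Matrix.submatrix_apply, Equiv.symm_apply_apply]
        change (1 : Matrix U U L) (q i) (q j) = _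
        rw [Matrix.one_apply, Matrix.one_apply]
        have h2 : q i = q j ↔ i = j := by
          constructor
          · intro h3
            exact Fin.castLE_injective hcu (eu.symm.injective h3)
          · rintro rfl
            rfl
        simp only [h2]
      rw [h1, Matrix.det_one]
  · intro Q hQ hQ'
    have a1 : ∀ i j, W.submatrix es.symm es.symm i j ∈ Q := by
      intro i j
      have h3 := hQ (e1 (Sum.inr (es.symm i))) (e2 (Sum.inr (es.symm j)))
      have h4 : Φ (e1 (Sum.inr (es.symm i))) (e2 (Sum.inr (es.symm j))) =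
          W (es.symm i) (es.symm j) := by
        rw [hblk]
        simp only [Matrix.submatrix_apply, Equiv.symm_apply_apply, Matrix.fromBlocks_apply₂₂]
      rwa [h4] at h3
    have a2 : ∀ c < Fintype.card S, ∀ F G : Fin (c + 1) → Fin (Fintype.card S),
        ((W.submatrix es.symm es.symm).submatrix F G).det / DD d (c + 1) ∈ Q := by
      intro c hc F G
      obtain ⟨F', G', h3⟩ := hmin (c + 1) F G
      have h4 := hQ' (Fintype.card U + c) (by omega) F' G'
      rw [← DD_shf_add (Fintype.card U), ← h3]
      exact h4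
    obtain ⟨h1, h2⟩ := h.conv Q a1 a2
    refine ⟨fun i => ?_, h2⟩
    unfold shf
    split_ifs
    · exact Q.one_mem
    · by_cases hi : i - Fintype.card U < Fintype.card S
      · exact h1 _ hi
      · rw [hd1 _ (by omega)]
        exact Q.one_mem

end ext

end Pool.Agent.R837.FS
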