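import Pool.Agent.R837.FS.Blk

/-!
The block form of the matrix of the Frobenius.
-/

set_option autoImplicit false
set_option linter.unusedSectionVars false

open Finset

universe u v w z

namespace Pool.Agent.R837.FS

open Pool.Agent.R837.FM

section frob

variable {F : Type v} [Field F] [Fintype F] {k : Type z} [Field k] {L : Type u} [Field L]
  [Algebra F L] [Algebra k L] {s : ℕ} {ι : Type} [Fintype ι] [DecidableEq ι]
  {y : ι → Fin s → L} {d : Fin s → ℕ}

/-- The columns of the identity. -/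
abbrev UU (d : Fin s → ℕ) : Type := {p : Idx d // (p.2 : ℕ) + 1 < d p.1}

/-- The blocks which are not empty. -/
abbrev SS (d : Fin s → ℕ) : Type := {l : Fin s // 0 < d l}

/-- The columns. -/
def colf (d : Fin s → ℕ) : UU d ⊕ SS d → Idx d :=
  Sum.elim (fun p => p.1) fun l => ⟨l.1, ⟨d l.1 - 1, by have := l.2; omega⟩⟩

/-- The rows. -/
def rowf (d : Fin s → ℕ) : UU d ⊕ SS d → Idx d :=
  Sum.elim (fun p => ⟨p.1.1, ⟨p.1.2 + 1, p.2⟩⟩) fun l => ⟨l.1, ⟨0, l.2⟩⟩

lemma idx_ext {p p' : Idx d} (h : p.1 = p'.1) (h' : (p.2 : ℕ) = p'.2) : p = p' := by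
  obtain ⟨l, j⟩ := p
  obtain ⟨l', j'⟩ := p'
  obtain rfl : l = l' := h
  obtain rfl : j = j' := Fin.ext h'
  rfl

lemma colf_bij (d : Fin s → ℕ) : Function.Bijective (colf d) := by
  constructor
  · rintro (⟨p, hp⟩ | ⟨l, hl⟩) (⟨p', hp'⟩ | ⟨l', hl'⟩) h
    · exact congrArg _ (Subtype.ext h)
    · exfalso
      have h1 : p.1 = l' := congrArg (fun p : Idx d => p.1) h
      have h2 : (p.2 : ℕ) = d l' - 1 := congrArg (fun p : Idx d => (p.2 : ℕ)) h
      have h3 : d p.1 = d l' := congrArg d h1
      omega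
    · exfalso
      have h1 : l = p'.1 := congrArg (fun p : Idx d => p.1) h
      have h2 : d l - 1 = (p'.2 : ℕ) := congrArg (fun p : Idx d => (p.2 : ℕ)) h
      have h3 : d l = d p'.1 := congrArg d h1
      omega
    · have h1 : l = l' := congrArg (fun p : Idx d => p.1) h
      subst h1
      rfl
  · rintro ⟨l, j, hj⟩
    by_cases h : j + 1 < d l
    · exact ⟨Sum.inl ⟨⟨l, ⟨j, hj⟩⟩, h⟩, rfl⟩
    · refine ⟨Sum.inr ⟨l, by omega⟩, ?_⟩
      refine idx_ext rfl ?_
      change d l - 1 = j
      omega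

lemma rowf_bij (d : Fin s → ℕ) : Function.Bijective (rowf d) := by
  constructor
  · rintro (⟨p, hp⟩ | ⟨l, hl⟩) (⟨p', hp'⟩ | ⟨l', hl'⟩) h
    · have h0 : (⟨p.1, ⟨p.2 + 1, hp⟩⟩ : Idx d) = ⟨p'.1, ⟨p'.2 + 1, hp'⟩⟩ := h
      have h1 := congrArg (fun p : Idx d => p.1) h0
      have h2 := congrArg (fun p : Idx d => (p.2 : ℕ)) h0
      change p.1 = p'.1 at h1
      change (p.2 : ℕ) + 1 = p'.2 + 1 at h2
      have h3 : p = p' := idx_ext h1 (by omega)
      subst h3
      rfl
    · exfalso
      have h2 : (p.2 : ℕ) + 1 = 0 := congrArg (fun p : Idx d => (p.2 : ℕ)) h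
      omega
    · exfalso
      have h2 : 0 = (p'.2 : ℕ) + 1 := congrArg (fun p : Idx d => (p.2 : ℕ)) h
      omega
    · have h1 : l = l' := congrArg (fun p : Idx d => p.1) h
      subst h1
      rfl
  · rintro ⟨l, j, hj⟩
    rcases j with _ | j
    · exact ⟨Sum.inr ⟨l, hj⟩, rfl⟩
    · exact ⟨Sum.inl ⟨⟨l, ⟨j, by omega⟩⟩, hj⟩, rfl⟩

/-- The block form. -/
lemma Ph_block (h : Good F y d) :
    (Ph h).submatrix ((Equiv.ofBijective _ (rowf_bij d)).trans h.e.symm)
      ((Equiv.ofBijective _ (colf_bij d)).trans h.e.symm) =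
      Matrix.fromBlocks 1 (Matrix.of fun (p : UU d) (l : SS d) => h.c l.1 (rowf d (Sum.inl p))) 0
        (Matrix.of fun (l' l : SS d) => h.c l.1 (rowf d (Sum.inr l'))) := by
  have h1 : (Ph h).submatrix ((Equiv.ofBijective _ (rowf_bij d)).trans h.e.symm)
      ((Equiv.ofBijective _ (colf_bij d)).trans h.e.symm) =
      (Pi0 h.c).submatrix (rowf d) (colf d) := by
    ext i j
    change Pi0 h.c (h.e (h.e.symm (rowf d i))) (h.e (h.e.symm (colf d j))) = _
    rw [Equiv.apply_symm_apply, Equiv.apply_symm_apply]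
    rfl
  rw [h1]
  ext a b
  rcases b with b | b
  · have h2 : ∀ p, Pi0 h.c p (colf d (Sum.inl b)) =
        if p = rowf d (Sum.inl b) then 1 else 0 := by
      intro p
      change (if h : (b.1.2 : ℕ) + 1 < d b.1.1 then _ else _) = _
      rw [dif_pos b.2]
      rfl
    rw [Matrix.submatrix_apply, h2]
    rcases a with a | a
    · change _ = (1 : Matrix (UU d) (UU d) L) a b
      rw [Matrix.one_apply]
      have h3 : rowf d (Sum.inl a) = rowf d (Sum.inl b) ↔ a = b := by
        constructor
        · intro h4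
          exact Sum.inl_injective ((rowf_bij d).1 h4)
        · rintro rfl
          rfl
      simp only [h3]
    · have h3 : rowf d (Sum.inr a) ≠ rowf d (Sum.inl b) := by
        intro h4
        exact Sum.inr_ne_inl ((rowf_bij d).1 h4)
      rw [if_neg h3]
      rfl
  · have h2 : ∀ p, Pi0 h.c p (colf d (Sum.inr b)) = h.c b.1 p := by
      intro p
      change (if h : (d b.1 - 1) + 1 < d b.1 then _ else _) = _
      rw [dif_neg (by have := b.2; omega)]
      rfl
    rw [Matrix.submatrix_apply, h2]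
    rcases a with a | a
    · rfl
    · rfl

/-- The coordinates outside of the block. -/
abbrev VV (d : Fin s → ℕ) : Type := {q : Fin s × Idx d // ¬ (0 < d q.1 ∧ (q.2.2 : ℕ) = 0)}

lemma card_VV (d : Fin s → ℕ) : Fintype.card (VV d) + Fintype.card (SS d) * Fintype.card (SS d) =
    s * Fintype.card (Idx d) := by
  classical
  have h1 := Fintype.card_subtype_compl
    (fun q : Fin s × Idx d => 0 < d q.1 ∧ (q.2.2 : ℕ) = 0)
  have h2 : Fintype.card {q : Fin s × Idx d // 0 < d q.1 ∧ (q.2.2 : ℕ) = 0} =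
      Fintype.card (SS d × SS d) := by
    refine Fintype.card_congr
      { toFun := fun q => (⟨q.1.1, q.2.1⟩, ⟨q.1.2.1, by have := q.1.2.2.2; omega⟩)
        invFun := fun p => ⟨(p.1.1, ⟨p.2.1, ⟨0, p.2.2⟩⟩), p.1.2, rfl⟩
        left_inv := ?_
        right_inv := fun _ => rfl }
    rintro ⟨⟨l, p⟩, h1, h2⟩
    refine Subtype.ext (Prod.ext rfl ?_)
    exact idx_ext rfl h2.symm
  have h3 := Fintype.card_subtype_le
    (fun q : Fin s × Idx d => 0 < d q.1 ∧ (q.2.2 : ℕ) = 0)
  rw [Fintype.card_prod] at h2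
  rw [Fintype.card_prod, Fintype.card_fin] at h1 h3
  have h4 : Fintype.card (VV d) = s * Fintype.card (Idx d) -
      Fintype.card {q : Fin s × Idx d // 0 < d q.1 ∧ (q.2.2 : ℕ) = 0} := h1
  rw [h4, ← h2]
  omega

lemma card_US (h : Good F y d) : Fintype.card (UU d) + Fintype.card (SS d) = Fintype.card ι := by
  rw [← Fintype.card_sum, h.card]
  exact Fintype.card_congr (Equiv.ofBijective _ (colf_bij d))

lemma card_S_pos (h : Good F y d) (hι : 0 < Fintype.card ι) : 0 < Fintype.card (SS d) := by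
  rw [h.card, Fintype.card_pos_iff] at hι
  obtain ⟨p⟩ := hι
  rw [Fintype.card_pos_iff]
  exact ⟨⟨p.1, by have := p.2.2; omega⟩⟩

end frob

section lem

variable {L : Type u} [Field L]

/-- The coordinates of the divisors. -/
noncomputable def yD (D : ℕ → L) (j : ℕ) : L := D (j + 1) * D (j - 1) / D j ^ 2

lemma yD_DD {d : ℕ → L} (hd : ∀ i, d i ≠ 0) (j : ℕ) : yD (DD d) j = d j := by
  unfold yD
  rcases j with _ | j
  · change DD d 1 * DD d 0 / DD d 0 ^ 2 = _
    rw [DD_zero, DD_one]
    simp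
  · have h1 := DD_ne hd j
    have h2 := dl_ne hd j
    rw [Nat.add_sub_cancel, DD_succ d (j + 1), DD_succ d j, dl_succ]
    field_simp

lemma yD_congr {D D' : ℕ → L} {n : ℕ} (h : ∀ c ≤ n, D c = D' c) {j : ℕ} (hj : j < n) :
    yD D j = yD D' j := by
  unfold yD
  rw [h _ (by omega), h _ (by omega), h _ (by omega)]

lemma DD_yD {D : ℕ → L} (hD : ∀ i, D i ≠ 0) (hD0 : D 0 = 1) (n : ℕ) : DD (yD D) n = D n := by
  have h1 : ∀ j, dl (yD D) j = D (j + 1) / D j := by
    intro j
    induction j with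
    | zero =>
      rw [dl_zero]
      unfold yD
      change D 1 * D 0 / D 0 ^ 2 = _
      rw [hD0]
      simp
    | succ j ih =>
      rw [dl_succ, ih]
      unfold yD
      rw [Nat.add_sub_cancel]
      have := hD (j + 1)
      have := hD j
      field_simp
  induction n with
  | zero => rw [DD_zero, hD0]
  | succ n ih =>
    rw [DD_succ, ih, h1]
    have := hD n
    field_simp

/-- The minors of maximal size. -/
lemma det_full {ι : Type} [Fintype ι] [DecidableEq ι] (M : Matrix ι ι L) {c : ℕ}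
    (hc : c = Fintype.card ι) (F G : Fin c → ι) (h : (M.submatrix F G).det ≠ 0) :
    (M.submatrix F G).det = M.det ∨ (M.submatrix F G).det = -M.det := by
  classical
  have hF : Function.Injective F := by
    by_contra hF
    obtain ⟨i, i', hii, hne⟩ : ∃ i i', F i = F i' ∧ i ≠ i' := by
      unfold Function.Injective at hF
      push Not at hF
      exact hF
    apply h
    rw [Matrix.det_zero_of_row_eq hne (by
      funext l
      rw [Matrix.submatrix_apply, Matrix.submatrix_apply, hii])]
  have hG : Function.Injective G := by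
    by_contra hG
    obtain ⟨i, i', hii, hne⟩ : ∃ i i', G i = G i' ∧ i ≠ i' := by
      unfold Function.Injective at hG
      push Not at hG
      exact hG
    apply h
    rw [Matrix.det_zero_of_column_eq hne (by
      intro l
      rw [Matrix.submatrix_apply, Matrix.submatrix_apply, hii])]
  have hFb : Function.Bijective F := by
    rw [Fintype.bijective_iff_injective_and_card]
    exact ⟨hF, by rw [Fintype.card_fin, hc]⟩
  have hGb : Function.Bijective G := by
    rw [Fintype.bijective_iff_injective_and_card]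
    exact ⟨hG, by rw [Fintype.card_fin, hc]⟩
  let eF := Equiv.ofBijective F hFb
  let eG := Equiv.ofBijective G hGb
  let σ : Equiv.Perm ι := eF.symm.trans eG
  have h1 : M.submatrix F G = (M.submatrix id σ).submatrix eF eF := by
    ext i j
    change M (F i) (G j) = M (F i) (eG (eF.symm (eF j)))
    rw [Equiv.symm_apply_apply]
    rfl
  rw [h1, Matrix.det_submatrix_equiv_self, Matrix.det_permute']
  rcases Int.units_eq_one_or (Equiv.Perm.sign σ) with h2 | h2
  · left
    rw [h2]
    simp
  · right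
    rw [h2]
    simp

end lem

end Pool.Agent.R837.FS
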