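import Pool.Agent.R837.FM.Glue
import Pool.Agent.Y177.Dg.Res

/-!
Free groups of degrees, charts of Kummer coverings.
-/

set_option autoImplicit false
set_option linter.unusedSectionVars false

open AlgebraicGeometry CategoryTheory

universe u v w

namespace Pool.Agent.R837.FS

open Pool.Agent.R837.FM Pool.Agent.W559.Mg Pool.Agent.Y177.Dg

section grp

/-- The free groups of degrees. -/
lemma exists_free (n : ℕ) :
    ∃ (G : Type) (_ : AddCommGroup G) (_ : G ≃+ (Fin n → ℤ)), NR.{u} G := by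
  induction n with
  | zero =>
    refine ⟨Unit, inferInstance,
      { toFun := fun _ => 0
        invFun := fun _ => ()
        left_inv := fun _ => rfl
        right_inv := fun f => funext fun i => i.elim0
        map_add' := fun _ _ => funext fun i => i.elim0 }, nr_unit⟩
  | succ n ih =>
    obtain ⟨G, _, c, hG⟩ := ih
    refine ⟨ℤ × G, inferInstance,
      { toFun := fun p => Fin.cons p.1 (c p.2)
        invFun := fun f => (f 0, c.symm fun i => f i.succ)
        left_inv := fun p => ?_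
        right_inv := fun f => ?_
        map_add' := fun p q => ?_ }, nr_prod hG⟩
    · simp
    · funext i
      refine Fin.cases ?_ (fun i => ?_) i
      · rfl
      · change c (c.symm fun i => f i.succ) i = f i.succ
        rw [AddEquiv.apply_symm_apply]
    · funext i
      refine Fin.cases ?_ (fun i => ?_) i
      · rfl
      · change c (p.2 + q.2) i = c p.2 i + c q.2 i
        rw [map_add]
        rfl

end grp

section basis

variable {n : ℕ} {G : Type} [AddCommGroup G] (c : G ≃+ (Fin n → ℤ))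

/-- The basis. -/
def bb (j : Fin n) : G := c.symm (Pi.single j 1)

lemma c_bb (j : Fin n) : c (bb c j) = Pi.single j 1 := c.apply_symm_apply _

lemma sum_bb (m : G) : m = ∑ j, c m j • bb c j := by
  apply c.injective
  rw [map_sum]
  funext i
  rw [Finset.sum_apply, Finset.sum_eq_single i]
  · rw [map_zsmul, c_bb, Pi.smul_apply, Pi.single_eq_same, smul_eq_mul, mul_one]
  · intro j _ hj
    rw [map_zsmul, c_bb, Pi.smul_apply, Pi.single_eq_of_ne (Ne.symm hj), smul_zero]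
  · intro h
    exact absurd (Finset.mem_univ _) h

/-- The weights. -/
def aw : G := ∑ j : Fin n, (n - j : ℕ) • bb c j

lemma c_aw (j : Fin n) : c (aw c) j = (n - j : ℕ) := by
  unfold aw
  rw [map_sum, Finset.sum_apply, Finset.sum_eq_single j]
  · rw [map_nsmul, c_bb, Pi.smul_apply, Pi.single_eq_same, nsmul_eq_mul, mul_one]
  · intro i _ hi
    rw [map_nsmul, c_bb, Pi.smul_apply, Pi.single_eq_of_ne (Ne.symm hi), smul_zero]
  · intro h
    exact absurd (Finset.mem_univ _) h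

variable {L : Type u} [Field L] (y : Fin n → L)

/-- The monomial. -/
noncomputable def yy (m : G) : L := ∏ j, y j ^ (c m j)

variable {y}

lemma yy_ne (hy : ∀ j, y j ≠ 0) (m : G) : yy c y m ≠ 0 :=
  Finset.prod_ne_zero_iff.2 fun j _ => zpow_ne_zero _ (hy j)

lemma yy_add (hy : ∀ j, y j ≠ 0) (m m' : G) : yy c y (m + m') = yy c y m * yy c y m' := by
  unfold yy
  rw [← Finset.prod_mul_distrib]
  refine Finset.prod_congr rfl fun j _ => ?_
  rw [map_add, Pi.add_apply, zpow_add₀ (hy j)]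

lemma yy_bb (j : Fin n) : yy c y (bb c j) = y j := by
  unfold yy
  rw [Finset.prod_eq_single j]
  · rw [c_bb, Pi.single_eq_same, zpow_one]
  · intro i _ hi
    rw [c_bb, Pi.single_eq_of_ne hi, zpow_zero]
  · intro h
    exact absurd (Finset.mem_univ _) h

lemma yy_aw : yy c y (aw c) = ∏ j : Fin n, y j ^ (n - j : ℕ) := by
  unfold yy
  refine Finset.prod_congr rfl fun j _ => ?_
  rw [c_aw, zpow_natCast]

lemma yy_nsmul (N : ℕ) (m : G) : yy c y (N • m) = yy c y m ^ N := by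
  unfold yy
  rw [← Finset.prod_pow]
  refine Finset.prod_congr rfl fun j _ => ?_
  rw [map_nsmul, Pi.smul_apply, nsmul_eq_mul, ← zpow_natCast (y j ^ (c m j)), ← zpow_mul,
    mul_comm]

end basis

section kc

variable {k L : Type u} [Field k] [Field L] [Algebra k L] {n : ℕ} {G : Type} [AddCommGroup G]
  (c : G ≃+ (Fin n → ℤ)) (N : ℕ) (C : Subalgebra k L) (y : Fin n → L) (z : L)

/-- The generators of the graded chart. -/
def GS : Set (ML L G) :=
  {f | ∃ x ∈ C, f = mo 0 x} ∪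
  ({f | ∃ j, f = mo (bb c j) 1 ∨ f = mo (N • bb c j) (y j)⁻¹ ∨ f = mo (-(N • bb c j)) (y j)} ∪
    {mo (aw c) z⁻¹, mo (-aw c) z})

/-- The graded chart. -/
noncomputable def KC : Subalgebra k (ML L G) := Algebra.adjoin k (GS c N C y z)

variable {C y z} {c N}

lemma mo_mem_KC {x : L} (hx : x ∈ C) : mo 0 x ∈ KC c N C y z :=
  Algebra.subset_adjoin (Or.inl ⟨x, hx, rfl⟩)

lemma bb_mem_KC (j : Fin n) : mo (bb c j) 1 ∈ KC c N C y z :=
  Algebra.subset_adjoin (Or.inr (Or.inl ⟨j, Or.inl rfl⟩))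

lemma y_mem_KC (j : Fin n) : mo (N • bb c j) (y j)⁻¹ ∈ KC c N C y z :=
  Algebra.subset_adjoin (Or.inr (Or.inl ⟨j, Or.inr (Or.inl rfl)⟩))

lemma y_mem_KC' (j : Fin n) : mo (-(N • bb c j)) (y j) ∈ KC c N C y z :=
  Algebra.subset_adjoin (Or.inr (Or.inl ⟨j, Or.inr (Or.inr rfl)⟩))

lemma z_mem_KC : mo (aw c) z⁻¹ ∈ KC c N C y z :=
  Algebra.subset_adjoin (Or.inr (Or.inr (Or.inl rfl)))

lemma z_mem_KC' : mo (-aw c) z ∈ KC c N C y z :=
  Algebra.subset_adjoin (Or.inr (Or.inr (Or.inr rfl)))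

lemma KC_le {Q : Subalgebra k (ML L G)} (h1 : ∀ x ∈ C, mo 0 x ∈ Q)
    (h2 : ∀ j, mo (bb c j) 1 ∈ Q) (h3 : ∀ j, mo (N • bb c j) (y j)⁻¹ ∈ Q)
    (h4 : ∀ j, mo (-(N • bb c j)) (y j) ∈ Q) (h5 : mo (aw c) z⁻¹ ∈ Q) (h6 : mo (-aw c) z ∈ Q) :
    KC c N C y z ≤ Q := by
  refine Algebra.adjoin_le_iff.2 ?_
  rintro f (⟨x, hx, rfl⟩ | ⟨j, rfl | rfl | rfl⟩ | rfl | rfl)
  · exact h1 x hx
  · exact h2 j
  · exact h3 j
  · exact h4 j
  · exact h5
  · exact h6

lemma gr_KC : Pool.Agent.W559.Mg.Gr (KC c N C y z) := by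
  refine gr_adjoin _ ?_
  rintro f (⟨x, hx, rfl⟩ | ⟨j, rfl | rfl | rfl⟩ | rfl | rfl)
  all_goals exact ⟨_, _, rfl⟩

/-- Elements with coefficients in a subalgebra. -/
def cf (G : Type) [AddCommGroup G] (D : Subalgebra k L) : Subalgebra k (ML L G) where
  carrier := {f | ∀ m, f.coeff m ∈ D}
  mul_mem' := by
    intro f g hf hg m
    rw [coeff_mul_sum]
    exact D.sum_mem fun a _ => D.mul_mem (hf a) (hg _)
  add_mem' := by
    intro f g hf hg m
    rw [coeff_add']
    exact D.add_mem (hf m) (hg m)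
  algebraMap_mem' := by
    classical
    intro r m
    rw [algebraMap_ML, coeff_mo]
    split_ifs
    · exact D.algebraMap_mem r
    · exact D.zero_mem

lemma mo_mem_cf {D : Subalgebra k L} {m : G} {a : L} (ha : a ∈ D) : mo m a ∈ cf G D := by
  classical
  intro m'
  rw [coeff_mo]
  split_ifs
  · exact ha
  · exact D.zero_mem

/-- The part of degree zero. -/
lemma KC_zero {D : Subalgebra k L} (hC : C ≤ D) (hy : ∀ j, y j ∈ C) (hz : z ∈ C)
    (hy' : ∀ j, (y j)⁻¹ ∈ D) (hz' : z⁻¹ ∈ D) {x : L} (hx : mo 0 x ∈ KC c N C y z) : x ∈ D := by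
  have h1 : KC c N C y z ≤ cf G D := KC_le (fun x hx => mo_mem_cf (hC hx))
    (fun j => mo_mem_cf D.one_mem) (fun j => mo_mem_cf (hy' j))
    (fun j => mo_mem_cf (hC (hy j))) (mo_mem_cf hz') (mo_mem_cf (hC hz))
  have h2 := h1 hx 0
  rwa [coeff_mo_same] at h2

/-- Units of the graded chart. -/
lemma un_KC (hy : ∀ j, y j ≠ 0) (m : G) : mo (N • m) (yy c y m)⁻¹ ∈ KC c N C y z ∧
    mo (-(N • m)) (yy c y m) ∈ KC c N C y z := by
  let S : AddSubgroup G :=
    { carrier := {m | mo (N • m) (yy c y m)⁻¹ ∈ KC c N C y z ∧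
        mo (-(N • m)) (yy c y m) ∈ KC c N C y z}
      add_mem' := by
        rintro a b ⟨h1, h2⟩ ⟨h3, h4⟩
        have h5 := (KC c N C y z).mul_mem h1 h3
        have h6 := (KC c N C y z).mul_mem h2 h4
        rw [mo_mul, ← smul_add, ← mul_inv, ← yy_add c hy] at h5
        rw [mo_mul, ← neg_add, ← smul_add, ← yy_add c hy] at h6
        exact ⟨h5, h6⟩
      zero_mem' := by
        have h1 : yy c y 0 = 1 := by
          unfold yy
          refine Finset.prod_eq_one fun j _ => ?_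
          rw [map_zero, Pi.zero_apply, zpow_zero]
        change mo (N • (0 : G)) (yy c y 0)⁻¹ ∈ _ ∧ mo (-(N • (0 : G))) (yy c y 0) ∈ _
        rw [h1, smul_zero, neg_zero, inv_one, mo_one]
        exact ⟨Subalgebra.one_mem _, Subalgebra.one_mem _⟩
      neg_mem' := by
        rintro a ⟨h1, h2⟩
        have h3 : yy c y (-a) = (yy c y a)⁻¹ := by
          unfold yy
          rw [← Finset.prod_inv_distrib]
          refine Finset.prod_congr rfl fun j _ => ?_
          rw [map_neg, Pi.neg_apply, zpow_neg]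
        change mo (N • -a) (yy c y (-a))⁻¹ ∈ _ ∧ mo (-(N • -a)) (yy c y (-a)) ∈ _
        rw [h3, inv_inv, smul_neg, neg_neg]
        exact ⟨h2, h1⟩ }
  change m ∈ S
  rw [sum_bb c m]
  refine AddSubgroup.sum_mem _ fun j _ => AddSubgroup.zsmul_mem _ ?_ _
  change mo (N • bb c j) (yy c y (bb c j))⁻¹ ∈ _ ∧ mo (-(N • bb c j)) (yy c y (bb c j)) ∈ _
  rw [yy_bb]
  exact ⟨y_mem_KC j, y_mem_KC' j⟩

lemma gen_KC : AddSubgroup.closure {m : G | ∃ a : L, a ≠ 0 ∧ mo m a ∈ KC c N C y z} = ⊤ := by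
  rw [eq_top_iff]
  intro m _
  rw [sum_bb c m]
  refine AddSubgroup.sum_mem _ fun j _ => AddSubgroup.zsmul_mem _ ?_ _
  exact AddSubgroup.subset_closure ⟨1, one_ne_zero, bb_mem_KC j⟩

/-- The valuative criterion. -/
lemma nrm_KC (hN : 0 < N) (hy0 : ∀ j, y j ≠ 0) (hyC : ∀ j, y j ∈ C)
    {ε : k} (hε : ε ≠ 0) (hz : z ^ N = algebraMap k L ε * ∏ j : Fin n, y j ^ (n - j : ℕ))
    (V : ValuationSubring L) (hV : ∀ x ∈ C, x ∈ V) :
    Nrm V N (fun m => V.valuation (yy c y m)⁻¹) (KC c N C y z) := by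
  have hk : ∀ r : k, algebraMap k L r ∈ V := fun r => hV _ (C.algebraMap_mem r)
  have hε1 : V.valuation (algebraMap k L ε) = 1 := by
    have h1 := (V.valuation_le_one_iff _).2 (hk ε)
    have h2 := (V.valuation_le_one_iff _).2 (hk ε⁻¹)
    rw [map_inv₀, map_inv₀] at h2
    have h3 : V.valuation (algebraMap k L ε) ≠ 0 := by
      rw [Valuation.ne_zero_iff]
      exact (map_ne_zero _).2 hε
    refine le_antisymm h1 ?_
    exact (inv_le_one₀ (zero_lt_iff.2 h3)).1 h2
  refine nrm_adjoin hN (fun m => ?_) (fun m m' => ?_) hk _ ?_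
  · rw [Valuation.ne_zero_iff]
    exact inv_ne_zero (yy_ne c hy0 m)
  · rw [yy_add c hy0, mul_inv, map_mul]
  · have hy1 : ∀ j, 1 ≤ V.valuation (y j)⁻¹ := by
      intro j
      have h1 := (V.valuation_le_one_iff _).2 (hV _ (hyC j))
      have h3 : V.valuation (y j) ≠ 0 := by
        rw [Valuation.ne_zero_iff]
        exact hy0 j
      rw [map_inv₀]
      exact (one_le_inv₀ (zero_lt_iff.2 h3)).2 h1
    have hneg : ∀ m, yy c y (-m) = (yy c y m)⁻¹ := by
      intro m
      unfold yy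
      rw [← Finset.prod_inv_distrib]
      refine Finset.prod_congr rfl fun j _ => ?_
      rw [map_neg, Pi.neg_apply, zpow_neg]
    have hzz : V.valuation z ^ N = V.valuation (yy c y (aw c)) := by
      rw [← map_pow, hz, map_mul, hε1, one_mul, yy_aw]
    rintro f (⟨x, hx, rfl⟩ | ⟨j, rfl | rfl | rfl⟩ | rfl | rfl)
    · refine nrm_mo hN ?_
      have h1 : yy c y 0 = 1 := by
        unfold yy
        refine Finset.prod_eq_one fun j _ => ?_
        rw [map_zero, Pi.zero_apply, zpow_zero]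
      rw [h1, inv_one, map_one]
      exact pow_le_one' ((V.valuation_le_one_iff _).2 (hV x hx)) _
    · refine nrm_mo hN ?_
      rw [map_one, one_pow, yy_bb]
      exact hy1 j
    · refine nrm_mo hN ?_
      rw [yy_nsmul, yy_bb, ← map_pow, inv_pow]
    · refine nrm_mo hN ?_
      rw [hneg, yy_nsmul, yy_bb, ← map_pow, inv_inv]
    · refine nrm_mo hN ?_
      rw [map_inv₀, map_inv₀, inv_pow, hzz]
    · refine nrm_mo hN ?_
      rw [hneg, inv_inv, hzz]

/-- Gluing. -/
lemma gl_KC {C' : Subalgebra k L} {y' : Fin n → L} {z' : L} {h : L} (hh : h ∈ C)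
    (hh0 : h ≠ 0) (hCC : C' ≤ Loc C h) (hy0 : ∀ j, y j ≠ 0)
    (hz0 : z ≠ 0) (hz0' : z' ≠ 0)
    (h1 : ∀ j, y' j / y j ∈ Loc C h) (h2 : ∀ j, y j / y' j ∈ Loc C h) (h3 : z' / z ∈ Loc C h)
    (h4 : z / z' ∈ Loc C h) :
    KC c N C' y' z' ≤ lc (KC c N C y z) (mo 0 h) (mo_mem_KC hh) := by
  have key : ∀ x ∈ Loc C h, mo 0 x ∈ lc (KC c N C y z) (mo 0 h) (mo_mem_KC hh) := by
    intro x hx
    obtain ⟨i, hi⟩ := exists_pow_mul hh hh0 hx
    refine ⟨i, ?_⟩
    rw [mo_pow, mo_mul, smul_zero, zero_add]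
    exact mo_mem_KC hi
  refine KC_le (fun x hx => key x (hCC hx)) (fun j => le_lc _ _ _ (bb_mem_KC j)) (fun j => ?_)
    (fun j => ?_) ?_ ?_
  · have h5 : mo (N • bb c j) (y' j)⁻¹ = mo 0 (y j / y' j) * mo (N • bb c j) (y j)⁻¹ := by
      rw [mo_mul, zero_add]
      congr 1
      have := hy0 j
      field_simp
    rw [h5]
    exact Subalgebra.mul_mem _ (key _ (h2 j)) (le_lc _ _ _ (y_mem_KC j))
  · have h5 : mo (-(N • bb c j)) (y' j) = mo 0 (y' j / y j) * mo (-(N • bb c j)) (y j) := by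
      rw [mo_mul, zero_add]
      congr 1
      have := hy0 j
      field_simp
    rw [h5]
    exact Subalgebra.mul_mem _ (key _ (h1 j)) (le_lc _ _ _ (y_mem_KC' j))
  · have h5 : mo (aw c) z'⁻¹ = mo 0 (z / z') * mo (aw c) z⁻¹ := by
      rw [mo_mul, zero_add]
      congr 1
      field_simp
    rw [h5]
    exact Subalgebra.mul_mem _ (key _ h4) (le_lc _ _ _ z_mem_KC)
  · have h5 : mo (-aw c) z' = mo 0 (z' / z) * mo (-aw c) z := by
      rw [mo_mul, zero_add]
      congr 1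
      field_simp
    rw [h5]
    exact Subalgebra.mul_mem _ (key _ h3) (le_lc _ _ _ z_mem_KC')

end kc

end Pool.Agent.R837.FS
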