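import Pool.Agent.R837.FS.Kum1

/-!
The charts of Kummer coverings are smooth.
-/

set_option autoImplicit false
set_option linter.unusedSectionVars false

open AlgebraicGeometry CategoryTheory

universe u v w

namespace Pool.Agent.R837.FS

open Pool.Agent.R837.FM Pool.Agent.W559.Mg Pool.Agent.Y177.Dg

section units

variable {k L : Type u} [Field k] [Field L] [Algebra k L] {G : Type} [AddCommGroup G]

/-- The homogeneous units. -/
noncomputable def mu (p : Multiplicative G × Lˣ) : (ML L G)ˣ :=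
  ⟨mo p.1.toAdd p.2, mo (-p.1.toAdd) ((p.2⁻¹ : Lˣ) : L), by
    rw [mo_mul, add_neg_cancel, Units.mul_inv, mo_one], by
    rw [mo_mul, neg_add_cancel, Units.inv_mul, mo_one]⟩

/-- The homogeneous units as a homomorphism. -/
noncomputable def muH : Multiplicative G × Lˣ →* (ML L G)ˣ where
  toFun := mu
  map_one' := Units.ext mo_one
  map_mul' := fun _ _ => Units.ext (mo_mul _ _ _ _).symm

/-- The homogeneous units of a subalgebra. -/
noncomputable def HU (C : Subalgebra k (ML L G)) : Subgroup (Multiplicative G × Lˣ) :=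
  C.toSubmonoid.units.comap muH

lemma mem_HU {C : Subalgebra k (ML L G)} {m : G} {x : Lˣ} :
    (Multiplicative.ofAdd m, x) ∈ HU C ↔ mo m (x : L) ∈ C ∧ mo (-m) ((x⁻¹ : Lˣ) : L) ∈ C :=
  Iff.rfl

lemma mo_prod {ι : Type} (s : Finset ι) (m : ι → G) (x : ι → L) :
    ∏ i ∈ s, (mo (m i) (x i) : ML L G) = mo (∑ i ∈ s, m i) (∏ i ∈ s, x i) := by
  classical
  induction s using Finset.induction_on with
  | empty => rw [Finset.prod_empty, Finset.sum_empty, Finset.prod_empty, mo_one]
  | insert i s hi ih => rw [Finset.prod_insert hi, Finset.sum_insert hi, Finset.prod_insert hi,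
      ih, mo_mul]

end units

section indep

variable {L : Type u} [Field L] {n : ℕ} {G : Type} [AddCommGroup G] (c : G ≃+ (Fin n → ℤ))

/-- The degree of a monomial. -/
noncomputable def dg (s : Fin n →₀ ℕ) : G := ∑ j, s j • bb c j

lemma dg_inj : Function.Injective (dg c) := by
  intro s s' h
  ext j
  have h1 : ∀ t : Fin n →₀ ℕ, c (dg c t) j = t j := by
    intro t
    unfold dg
    rw [map_sum, Finset.sum_apply, Finset.sum_eq_single j]
    · rw [map_nsmul, c_bb, Pi.smul_apply, Pi.single_eq_same, nsmul_eq_mul, mul_one]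
    · intro i _ hi
      rw [map_nsmul, c_bb, Pi.smul_apply, Pi.single_eq_of_ne (Ne.symm hi), smul_zero]
    · intro h
      exact absurd (Finset.mem_univ _) h
  have h2 := h1 s
  rw [h, h1] at h2
  exact_mod_cast h2.symm

lemma aeval_bb (s : Fin n →₀ ℕ) (a : L) :
    MvPolynomial.aeval (fun j => (mo (bb c j) 1 : ML L G)) (MvPolynomial.monomial s a) =
      mo (dg c s) a := by
  rw [MvPolynomial.aeval_monomial, Finsupp.prod_fintype _ _ fun i => pow_zero _]
  have h1 : ∏ i, (mo (bb c i) (1 : L) : ML L G) ^ s i = mo (dg c s) 1 := by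
    have h2 : ∀ i, (mo (bb c i) (1 : L) : ML L G) ^ s i = mo (s i • bb c i) 1 := by
      intro i
      rw [mo_pow, one_pow]
    rw [Finset.prod_congr rfl fun i _ => h2 i, mo_prod, Finset.prod_const_one]
    rfl
  rw [h1, algebraMap_ML, mo_mul, zero_add, mul_one]
  rfl

lemma indep_bb : AlgebraicIndependent L (fun j => (mo (bb c j) 1 : ML L G)) := by
  classical
  rw [algebraicIndependent_iff_injective_aeval, injective_iff_map_eq_zero]
  intro f hf
  have h1 : ∀ (f : MvPolynomial (Fin n) L) (s : Fin n →₀ ℕ),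
      (MvPolynomial.aeval (fun j => (mo (bb c j) 1 : ML L G)) f).coeff (dg c s) =
        MvPolynomial.coeff s f := by
    intro f s
    induction f using MvPolynomial.induction_on' with
    | monomial t a =>
      rw [aeval_bb, coeff_mo, MvPolynomial.coeff_monomial]
      by_cases h : t = s
      · rw [h, if_pos rfl, if_pos rfl]
      · rw [if_neg h, if_neg fun h' => h (dg_inj c h')]
    | add p q hp hq => rw [map_add, coeff_add', hp, hq, MvPolynomial.coeff_add]
  ext s
  rw [← h1, hf, MvPolynomial.coeff_zero]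
  rfl

end indep

section sm

variable {k L : Type u} [Field k] [Field L] [Algebra k L] {n : ℕ} {G : Type} [AddCommGroup G]
  (c : G ≃+ (Fin n → ℤ)) (N : ℕ) (y : Fin n → L) (z : L) {P : Type} (w : P → L) (r : ℕ)

/-- The index set of the generators. -/
abbrev TX (P : Type) (n r : ℕ) : Type := P ⊕ (Fin n ⊕ (Fin (n - 1 - r) ⊕ Unit))

/-- The third kind of indices. -/
def t3 (i : Fin (n - 1 - r)) : Fin n := ⟨r + i, by omega⟩

/-- The generators. -/
noncomputable def TF : TX P n r → ML L G :=
  Sum.elim (fun p => mo 0 (w p)) (Sum.elim (fun j => mo (bb c j) 1)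
    (Sum.elim (fun i => mo (N • bb c (t3 (n := n) r i)) (y (t3 r i))⁻¹) fun _ => mo (aw c) z⁻¹))

/-- The product of the units. -/
noncomputable def X0 : ML L G :=
  (∏ j ∈ Finset.univ.filter (fun j : Fin n => (j : ℕ) < r), mo (bb c j) 1) *
    ((∏ i, mo (N • bb c (t3 (n := n) r i)) (y (t3 r i))⁻¹) * mo (aw c) z⁻¹)

variable {c N y z w r}

lemma X0_mem : X0 c N y z r ∈ Algebra.adjoin k (Set.range (TF c N y z w r)) := by
  refine Subalgebra.mul_mem _ (Subalgebra.prod_mem _ fun j _ => ?_)
    (Subalgebra.mul_mem _ (Subalgebra.prod_mem _ fun i _ => ?_) ?_)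
  · exact Algebra.subset_adjoin ⟨Sum.inr (Sum.inl j), rfl⟩
  · exact Algebra.subset_adjoin ⟨Sum.inr (Sum.inr (Sum.inl i)), rfl⟩
  · exact Algebra.subset_adjoin ⟨Sum.inr (Sum.inr (Sum.inr ())), rfl⟩

lemma X0_unit (hy : ∀ j, y j ≠ 0) (hz : z ≠ 0) : IsUnit (X0 c N y z r) := by
  unfold X0
  rw [mo_prod, mo_prod, mo_mul, mo_mul]
  refine isUnit_mo (mul_ne_zero ?_ (mul_ne_zero ?_ (inv_ne_zero hz)))
  · exact Finset.prod_ne_zero_iff.2 fun _ _ => one_ne_zero
  · exact Finset.prod_ne_zero_iff.2 fun _ _ => inv_ne_zero (hy _)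

variable {C : Subalgebra k L}

/-- The comparison of the graded chart with the localized polynomial ring. -/
lemma KC_eq (hN : 0 < N) (hy : ∀ j, y j ≠ 0) (hz0 : z ≠ 0)
    (hC : C = Algebra.adjoin k (Set.range w ∪ (Set.range y ∪ {z})))
    (hy1 : ∀ j : Fin n, (j : ℕ) < r → y j = 1) (hr : r < n)
    {ε : k} (hε : ε ≠ 0) (hz : z ^ N = algebraMap k L ε * ∏ j : Fin n, y j ^ (n - j : ℕ)) :
    KC c N C y z = lc (Algebra.adjoin k (Set.range (TF c N y z w r))) (X0 c N y z r) X0_mem := by
  classical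
  set P0 := Algebra.adjoin k (Set.range (TF c N y z w r)) with hP0
  have hwC : ∀ p, w p ∈ C := fun p => by
    rw [hC]
    exact Algebra.subset_adjoin (Or.inl ⟨p, rfl⟩)
  apply le_antisymm
  · -- units
    obtain ⟨X1, hX1⟩ := (X0_unit (c := c) (N := N) (r := r) hy hz0).exists_right_inv
    have hle := le_lc P0 (X0 c N y z r) X0_mem
    have hX1' : X1 ∈ lc P0 (X0 c N y z r) X0_mem := inv_mem_lc _ _ _ _ hX1
    have hfac : ∀ (m : G) (x : Lˣ) (q : ML L G), mo m (x : L) ∈ P0 → q ∈ P0 →
        X0 c N y z r = mo m (x : L) * q →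
        (Multiplicative.ofAdd m, x) ∈ HU (lc P0 (X0 c N y z r) X0_mem) := by
      intro m x q hm hq h
      refine mem_HU.2 ⟨hle hm, ?_⟩
      have h1 : mo (-m) ((x⁻¹ : Lˣ) : L) = q * X1 := by
        have h2 : mo (-m) ((x⁻¹ : Lˣ) : L) * mo m (x : L) = 1 := by
          rw [mo_mul, neg_add_cancel, Units.inv_mul, mo_one]
        calc mo (-m) ((x⁻¹ : Lˣ) : L) = mo (-m) ((x⁻¹ : Lˣ) : L) * (X0 c N y z r * X1) := by
              rw [hX1, mul_one]
          _ = (mo (-m) ((x⁻¹ : Lˣ) : L) * mo m (x : L)) * (q * X1) := by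
              rw [h]
              ring
          _ = q * X1 := by rw [h2, one_mul]
      rw [h1]
      exact Subalgebra.mul_mem _ (hle hq) hX1'
    have hb : ∀ j, mo (bb c j) (1 : L) ∈ P0 := fun j =>
      Algebra.subset_adjoin ⟨Sum.inr (Sum.inl j), rfl⟩
    have h3 : ∀ i, mo (N • bb c (t3 (n := n) r i)) (y (t3 r i))⁻¹ ∈ P0 := fun i =>
      Algebra.subset_adjoin ⟨Sum.inr (Sum.inr (Sum.inl i)), rfl⟩
    have h4 : mo (aw c) z⁻¹ ∈ P0 := Algebra.subset_adjoin ⟨Sum.inr (Sum.inr (Sum.inr ())), rfl⟩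
    let yu : Fin n → Lˣ := fun j => (Units.mk0 (y j) (hy j))⁻¹
    let zu : Lˣ := (Units.mk0 z hz0)⁻¹
    have hyu : ∀ j, ((yu j : Lˣ) : L) = (y j)⁻¹ := fun j => by simp [yu]
    have hzu : ((zu : Lˣ) : L) = z⁻¹ := by simp [zu]
    have hyui : ∀ j, (((yu j)⁻¹ : Lˣ) : L) = y j := fun j => by simp [yu]
    have hzui : ((zu⁻¹ : Lˣ) : L) = z := by simp [zu]
    have hbu : ∀ j : Fin n, (j : ℕ) < r →
        (Multiplicative.ofAdd (bb c j), (1 : Lˣ)) ∈ HU (lc P0 (X0 c N y z r) X0_mem) := by
      intro j hj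
      refine hfac _ _ ((∏ j ∈ (Finset.univ.filter (fun j : Fin n => (j : ℕ) < r)).erase j,
        mo (bb c j) 1) * ((∏ i, mo (N • bb c (t3 (n := n) r i)) (y (t3 r i))⁻¹) *
        mo (aw c) z⁻¹)) ?_ ?_ ?_
      · rw [Units.val_one]
        exact hb j
      · exact Subalgebra.mul_mem _ (Subalgebra.prod_mem _ fun j _ => hb j)
          (Subalgebra.mul_mem _ (Subalgebra.prod_mem _ fun i _ => h3 i) h4)
      · unfold X0
        rw [← Finset.mul_prod_erase (Finset.univ.filter fun j : Fin n => (j : ℕ) < r) _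
          (Finset.mem_filter.2 ⟨Finset.mem_univ j, hj⟩), Units.val_one]
        ring
    have hzU : (Multiplicative.ofAdd (aw c), zu) ∈ HU (lc P0 (X0 c N y z r) X0_mem) := by
      refine hfac _ _ ((∏ j ∈ Finset.univ.filter (fun j : Fin n => (j : ℕ) < r),
        mo (bb c j) 1) * (∏ i, mo (N • bb c (t3 (n := n) r i)) (y (t3 r i))⁻¹)) ?_ ?_ ?_
      · rw [hzu]
        exact h4
      · exact Subalgebra.mul_mem _ (Subalgebra.prod_mem _ fun j _ => hb j)
          (Subalgebra.prod_mem _ fun i _ => h3 i)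
      · unfold X0
        rw [hzu]
        ring
    have hyU' : ∀ j : Fin n, (j : ℕ) + 1 < n →
        (Multiplicative.ofAdd (N • bb c j), yu j) ∈ HU (lc P0 (X0 c N y z r) X0_mem) := by
      intro j hj
      by_cases hjr : (j : ℕ) < r
      · have h5 := (HU (lc P0 (X0 c N y z r) X0_mem)).pow_mem (hbu j hjr) N
        have h6 : yu j = 1 := by
          apply Units.ext
          rw [hyu, hy1 j hjr, inv_one, Units.val_one]
        rw [h6]
        have h7 : (Multiplicative.ofAdd (bb c j), (1 : Lˣ)) ^ N =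
            (Multiplicative.ofAdd (N • bb c j), (1 : Lˣ)) :=
          Prod.ext rfl (one_pow N)
        rw [← h7]
        exact h5
      · let i : Fin (n - 1 - r) := ⟨j - r, by omega⟩
        have hi : t3 (n := n) r i = j := by
          apply Fin.ext
          change r + (j - r) = (j : ℕ)
          omega
        refine hfac _ _ ((∏ j ∈ Finset.univ.filter (fun j : Fin n => (j : ℕ) < r),
          mo (bb c j) 1) * ((∏ i ∈ Finset.univ.erase i,
          mo (N • bb c (t3 (n := n) r i)) (y (t3 r i))⁻¹) * mo (aw c) z⁻¹)) ?_ ?_ ?_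
        · rw [hyu, ← hi]
          exact h3 i
        · exact Subalgebra.mul_mem _ (Subalgebra.prod_mem _ fun j _ => hb j)
            (Subalgebra.mul_mem _ (Subalgebra.prod_mem _ fun i _ => h3 i) h4)
        · unfold X0
          rw [← Finset.mul_prod_erase Finset.univ
            (fun i => mo (N • bb c (t3 (n := n) r i)) (y (t3 r i))⁻¹) (Finset.mem_univ i), hi, hyu]
          ring
    -- the last unit
    have hyU : ∀ j : Fin n,
        (Multiplicative.ofAdd (N • bb c j), yu j) ∈ HU (lc P0 (X0 c N y z r) X0_mem) := by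
      intro j
      by_cases hj : (j : ℕ) + 1 < n
      · exact hyU' j hj
      let εu : Lˣ := Units.mk0 (algebraMap k L ε) ((map_ne_zero _).2 hε)
      have hεU : ((1 : Multiplicative G), εu) ∈ HU (lc P0 (X0 c N y z r) X0_mem) := by
        have h5 : ∀ a : k, mo 0 (algebraMap k L a) ∈ lc P0 (X0 c N y z r) X0_mem := fun a =>
          Subalgebra.algebraMap_mem _ a
        refine mem_HU.2 ⟨h5 ε, ?_⟩
        have h6 : ((εu⁻¹ : Lˣ) : L) = algebraMap k L ε⁻¹ := by
          rw [map_inv₀]
          simp [εu]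
        rw [h6]
        have h7 : (-(0 : G)) = 0 := neg_zero
        rw [h7]
        exact h5 ε⁻¹
      have h5 : (Multiplicative.ofAdd (N • bb c j), yu j) =
          ((1 : Multiplicative G), εu) * (Multiplicative.ofAdd (aw c), zu) ^ N *
            (∏ i ∈ Finset.univ.erase j,
              (Multiplicative.ofAdd (N • bb c i), yu i) ^ (n - i : ℕ))⁻¹ := by
        have hnj : n - (j : ℕ) = 1 := by
          have := j.2
          omega
        rw [eq_mul_inv_iff_mul_eq]
        have h6 : (Multiplicative.ofAdd (N • bb c j), yu j) *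
            ∏ i ∈ Finset.univ.erase j, (Multiplicative.ofAdd (N • bb c i), yu i) ^ (n - i : ℕ) =
            ∏ i, (Multiplicative.ofAdd (N • bb c i), yu i) ^ (n - i : ℕ) := by
          rw [← Finset.mul_prod_erase Finset.univ _ (Finset.mem_univ j), hnj, pow_one]
        rw [h6]
        refine Prod.ext ?_ ?_
        · rw [Prod.fst_prod, Prod.fst_mul, Prod.pow_fst, one_mul]
          have h7 : ∀ i : Fin n, ((Multiplicative.ofAdd (N • bb c i), yu i) ^ (n - i : ℕ)).1 =
              Multiplicative.ofAdd ((n - i : ℕ) • (N • bb c i)) := fun i => rfl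
          rw [Finset.prod_congr rfl fun i _ => h7 i, ← ofAdd_sum]
          have h8 : ∑ i : Fin n, (n - i : ℕ) • (N • bb c i) = N • aw c := by
            unfold aw
            rw [Finset.smul_sum]
            exact Finset.sum_congr rfl fun i _ => smul_comm _ _ _
          rw [h8]
          rfl
        · rw [Prod.snd_prod, Prod.snd_mul, Prod.pow_snd]
          apply Units.ext
          rw [Units.coe_prod, Units.val_mul, Units.val_pow_eq_pow_val, hzu]
          have h7 : ∀ i : Fin n,
              ((((Multiplicative.ofAdd (N • bb c i), yu i) ^ (n - i : ℕ)).2 : Lˣ) : L) =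
              (y i ^ (n - i : ℕ))⁻¹ := by
            intro i
            rw [Prod.pow_snd, Units.val_pow_eq_pow_val, hyu, inv_pow]
          rw [Finset.prod_congr rfl fun i _ => h7 i, Finset.prod_inv_distrib, inv_pow, hz]
          change _ = algebraMap k L ε * _
          have h8 : algebraMap k L ε ≠ 0 := (map_ne_zero _).2 hε
          rw [mul_inv, ← mul_assoc, mul_inv_cancel₀ h8, one_mul]
      rw [h5]
      refine mul_mem (mul_mem hεU (pow_mem hzU N)) (inv_mem (prod_mem fun i hi => ?_))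
      refine pow_mem (hyU' i ?_) _
      have h6 := Finset.ne_of_mem_erase hi
      have h7 : (i : ℕ) ≠ j := fun h => h6 (Fin.ext h)
      have := i.2
      omega
    have hyl : ∀ j, mo (N • bb c j) (y j)⁻¹ ∈ lc P0 (X0 c N y z r) X0_mem ∧
        mo (-(N • bb c j)) (y j) ∈ lc P0 (X0 c N y z r) X0_mem := by
      intro j
      have h5 := mem_HU.1 (hyU j)
      rw [hyu, hyui] at h5
      exact h5
    have hzl : mo (aw c) z⁻¹ ∈ lc P0 (X0 c N y z r) X0_mem ∧
        mo (-aw c) z ∈ lc P0 (X0 c N y z r) X0_mem := by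
      have h5 := mem_HU.1 hzU
      rw [hzu, hzui] at h5
      exact h5
    refine KC_le ?_ (fun j => hle (hb j)) (fun j => (hyl j).1) (fun j => (hyl j).2) hzl.1 hzl.2
    intro x hx
    have h5 : C ≤ (lc P0 (X0 c N y z r) X0_mem).comap (Pool.Agent.W559.Mg.zr k L G) := by
      rw [hC, Algebra.adjoin_le_iff]
      rintro _ (⟨p, rfl⟩ | ⟨j, rfl⟩ | hxz)
      · exact hle (Algebra.subset_adjoin ⟨Sum.inl p, rfl⟩)
      · change mo 0 (y j) ∈ lc P0 (X0 c N y z r) X0_mem
        have h6 : mo 0 (y j) = mo (bb c j) 1 ^ N * mo (-(N • bb c j)) (y j) := by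
          rw [mo_pow, mo_mul, one_pow, one_mul, add_neg_cancel]
        rw [h6]
        exact Subalgebra.mul_mem _ (Subalgebra.pow_mem _ (hle (hb j)) _) (hyl j).2
      · rw [Set.mem_singleton_iff.1 hxz]
        change mo 0 z ∈ lc P0 (X0 c N y z r) X0_mem
        have h6 : mo 0 z = (∏ j : Fin n, (mo (bb c j) 1 : ML L G) ^ (n - j : ℕ)) *
            mo (-aw c) z := by
          have h7 : ∀ j : Fin n, (mo (bb c j) (1 : L) : ML L G) ^ (n - j : ℕ) =
              mo ((n - j : ℕ) • bb c j) 1 := by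
            intro j
            rw [mo_pow, one_pow]
          rw [Finset.prod_congr rfl fun j _ => h7 j, mo_prod, Finset.prod_const_one, mo_mul,
            one_mul]
          congr 1
          exact (add_neg_cancel (aw c)).symm
        rw [h6]
        exact Subalgebra.mul_mem _ (Subalgebra.prod_mem _ fun j _ =>
          Subalgebra.pow_mem _ (hle (hb j)) _) hzl.2
    exact h5 hx
  · -- the other inclusion
    have hneg : ∀ j : Fin n, (j : ℕ) < r → mo (-bb c j) (1 : L) ∈ KC c N C y z := by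
      intro j hj
      have h1 : mo (-bb c j) (1 : L) = mo (bb c j) 1 ^ (N - 1) * mo (-(N • bb c j)) (y j) := by
        rw [hy1 j hj, mo_pow, mo_mul, one_pow, one_mul]
        congr 1
        obtain ⟨N', rfl⟩ : ∃ N', N = N' + 1 := ⟨N - 1, by omega⟩
        rw [Nat.add_sub_cancel, succ_nsmul]
        abel
      rw [h1]
      exact Subalgebra.mul_mem _ (Subalgebra.pow_mem _ (bb_mem_KC j) _) (y_mem_KC' j)
    let X1 : ML L G := (∏ j ∈ Finset.univ.filter (fun j : Fin n => (j : ℕ) < r),
      mo (-bb c j) 1) * ((∏ i, mo (-(N • bb c (t3 (n := n) r i))) (y (t3 r i))) * mo (-aw c) z)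
    have hX1 : X0 c N y z r * X1 = 1 := by
      have h1 : X0 c N y z r * X1 =
          (∏ j ∈ Finset.univ.filter (fun j : Fin n => (j : ℕ) < r),
            (mo (bb c j) (1 : L) * mo (-bb c j) 1)) *
          ((∏ i, (mo (N • bb c (t3 (n := n) r i)) (y (t3 r i))⁻¹ *
            mo (-(N • bb c (t3 (n := n) r i))) (y (t3 r i)))) * (mo (aw c) z⁻¹ * mo (-aw c) z)) := by
        rw [Finset.prod_mul_distrib, Finset.prod_mul_distrib]
        unfold X0
        change _ * (_ * (_ * _)) = _
        ring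
      rw [h1, Finset.prod_eq_one, Finset.prod_eq_one, one_mul, one_mul]
      · rw [mo_mul, add_neg_cancel, inv_mul_cancel₀ hz0, mo_one]
      · intro i _
        rw [mo_mul, add_neg_cancel, inv_mul_cancel₀ (hy _), mo_one]
      · intro j _
        rw [mo_mul, add_neg_cancel, one_mul, mo_one]
    refine lc_le X0_mem hX1 ?_ ?_
    · rw [Algebra.adjoin_le_iff]
      rintro _ ⟨p | j | i | _, rfl⟩
      · exact mo_mem_KC (hwC p)
      · exact bb_mem_KC j
      · exact y_mem_KC _
      · exact z_mem_KC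
    · refine Subalgebra.mul_mem _ (Subalgebra.prod_mem _ fun j hj =>
        hneg j (Finset.mem_filter.1 hj).2) (Subalgebra.mul_mem _
        (Subalgebra.prod_mem _ fun i _ => y_mem_KC' _) z_mem_KC')

end sm

end Pool.Agent.R837.FS
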