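import Pool.Agent.R837.FS.Kum2
import Pool.Agent.R837.FN.Norm

/-!
Kummer coverings: algebraic independence, smoothness and the resolution.
-/

set_option autoImplicit false
set_option linter.unusedSectionVars false

open AlgebraicGeometry CategoryTheory

universe u v w

namespace Pool.Agent.R837.FS

open Pool.Agent.R837.FM Pool.Agent.W559.Mg Pool.Agent.Y177.Dg
open IntermediateField.algebraAdjoinAdjoin

section sm

variable {k L : Type u} [Field k] [Field L] [Algebra k L] {n : ℕ} {G : Type} [AddCommGroup G]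
  {c : G ≃+ (Fin n → ℤ)} {N : ℕ} {y : Fin n → L} {z : L} {P : Type} [Fintype P] {w : P → L}
  {r : ℕ} {C : Subalgebra k L}

lemma indep_TF [IsDomain (ML L G)] (hy : ∀ j, y j ≠ 0) (hz0 : z ≠ 0)
    (hC : C = Algebra.adjoin k (Set.range w ∪ (Set.range y ∪ {z})))
    (hy1 : ∀ j : Fin n, (j : ℕ) < r → y j = 1) (hr : r < n)
    {ε : k} (hε : ε ≠ 0) (hz : z ^ N = algebraMap k L ε * ∏ j : Fin n, y j ^ (n - j : ℕ))
    (halg : Algebra.IsAlgebraic C L)
    (htr : ((Fintype.card P + (n - r) : ℕ) : Cardinal) ≤ Algebra.trdeg k L) :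
    AlgebraicIndependent k (TF c N y z w r) := by
  classical
  let FF := FractionRing (ML L G)
  let ι : ML L G →ₐ[k] FF := IsScalarTower.toAlgHom k (ML L G) FF
  have hι : Function.Injective ι := IsFractionRing.injective (ML L G) FF
  have hιne : ∀ x : ML L G, x ≠ 0 → ι x ≠ 0 := fun x hx h => hx (by
    apply hι
    rw [h, map_zero])
  let θ : L →ₐ[k] FF := ι.comp (Pool.Agent.W559.Mg.zr k L G)
  have hθ : ∀ x, θ x = ι (mo 0 x) := fun x => rfl
  have hθ0 : ∀ x, x ≠ 0 → θ x ≠ 0 := fun x hx => hιne _ (mo_ne_zero hx)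
  have hmo : ∀ (m : G) (x : L), ι (mo m x) = θ x * ι (mo m 1) := by
    intro m x
    rw [hθ, ← map_mul, mo_mul, zero_add, mul_one]
  have hm0 : ∀ m : G, ι (mo m 1) ≠ 0 := fun m => hιne _ (mo_ne_zero one_ne_zero)
  rw [← ι.algebraicIndependent_iff hι]
  -- the transcendence degree
  have hst : IsScalarTower k L FF := IsScalarTower.of_algebraMap_eq fun a => by
    have h1 : algebraMap k FF a = algebraMap (ML L G) FF (algebraMap k (ML L G) a) :=
      IsScalarTower.algebraMap_apply _ _ _ _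
    have h2 : algebraMap L FF (algebraMap k L a) =
        algebraMap (ML L G) FF (algebraMap L (ML L G) (algebraMap k L a)) :=
      IsScalarTower.algebraMap_apply _ _ _ _
    rw [h1, h2]
    rfl
  have htr1 : Algebra.trdeg k L + Algebra.trdeg L FF ≤ Algebra.trdeg k FF :=
    trdeg_add_le
  have htr2 : ((n : ℕ) : Cardinal.{u}) ≤ Algebra.trdeg L FF := by
    have h1 := (indep_bb (L := L) c).map' (f := IsScalarTower.toAlgHom L (ML L G) FF)
      (IsFractionRing.injective (ML L G) FF)
    have h2 := h1.lift_cardinalMk_le_trdeg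
    rw [Cardinal.mk_fin, Cardinal.lift_natCast] at h2
    rw [← Cardinal.lift_le.{0}, Cardinal.lift_natCast]
    exact h2
  -- the field generated by the family
  let E := IntermediateField.adjoin k (Set.range (ι ∘ TF c N y z w r))
  have hgen : ∀ x, ι (TF c N y z w r x) ∈ E := fun x =>
    IntermediateField.subset_adjoin k _ ⟨x, rfl⟩
  have hmE : ∀ m : G, ι (mo m 1) ∈ E := by
    let S : AddSubgroup G :=
      { carrier := {m | ι (mo m 1) ∈ E}
        add_mem' := by
          intro a b ha hb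
          have h1 : ι (mo (a + b) 1) = ι (mo a 1) * ι (mo b 1) := by
            rw [← map_mul, mo_mul, one_mul]
          change ι (mo (a + b) 1) ∈ E
          rw [h1]
          exact mul_mem ha hb
        zero_mem' := by
          change ι (mo 0 1) ∈ E
          rw [mo_one, map_one]
          exact one_mem _
        neg_mem' := by
          intro a ha
          have h1 : ι (mo (-a) 1) = (ι (mo a 1))⁻¹ := by
            apply eq_inv_of_mul_eq_one_left
            rw [← map_mul, mo_mul, neg_add_cancel, one_mul, mo_one, map_one]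
          change ι (mo (-a) 1) ∈ E
          rw [h1]
          exact inv_mem ha }
    intro m
    change m ∈ S
    rw [sum_bb c m]
    exact AddSubgroup.sum_mem _ fun j _ => AddSubgroup.zsmul_mem _
      (hgen (Sum.inr (Sum.inl j))) _
  have hzE : θ z ∈ E := by
    have h1 : θ z = (ι (mo (aw c) z⁻¹))⁻¹ * ι (mo (aw c) 1) := by
      rw [hmo, mul_inv, map_inv₀, inv_inv, mul_assoc, inv_mul_cancel₀ (hm0 _), mul_one]
    rw [h1]
    exact mul_mem (inv_mem (hgen (Sum.inr (Sum.inr (Sum.inr ()))))) (hmE _)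
  have hyE' : ∀ j : Fin n, (j : ℕ) + 1 < n → θ (y j) ∈ E := by
    intro j hj
    by_cases hjr : (j : ℕ) < r
    · rw [hy1 j hjr, map_one]
      exact one_mem _
    · let i : Fin (n - 1 - r) := ⟨j - r, by omega⟩
      have hi : t3 (n := n) r i = j := by
        apply Fin.ext
        change r + (j - r) = (j : ℕ)
        omega
      have h0 : ι (mo (N • bb c j) (y j)⁻¹) ∈ E := by
        have h1 := hgen (Sum.inr (Sum.inr (Sum.inl i)))
        have h2 : TF c N y z w r (Sum.inr (Sum.inr (Sum.inl i))) =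
            mo (N • bb c (t3 (n := n) r i)) (y (t3 r i))⁻¹ := rfl
        rw [h2, hi] at h1
        exact h1
      have h1 : θ (y j) = (ι (mo (N • bb c j) (y j)⁻¹))⁻¹ * ι (mo (N • bb c j) 1) := by
        rw [hmo (N • bb c j) (y j)⁻¹, mul_inv, map_inv₀, inv_inv, mul_assoc,
          inv_mul_cancel₀ (hm0 _), mul_one]
      rw [h1]
      exact mul_mem (inv_mem h0) (hmE _)
  have hyE : ∀ j : Fin n, θ (y j) ∈ E := by
    intro j
    by_cases hj : (j : ℕ) + 1 < n
    · exact hyE' j hj
    have hnj : n - (j : ℕ) = 1 := by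
      have := j.2
      omega
    have h1 : y j = z ^ N * (algebraMap k L ε * ∏ i ∈ Finset.univ.erase j,
        y i ^ (n - i : ℕ))⁻¹ := by
      have h2 : (∏ i ∈ Finset.univ.erase j, y i ^ (n - i : ℕ)) ≠ 0 :=
        Finset.prod_ne_zero_iff.2 fun i _ => pow_ne_zero _ (hy i)
      have h3 : algebraMap k L ε ≠ 0 := (map_ne_zero _).2 hε
      rw [hz, ← Finset.mul_prod_erase Finset.univ _ (Finset.mem_univ j), hnj, pow_one]
      field_simp
    rw [h1, map_mul, map_pow, map_inv₀, map_mul, map_prod]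
    refine mul_mem (pow_mem hzE N) (inv_mem (mul_mem ?_ (prod_mem fun i hi => ?_)))
    · rw [AlgHom.commutes]
      exact E.algebraMap_mem ε
    · rw [map_pow]
      refine pow_mem (hyE' i ?_) _
      have h6 := Finset.ne_of_mem_erase hi
      have h7 : (i : ℕ) ≠ j := fun h => h6 (Fin.ext h)
      have := i.2
      omega
  have hCE : ∀ x ∈ C, θ x ∈ E := by
    intro x hx
    have h5 : C ≤ E.toSubalgebra.comap θ := by
      rw [hC, Algebra.adjoin_le_iff]
      rintro _ (⟨p, rfl⟩ | ⟨j, rfl⟩ | hxz)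
      · exact hgen (Sum.inl p)
      · exact hyE j
      · rw [Set.mem_singleton_iff.1 hxz]
        exact hzE
    exact h5 hx
  -- everything is algebraic
  have hLalg : ∀ x : L, IsAlgebraic E (θ x) := by
    intro x
    obtain ⟨p, hp0, hp⟩ := halg.isAlgebraic x
    let φ : C →+* E := (θ.comp C.val : C →+* FF).codRestrict E.toSubfield fun a => hCE _ a.2
    have hφ : Function.Injective φ := by
      intro a b hab
      have h1 : θ (a : L) = θ (b : L) := congrArg Subtype.val hab
      exact Subtype.ext (θ.toRingHom.injective h1)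
    refine ⟨p.map φ, ?_, ?_⟩
    · rw [Ne, Polynomial.map_eq_zero_iff hφ]
      exact hp0
    · have h1 : Polynomial.aeval (θ x) (p.map φ) = θ (Polynomial.aeval x p) := by
        rw [Polynomial.aeval_def, Polynomial.eval₂_map, Polynomial.aeval_def]
        have h2 : (algebraMap E FF).comp φ = (θ : L →+* FF).comp (algebraMap C L) := rfl
        rw [h2]
        exact (Polynomial.hom_eval₂ p (algebraMap C L) (θ : L →+* FF) x).symm
      rw [h1, hp, map_zero]
  have hEalg : Algebra.IsAlgebraic E FF := by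
    have hML : ∀ f : ML L G, ι f ∈ algebraicClosure E FF := by
      intro f
      rw [eq_sum_mo f, map_sum]
      refine sum_mem fun m _ => ?_
      rw [hmo]
      refine mul_mem ?_ ?_
      · rw [mem_algebraicClosure_iff]
        exact hLalg _
      · exact (algebraicClosure E FF).algebraMap_mem ⟨_, hmE m⟩
    refine ⟨fun x => ?_⟩
    rw [← mem_algebraicClosure_iff]
    obtain ⟨a, b, -, rfl⟩ := IsFractionRing.div_surjective (A := ML L G) x
    exact div_mem (hML a) (hML b)
  have hAalg : Algebra.IsAlgebraic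
      (Algebra.adjoin k (Set.range (ι ∘ TF c N y z w r))) FF :=
    (IsFractionRing.comap_isAlgebraic_iff
      (A := Algebra.adjoin k (Set.range (ι ∘ TF c N y z w r))) (K := E) (C := FF)).2 hEalg
  refine (Algebra.IsAlgebraic.isTranscendenceBasis_of_lift_le_trdeg_of_finite k _ ?_).1
  have hcard : Fintype.card (TX P n r) = (Fintype.card P + (n - r)) + n := by
    simp only [Fintype.card_sum, Fintype.card_fin, Fintype.card_unit]
    omega
  rw [Cardinal.mk_fintype, hcard, Cardinal.lift_natCast]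
  have h1 : (((Fintype.card P + (n - r)) + n : ℕ) : Cardinal.{u}) ≤ Algebra.trdeg k FF := by
    rw [Nat.cast_add]
    exact (add_le_add htr htr2).trans htr1
  calc (((Fintype.card P + (n - r)) + n : ℕ) : Cardinal) =
      Cardinal.lift.{0} (((Fintype.card P + (n - r)) + n : ℕ) : Cardinal) := by simp
    _ ≤ _ := Cardinal.lift_le.2 h1

/-- The graded charts are smooth. -/
theorem smooth_KC [IsDomain (ML L G)] (hN : 0 < N) (hy : ∀ j, y j ≠ 0) (hz0 : z ≠ 0)
    (hC : C = Algebra.adjoin k (Set.range w ∪ (Set.range y ∪ {z})))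
    (hy1 : ∀ j : Fin n, (j : ℕ) < r → y j = 1) (hr : r < n)
    {ε : k} (hε : ε ≠ 0) (hz : z ^ N = algebraMap k L ε * ∏ j : Fin n, y j ^ (n - j : ℕ))
    (halg : Algebra.IsAlgebraic C L)
    (htr : ((Fintype.card P + (n - r) : ℕ) : Cardinal) ≤ Algebra.trdeg k L) :
    Algebra.Smooth k (KC c N C y z) := by
  have hai := indep_TF (c := c) hy hz0 hC hy1 hr hε hz halg htr
  have hsm : Algebra.Smooth k (MvPolynomial (TX P n r) k) := ⟨inferInstance, inferInstance⟩
  have h1 : Algebra.Smooth k (Algebra.adjoin k (Set.range (TF c N y z w r))) :=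
    Algebra.Smooth.of_equiv hai.aevalEquiv
  rw [KC_eq (c := c) (w := w) (r := r) hN hy hz0 hC hy1 hr hε hz]
  exact smooth_lc h1 X0_mem (X0_unit hy hz0)

end sm

section int

variable {k D : Type u} [Field k] [CommRing D] [IsDomain D] [Algebra k D]

/-- Integral elements of the field of fractions of a smooth subalgebra. -/
lemma mem_of_integral {C : Subalgebra k D} (hC : Algebra.Smooth k C) {b x y : D}
    (hx : x ∈ C) (hy : y ∈ C) (hy0 : y ≠ 0) (hb : b * y = x) (hint : IsIntegral C b) :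
    b ∈ C := by
  have hic : IsIntegrallyClosed C := Pool.Agent.R837.FN.Norm.of_smooth k C
  let F := FractionRing D
  let KF := FractionRing C
  let φ : C →+* F := (algebraMap D F).comp C.val.toRingHom
  have hφ : Function.Injective φ := (IsFractionRing.injective D F).comp Subtype.val_injective
  let ι : KF →+* F := IsFractionRing.lift hφ
  have hι : ∀ a : C, ι (algebraMap C KF a) = algebraMap D F a := fun a =>
    IsFractionRing.lift_algebraMap hφ a
  let q : KF := algebraMap C KF ⟨x, hx⟩ / algebraMap C KF ⟨y, hy⟩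
  have hyC : algebraMap C KF ⟨y, hy⟩ ≠ 0 := by
    intro h
    have h1 : (⟨y, hy⟩ : C) = 0 := by
      apply IsFractionRing.injective C KF
      rw [h, map_zero]
    exact hy0 (congrArg Subtype.val h1)
  have hyF : algebraMap D F y ≠ 0 := by
    intro h
    apply hy0
    apply IsFractionRing.injective D F
    rw [h, map_zero]
  have hq : ι q = algebraMap D F b := by
    change ι (algebraMap C KF ⟨x, hx⟩ / algebraMap C KF ⟨y, hy⟩) = _
    rw [map_div₀, hι, hι, div_eq_iff hyF, ← map_mul, hb]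
  have hqint : IsIntegral C q := by
    obtain ⟨p, hp, hp0⟩ := hint
    refine ⟨p, hp, ?_⟩
    apply ι.injective
    rw [map_zero, Polynomial.hom_eval₂, hq]
    have h1 : ι.comp (algebraMap C KF) = (algebraMap D F).comp (algebraMap C D) := by
      ext a
      exact hι a
    rw [h1, ← Polynomial.hom_eval₂, hp0, map_zero]
  obtain ⟨a, ha⟩ := IsIntegrallyClosed.isIntegral_iff.1 hqint
  have h1 : algebraMap D F (a : D) = algebraMap D F b := by
    rw [← hq, ← ha, hι]
  have h2 : (a : D) = b := IsFractionRing.injective D F h1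
  rw [← h2]
  exact a.2

end int

section res

variable {k A L : Type u} [Field k] [CommRing A] [IsDomain A] [Algebra k A] [Field L]
  [Algebra k L] {g : A →ₐ[k] L} (hg : Function.Injective g)

include hg in
/-- The resolution of a Kummer covering. -/
theorem kummer {n N : ℕ} (hN : 0 < N) {T : Type} [Finite T] {C : T → Subalgebra k L}
    {H : T → L} {y : T → Fin n → L} {z : T → L}
    (H0 : ∀ t, H t ≠ 0) (hA : ∀ t, ∃ a, H t = g a) (rt : ∀ t t', H t' / H t ∈ C t)
    (gl : ∀ t t', C t' ≤ Loc (C t) (H t' / H t))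
    (dn : ∀ t, ∀ x ∈ C t, ∃ (n : ℕ) (a : A), H t ^ n * x = g a)
    (cv : ∀ V : ValuationSubring L, (∀ a, g a ∈ V) → ∃ t, ∀ x ∈ C t, x ∈ V)
    (y0 : ∀ t j, y t j ≠ 0) (z0 : ∀ t, z t ≠ 0) (yC : ∀ t j, y t j ∈ C t) (zC : ∀ t, z t ∈ C t)
    (hz : ∀ t, ∃ ε : k, ε ≠ 0 ∧
      z t ^ N = algebraMap k L ε * ∏ j : Fin n, y t j ^ (n - j : ℕ))
    (y1 : ∀ t t' j, y t' j / y t j ∈ Loc (C t) (H t' / H t))
    (y2 : ∀ t t' j, y t j / y t' j ∈ Loc (C t) (H t' / H t))
    (z1 : ∀ t t', z t' / z t ∈ Loc (C t) (H t' / H t))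
    (z2 : ∀ t t', z t / z t' ∈ Loc (C t) (H t' / H t))
    (yd : ∀ t j, ∃ (n : ℕ) (a : A), H t ^ n * (y t j)⁻¹ = g a)
    (zd : ∀ t, ∃ (n : ℕ) (a : A), H t ^ n * (z t)⁻¹ = g a)
    (gen : ∀ t, ∃ (r : ℕ) (_ : r < n) (P : Type) (_ : Fintype P) (w : P → L),
      C t = Algebra.adjoin k (Set.range w ∪ (Set.range (y t) ∪ {z t})) ∧
      (∀ j : Fin n, (j : ℕ) < r → y t j = 1) ∧
      ((Fintype.card P + (n - r) : ℕ) : Cardinal) ≤ Algebra.trdeg k L)
    (alg : ∀ t, Algebra.IsAlgebraic (C t) L)
    (aa : ∀ t a, IsIntegral (C t) (g a) ∧ ∃ x ∈ C t, ∃ y ∈ C t, y ≠ 0 ∧ g a * y = x) :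
    Pool.Agent.H920R2.HasResolution (X := Spec (CommRingCat.of A))
      (Spec.map (CommRingCat.ofHom (algebraMap k A))) := by
  classical
  obtain ⟨G, _, c, hNR⟩ := exists_free.{u} n
  have hTU : TwoUniqueSums G := hNR.1
  have hdom : IsDomain (ML L G) := NoZeroDivisors.to_isDomain _
  have sm : ∀ t, Algebra.Smooth k (KC c N (C t) (y t) (z t)) := by
    intro t
    obtain ⟨r, hr, P, hP, w, h1, h2, h3⟩ := gen t
    obtain ⟨ε, hε, h4⟩ := hz t
    exact smooth_KC (w := w) hN (y0 t) (z0 t) h1 h2 hr hε h4 (alg t) h3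
  -- localization of the base
  have hD : ∀ t x, x ∈ Loc g.range (H t) ↔ ∃ (n : ℕ) (a : A), H t ^ n * x = g a := by
    intro t x
    constructor
    · intro hx
      obtain ⟨a, ha⟩ := hA t
      obtain ⟨n, a', ha'⟩ := exists_pow_mul (R := g.range) ⟨a, ha.symm⟩ (H0 t) hx
      exact ⟨n, a', ha'.symm⟩
    · rintro ⟨n, a, ha⟩
      exact mem_loc_of_pow (H0 t) ⟨a, ha.symm⟩
  refine hNR.2.2.2 k A L g hg (ULift.{u} T) N (fun t => KC c N (C t.down) (y t.down) (z t.down))
    (fun t => H t.down) ?_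
  refine { pa := ?_, sm := fun t => sm t.down }
  refine
    { H0 := fun t => H0 _
      hA := fun t => hA _
      gr := fun t => ?_
      aa := fun t a => ⟨?_, trivial⟩
      Fi := fun _ _ _ _ => trivial
      rt := fun t t' => ⟨mo_mem_KC (rt _ _), trivial⟩
      gl := ?_
      dn := ?_
      cv := ?_
      E0 := hN
      un := ?_
      gen := ?_ }
  · rw [inf_top_eq]
    exact gr_KC
  · obtain ⟨h1, x, hx, x', hx', hx0, h2⟩ := aa t.down a
    refine mem_of_integral (sm t.down) (mo_mem_KC hx) (mo_mem_KC hx') (mo_ne_zero hx0) ?_ ?_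
    · rw [mo_mul, add_zero, h2]
    · obtain ⟨p, hp, hp0⟩ := h1
      let φ : C t.down →+* KC c N (C t.down) (y t.down) (z t.down) :=
        ((Pool.Agent.W559.Mg.zr k L G).comp (C t.down).val :
          C t.down →+* ML L G).codRestrict (KC c N (C t.down) (y t.down) (z t.down)).toSubring
          fun a => mo_mem_KC a.2
      refine ⟨p.map φ, hp.map φ, ?_⟩
      rw [Polynomial.eval₂_map]
      have h3 : (algebraMap (KC c N (C t.down) (y t.down) (z t.down)) (ML L G)).comp φ =
          ((Pool.Agent.W559.Mg.zr k L G : L →+* ML L G)).comp (algebraMap (C t.down) L) := rfl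
      rw [h3]
      have h4 := Polynomial.hom_eval₂ p (algebraMap (C t.down) L)
        (Pool.Agent.W559.Mg.zr k L G : L →+* ML L G) (g a)
      rw [hp0, map_zero] at h4
      exact h4.symm
  · rintro t t' f ⟨hf, -⟩
    exact gl_KC (rt t.down t'.down) (div_ne_zero (H0 _) (H0 _)) (gl t.down t'.down)
      (y0 _) (z0 _) (z0 _) (y1 _ _) (y2 _ _) (z1 _ _) (z2 _ _) hf
  · rintro t x ⟨hx, -⟩
    have h1 : C t.down ≤ Loc g.range (H t.down) := fun x hx => (hD _ _).2 (dn _ x hx)
    exact (hD _ _).1 (KC_zero h1 (yC _) (zC _) (fun j => (hD _ _).2 (yd _ j))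
      ((hD _ _).2 (zd _)) hx)
  · intro V hV
    obtain ⟨t, ht⟩ := cv V hV
    obtain ⟨ε, hε, h4⟩ := hz t
    exact ⟨⟨t⟩, N, _, nrm_KC hN (y0 t) (yC t) hε h4 V ht⟩
  · intro t m
    have h1 := un_KC (N := N) (C := C t.down) (z := z t.down) (y0 t.down) m (c := c)
    refine ⟨(yy c (y t.down) m)⁻¹, inv_ne_zero (yy_ne c (y0 _) m), ⟨h1.1, trivial⟩, ?_, trivial⟩
    rw [inv_inv]
    exact h1.2
  · intro t
    have h1 := gen_KC (c := c) (N := N) (C := C t.down) (y := y t.down) (z := z t.down)
    rw [eq_top_iff, ← h1]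
    refine AddSubgroup.closure_mono ?_
    rintro m ⟨a, ha, ha'⟩
    exact ⟨a, ha, ha', trivial⟩

end res

end Pool.Agent.R837.FS
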