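import Pool.Agent.R837.FS.Frob
import Pool.Agent.R837.FS.Blow
import Pool.Agent.R837.FS.Kum3
import Pool.Agent.R837.FN.Levels3

/-!
The resolution for special linear groups: the charts.
-/

set_option autoImplicit false
set_option linter.unusedSectionVars false

open Finset AlgebraicGeometry CategoryTheory

universe u v w z

namespace Pool.Agent.R837.FS

open Pool.Agent.R837.FM
open IntermediateField.algebraAdjoinAdjoin

section final

variable {F : Type v} [Field F] [Fintype F] {k : Type u} [Field k] {L : Type u} [Field L]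
  [Algebra F L] [Algebra k L] {m s : ℕ} {X : Submodule F (Fin m → L)}

/-- The invariants are integral fractions of elements of the charts. -/
theorem chart_int {R : Subalgebra k L}
    {r : X →ₗ[F] (Fin s → L)} {J : Type} [Fintype J]
    (x : J → X) (hr : ∀ i, r (x i) = 0)
    (hdim : ∃ (P : Type) (_ : Fintype P) (base : P → X → L), Fintype.card P = Fintype.card J ∧
      Op F R (co X) ≤ spn R (gens F r ∪ Set.range base))
    (hint : ∀ (V : ValuationSubring L), (∀ a ∈ R, a ∈ V) → ∀ y : X, (∀ l, r y l ∈ V) →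
      ∀ l, (y : Fin m → L) l ∈ V)
    (hx : LinearIndependent F fun i => (x i : Fin m → L))
    (hF : ∀ a : F, ∃ c : k, algebraMap k L c = algebraMap F L a)
    (hL : IntermediateField.adjoin k ((R : Set L) ∪ {a | ∃ i l, a = (x i : Fin m → L) l}) = ⊤) :
    Algebra.IsAlgebraic R L ∧
    ∀ b, (∀ V : ValuationSubring L, (∀ a ∈ R, a ∈ V) → (∀ i l, (x i : Fin m → L) l ∈ V) →
      b ∈ V) → (∀ σ : L →+* L, (∀ a ∈ R, σ a = a) → σ b = b) →
      IsIntegral R b ∧ ∃ x ∈ R, ∃ y ∈ R, y ≠ 0 ∧ b * y = x := by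
  classical
  obtain ⟨S, hS⟩ : ∃ S : Set L, R = Algebra.adjoin k S := ⟨R, (Algebra.adjoin_eq R).symm⟩
  subst hS
  let E := IntermediateField.adjoin k S
  have hgal : IsGalois E L := by
    have h0 := fun l => exists_rel (E := E) x hr hdim hx (fun a ha =>
        ⟨⟨a, IntermediateField.algebra_adjoin_le_adjoin k _ ha⟩, rfl⟩) l
    choose N u hu1 hu2 α hα1 hα2 using h0
    refine isGalois_of (E := E) {a | ∃ l b, a = u l b} ?_ ?_
    · rw [eq_top_iff]
      intro a _
      have h1 : a ∈ IntermediateField.adjoin k ((Algebra.adjoin k S : Set L) ∪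
          {a | ∃ i l, a = (x i : Fin m → L) l}) := by
        rw [hL]
        trivial
      have h2 : IntermediateField.adjoin k ((Algebra.adjoin k S : Set L) ∪
          {a | ∃ i l, a = (x i : Fin m → L) l}) ≤
          (IntermediateField.adjoin E {a | ∃ l b, a = u l b}).restrictScalars k := by
        rw [IntermediateField.adjoin_le_iff]
        rintro _ (ha | ⟨i, l, rfl⟩)
        · exact (IntermediateField.adjoin E {a | ∃ l b, a = u l b}).algebraMap_mem
            ⟨_, IntermediateField.algebra_adjoin_le_adjoin k _ ha⟩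
        change (x i : Fin m → L) l ∈ IntermediateField.adjoin E {a | ∃ l b, a = u l b}
        refine Submodule.span_induction
          (p := fun a _ => a ∈ IntermediateField.adjoin E {a | ∃ l b, a = u l b}) ?_ ?_ ?_ ?_
          (hu2 l i)
        · rintro _ ⟨b, rfl⟩
          exact IntermediateField.subset_adjoin E _ ⟨l, b, rfl⟩
        · exact zero_mem _
        · exact fun a b _ _ ha hb => add_mem ha hb
        · intro c a _ ha
          obtain ⟨c', hc'⟩ := hF c
          rw [Algebra.smul_def, ← hc']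
          refine mul_mem ?_ ha
          exact (IntermediateField.adjoin E {a | ∃ l b, a = u l b}).algebraMap_mem
            (algebraMap k E c')
      exact h2 h1
    · rintro _ ⟨l, b, rfl⟩
      exact sep_split (u l) (hu1 l) (α l) (hα1 l) (hα2 l) b
  have halg : Algebra.IsAlgebraic (Algebra.adjoin k S) L := by
    have h1 : Algebra.IsAlgebraic E L := inferInstance
    exact (IsFractionRing.comap_isAlgebraic_iff (A := Algebra.adjoin k S) (K := E)
      (C := L)).2 h1
  refine ⟨halg, fun b hb hσ => ?_⟩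
  have hbint : IsIntegral (Algebra.adjoin k S) b := by
    refine isIntegral_of_val fun V hV => ?_
    refine hb V hV fun i l => hint V hV (x i) (fun l => ?_) l
    rw [hr]
    exact V.zero_mem
  have hbE : b ∈ Set.range (algebraMap E L) := by
    rw [InfiniteGalois.mem_range_algebraMap_iff_fixed]
    intro f
    refine hσ (f : L →+* L) fun a ha => ?_
    exact f.commutes ⟨a, IntermediateField.algebra_adjoin_le_adjoin k _ ha⟩
  refine ⟨hbint, ?_⟩
  obtain ⟨b', hb'⟩ := hbE
  obtain ⟨x', hx', y', hy', h1⟩ := IntermediateField.mem_adjoin_iff_div.1 b'.2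
  have h2 : b = x' / y' := by
    rw [← h1]
    exact hb'.symm
  by_cases hy0 : y' = 0
  · refine ⟨0, Subalgebra.zero_mem _, 1, Subalgebra.one_mem _, one_ne_zero, ?_⟩
    rw [h2, hy0, _root_.div_zero, zero_mul]
  · refine ⟨x', hx', y', hy', hy0, ?_⟩
    rw [h2, div_mul_cancel₀ _ hy0]

end final

section lem

variable {k L : Type u} [Field k] [Field L] [Algebra k L]

lemma Dom.ent {C : Subalgebra k L} {α β α' β' : Type} [Fintype α] [Fintype β]
    {Φ : Matrix α β L} {Φ' : Matrix α' β' L} (h : Dom C Φ Φ') (hΦ : Ent C Φ) : Ent C Φ' := by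
  obtain ⟨P, Q, hP, hQ, rfl⟩ := h
  exact (hP.mul hΦ).mul hQ

/-- The products as a sequence. -/
noncomputable def DF {n : ℕ} (b : Fin n → L) : ℕ → L
  | 0 => 1
  | (c + 1) => if h : c < n then b ⟨c, h⟩ else 1

lemma DF_zero {n : ℕ} (b : Fin n → L) : DF b 0 = 1 := rfl

lemma DF_succ {n : ℕ} (b : Fin n → L) (c : Fin n) : DF b (c + 1) = b c := dif_pos c.2

lemma DF_ne {n : ℕ} {b : Fin n → L} (hb : ∀ c, b c ≠ 0) (c : ℕ) : DF b c ≠ 0 := by
  rcases c with _ | c
  · exact one_ne_zero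
  · change (if h : c < n then b ⟨c, h⟩ else 1) ≠ 0
    split_ifs
    · exact hb _
    · exact one_ne_zero

lemma DF_ind {n : ℕ} {b : Fin n → L} {p : L → Prop} (h1 : p 1) (hb : ∀ c, p (b c)) (c : ℕ) :
    p (DF b c) := by
  rcases c with _ | c
  · exact h1
  · change p (if h : c < n then b ⟨c, h⟩ else 1)
    split_ifs
    · exact hb _
    · exact h1

lemma DF_ind2 {n : ℕ} {b b' : Fin n → L} {p : L → L → Prop} (h1 : p 1 1)
    (hb : ∀ c, p (b c) (b' c)) (c : ℕ) : p (DF b c) (DF b' c) := by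
  rcases c with _ | c
  · exact h1
  · change p (if h : c < n then b ⟨c, h⟩ else 1) (if h : c < n then b' ⟨c, h⟩ else 1)
    split_ifs
    · exact hb _
    · exact h1

/-- The elements fixed by an endomorphism. -/
def fixA (σ : L →+* L) (h : ∀ c : k, σ (algebraMap k L c) = algebraMap k L c) :
    Subalgebra k L where
  carrier := {a | σ a = a}
  mul_mem' := by
    intro a b ha hb
    change σ (a * b) = a * b
    rw [map_mul, show σ a = a from ha, show σ b = b from hb]
  add_mem' := by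
    intro a b ha hb
    change σ (a + b) = a + b
    rw [map_add, show σ a = a from ha, show σ b = b from hb]
  algebraMap_mem' := h

end lem

section special

variable {F : Type v} [Field F] [Fintype F] {k : Type u} [Field k] {L : Type u} [Field L]
  [Algebra F L] [Algebra k L] {m s : ℕ} {B : Subalgebra k L} {X Λ : Submodule F (Fin m → L)}
  {N0 : ℕ} {T : Type} [Finite T] {R : T → Subalgebra k L} {H : T → L} {r : T → X →ₗ[F] (Fin s → L)}
  {ι : Type} [Fintype ι] [DecidableEq ι]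

/-- The minors. -/
noncomputable def ff (x : ι → X) (τ : TT r x) (c : Fin (Fintype.card ι))
    (p : (Fin (c + 1) → ι) × (Fin (c + 1) → ι)) : L :=
  ((Ph τ.2).submatrix p.1 p.2).det

/-- The good charts of the blow-up. -/
def GC (C : Subalgebra k L) (y : Fin (Fintype.card ι) → L) (z : L) : Prop :=
  ∃ (u : ℕ) (_ : u < Fintype.card ι) (P : Type) (_ : Fintype P) (w : P → L),
    C = Algebra.adjoin k (Set.range w ∪ (Set.range y ∪ {z})) ∧
    (∀ j : Fin (Fintype.card ι), (j : ℕ) < u → y j = 1) ∧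
    ((Fintype.card P + (Fintype.card ι - u) : ℕ) : Cardinal) ≤ Algebra.trdeg k L

/-- The charts of the blow-up cover. -/
theorem cover {x : ι → X} {e : ℕ} (hι : 0 < Fintype.card ι) {c0 : ℕ}
    (hgen : ∀ t, ∃ (P : Type) (_ : Fintype P) (w : P → L), Fintype.card P = c0 ∧
      R t = Algebra.adjoin k (Set.range w))
    (htr : ((c0 + s * Fintype.card ι : ℕ) : Cardinal) ≤ Algebra.trdeg k L) (τ : TT r x)
    (V : ValuationSubring L) (hV : ∀ a ∈ RR R e τ, a ∈ V) :
    ∃ χ : BT (ff x), χ.1.1 = τ ∧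
      GC (ι := ι) (BC (ff x) (fun τ => RR R e τ) χ)
        (fun j => yD (DF (BD (ff x) χ)) j) (τ.2.Δ ^ e) ∧
      (∀ j : Fin (Fintype.card ι), yD (DF (BD (ff x) χ)) j ∈
        BC (ff x) (fun τ => RR R e τ) χ) ∧
      ∀ a ∈ BC (ff x) (fun τ => RR R e τ) χ, a ∈ V := by
  classical
  have hk : ∀ c : k, algebraMap k L c ∈ V := fun c => hV _ (Subalgebra.algebraMap_mem _ c)
  set h := τ.2 with hh
  obtain ⟨P0, hP0, w0, hc0, hw0⟩ := hgen τ.1.1
  have hcR : ∀ l p, h.c l p ∈ RR R e τ := fun l p => h.c_mem l p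
  have hdet : (Matrix.of fun (l' l : SS fun l => (τ.1.2 l : ℕ)) =>
      h.c l.1 (rowf _ (Sum.inr l'))).det ≠ 0 := by
    intro h0
    have h1 := congrArg Matrix.det (Ph_block h)
    rw [Matrix.det_fromBlocks_zero₂₁, h0, mul_zero] at h1
    have h2 : IsUnit (Ph h) := by
      rw [Matrix.isUnit_iff_isUnit_det, Ph_det]
      exact (pow_ne_zero _ h.Δ_ne).isUnit
    have h3 := (Matrix.isUnit_submatrix_equiv
      ((Equiv.ofBijective _ (rowf_bij _)).trans h.e.symm)
      ((Equiv.ofBijective _ (colf_bij _)).trans h.e.symm)).2 h2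
    rw [Matrix.isUnit_iff_isUnit_det, h1] at h3
    exact not_isUnit_zero h3
  obtain ⟨dd, P1, hP1, gs, hc1, hc2, hch⟩ := block_chart (k := k)
    ((Equiv.ofBijective _ (rowf_bij _)).trans h.e.symm)
    ((Equiv.ofBijective _ (colf_bij _)).trans h.e.symm) (Ph h) _ _ (Ph_block h) V
    (fun i j => hV _ (hcR _ _)) hdet
  choose F1 G1 hFG using fun c : Fin (Fintype.card ι) => hch.mi (c + 1) c.2
  have hne : ∀ c, ff x τ c (F1 c, G1 c) ≠ 0 := by
    intro c
    have h1 : ff x τ c (F1 c, G1 c) = DD dd (c + 1) := hFG c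
    rw [h1]
    exact DD_ne hch.d0 _
  let χ : BT (ff x) := ⟨(τ, fun c => (F1 c, G1 c)), hne⟩
  have hBD : ∀ c : Fin (Fintype.card ι), BD (ff x) χ c = DD dd (c + 1) := fun c => hFG c
  have hDF : ∀ c ≤ Fintype.card ι, DF (BD (ff x) χ) c = DD dd c := by
    intro c hc
    rcases c with _ | c
    · rfl
    · exact (DF_succ (BD (ff x) χ) ⟨c, hc⟩).trans (hBD ⟨c, hc⟩)
  have hy : ∀ j : Fin (Fintype.card ι), yD (DF (BD (ff x) χ)) j = dd j := fun j =>
    (yD_congr hDF j.2).trans (yD_DD hch.d0 j)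
  have hle : RR R e τ ≤ BC (ff x) (fun τ => RR R e τ) χ := le_BC (ff x) χ
  obtain ⟨hdQ, hgQ⟩ := hch.conv (BC (ff x) (fun τ => RR R e τ) χ)
    (fun i j => hle (Ph_ent h hcR i j)) (by
      intro c hc F G
      have h1 := ratio_mem_BC (C := fun τ => RR R e τ) (ff x) χ ⟨c, hc⟩ (F, G)
      rw [hBD] at h1
      exact h1)
  -- the generators
  let W : P0 ⊕ (VV (fun l => (τ.1.2 l : ℕ)) ⊕ P1) → L :=
    Sum.elim w0 (Sum.elim (fun q => h.c q.1.1 q.1.2) gs)
  let y : Fin (Fintype.card ι) → L := fun j => yD (DF (BD (ff x) χ)) j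
  let Qa : Subalgebra k L := Algebra.adjoin k (Set.range W ∪ (Set.range y ∪ {h.Δ ^ e}))
  have hWQ : ∀ p, W p ∈ Qa := fun p => Algebra.subset_adjoin (Or.inl ⟨p, rfl⟩)
  have hyQ : ∀ j, y j ∈ Qa := fun j => Algebra.subset_adjoin (Or.inr (Or.inl ⟨j, rfl⟩))
  have hzQ : h.Δ ^ e ∈ Qa := Algebra.subset_adjoin (Or.inr (Or.inr rfl))
  have hddQ : ∀ i < Fintype.card ι, dd i ∈ Qa := by
    intro i hi
    have h1 := hyQ ⟨i, hi⟩
    have h2 : y ⟨i, hi⟩ = dd i := hy ⟨i, hi⟩
    rwa [h2] at h1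
  have hdlQ : ∀ i < Fintype.card ι, dl dd i ∈ Qa := by
    intro i hi
    exact Qa.prod_mem fun j hj => hddQ j (by have := Finset.mem_range.1 hj; omega)
  have hdom : Dom Qa (Matrix.diagonal fun i : Fin (Fintype.card ι) => dl dd i) (Ph h) := by
    refine hch.dom Qa ?_ fun p => hWQ (Sum.inr (Sum.inr p))
    rintro _ ⟨p, l, rfl⟩
    refine hWQ (Sum.inr (Sum.inl ⟨(l.1, rowf _ (Sum.inl p)), ?_⟩))
    rintro ⟨-, h1⟩
    exact Nat.succ_ne_zero _ h1
  have hPhQ : Ent Qa (Ph h) := by
    refine hdom.ent ?_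
    intro i j
    rw [Matrix.diagonal_apply]
    split_ifs
    · exact hdlQ i i.2
    · exact Qa.zero_mem
  have hcQ : ∀ l p, h.c l p ∈ Qa := by
    intro l p
    by_cases hq : 0 < (τ.1.2 l : ℕ) ∧ (p.2 : ℕ) = 0
    · obtain ⟨hq1, hq2⟩ := hq
      let l1 : SS fun l => (τ.1.2 l : ℕ) := ⟨l, hq1⟩
      let l2 : SS fun l => (τ.1.2 l : ℕ) := ⟨p.1, by have := p.2.2; omega⟩
      have h1 := hPhQ (((Equiv.ofBijective _ (rowf_bij _)).trans h.e.symm) (Sum.inr l2))
        (((Equiv.ofBijective _ (colf_bij _)).trans h.e.symm) (Sum.inr l1))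
      have h2 := congrFun (congrFun (Ph_block h) (Sum.inr l2)) (Sum.inr l1)
      rw [Matrix.submatrix_apply] at h2
      rw [h2] at h1
      have h3 : rowf (fun l => (τ.1.2 l : ℕ)) (Sum.inr l2) = p := idx_ext rfl hq2.symm
      have h4 : h.c l (rowf (fun l => (τ.1.2 l : ℕ)) (Sum.inr l2)) ∈ Qa := h1
      rwa [h3] at h4
    · exact hWQ (Sum.inr (Sum.inl ⟨(l, p), hq⟩))
  have heq : BC (ff x) (fun τ => RR R e τ) χ = Qa := by
    apply le_antisymm
    · refine BC_le (ff x) (h.alg_le ?_ hzQ hcQ) ?_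
      · change R τ.1.1 ≤ Qa
        rw [hw0, Algebra.adjoin_le_iff]
        rintro _ ⟨p, rfl⟩
        exact hWQ (Sum.inl p)
      · rintro c ⟨F2, G2⟩
        obtain ⟨b, hb, h1⟩ := minor_of_dom hddQ hdom F2 G2
        have h2 : ff x χ.1.1 c (F2, G2) / BD (ff x) χ c = b := by
          rw [hBD]
          change ((Ph h).submatrix F2 G2).det / _ = _
          rw [h1, mul_div_cancel_left₀ _ (DD_ne hch.d0 _)]
        rw [h2]
        exact hb
    · rw [Algebra.adjoin_le_iff]
      rintro _ (⟨p | q | p, rfl⟩ | ⟨j, rfl⟩ | hz)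
      · refine hle (h.le_alg ?_)
        rw [hw0]
        exact Algebra.subset_adjoin ⟨p, rfl⟩
      · exact hle (hcR _ _)
      · exact hgQ p
      · change yD (DF (BD (ff x) χ)) j ∈ _
        rw [hy]
        exact hdQ _
      · rw [Set.mem_singleton_iff.1 hz]
        exact hle h.Δ_mem
  have hUS := card_US h
  have hSp := card_S_pos h hι
  refine ⟨χ, rfl, ⟨Fintype.card (UU fun l => (τ.1.2 l : ℕ)), by omega,
    P0 ⊕ (VV (fun l => (τ.1.2 l : ℕ)) ⊕ P1), inferInstance, W, heq, ?_, ?_⟩, ?_, ?_⟩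
  · intro j hj
    change yD (DF (BD (ff x) χ)) j = 1
    rw [hy]
    exact hch.d1 j hj
  · refine le_trans ?_ htr
    have h1 := card_VV (fun l => (τ.1.2 l : ℕ))
    have h2 : Fintype.card (Idx fun l => (τ.1.2 l : ℕ)) = Fintype.card ι := h.card.symm
    rw [h2] at h1
    have h3 : Fintype.card (P0 ⊕ (VV (fun l => (τ.1.2 l : ℕ)) ⊕ P1)) =
        c0 + (Fintype.card (VV fun l => (τ.1.2 l : ℕ)) + Fintype.card P1) := by
      rw [Fintype.card_sum, Fintype.card_sum, hc0]
    have h4 : Fintype.card (P0 ⊕ (VV (fun l => (τ.1.2 l : ℕ)) ⊕ P1)) +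
        (Fintype.card ι - Fintype.card (UU fun l => (τ.1.2 l : ℕ))) =
        c0 + s * Fintype.card ι := by
      rw [h3]
      omega
    rw [h4]
  · intro j
    rw [hy]
    exact hdQ _
  · have h1 : Qa ≤ valAlg V hk := by
      rw [Algebra.adjoin_le_iff]
      rintro _ (⟨p | q | p, rfl⟩ | ⟨j, rfl⟩ | hz)
      · refine hV _ (h.le_alg ?_)
        rw [hw0]
        exact Algebra.subset_adjoin ⟨p, rfl⟩
      · exact hV _ (hcR _ _)
      · exact hch.gV p
      · change yD (DF (BD (ff x) χ)) j ∈ V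
        rw [hy]
        exact hch.dV _
      · rw [Set.mem_singleton_iff.1 hz]
        exact hV _ h.Δ_mem
    intro a ha
    rw [heq] at ha
    exact h1 ha

end special

end Pool.Agent.R837.FS
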