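import Pool.Agent.R837.FS.Spec

/-!
The resolution for special linear groups: the main step.
-/

set_option autoImplicit false
set_option linter.unusedSectionVars false

open Finset AlgebraicGeometry CategoryTheory

universe u v w z

namespace Pool.Agent.R837.FS

open Pool.Agent.R837.FM

section mono

variable {k L : Type u} [Field k] [Field L] [Algebra k L] {C C' : Subalgebra k L}

lemma alg_mono (h : C ≤ C') (ha : Algebra.IsAlgebraic C L) : Algebra.IsAlgebraic C' L :=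
  isAlgebraic_of_le (R := C) (Subalgebra.inclusion h).toRingHom (fun _ => rfl) ha

lemma int_mono (h : C ≤ C') {b : L} (hb : IsIntegral C b) : IsIntegral C' b := by
  obtain ⟨p, hp, hp0⟩ := hb
  refine ⟨p.map (Subalgebra.inclusion h).toRingHom, hp.map _, ?_⟩
  rw [Polynomial.eval₂_map]
  exact hp0

lemma aa_mono (h : C ≤ C') {b : L}
    (hb : IsIntegral C b ∧ ∃ x ∈ C, ∃ y ∈ C, y ≠ 0 ∧ b * y = x) :
    IsIntegral C' b ∧ ∃ x ∈ C', ∃ y ∈ C', y ≠ 0 ∧ b * y = x := by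
  obtain ⟨h1, x, hx, y, hy, h2, h3⟩ := hb
  exact ⟨int_mono h h1, x, h hx, y, h hy, h2, h3⟩

end mono

section special

variable {F : Type v} [Field F] [Fintype F] {k : Type u} [Field k] {L : Type u} [Field L]
  [Algebra F L] [Algebra k L] {m s : ℕ} {B : Subalgebra k L} {X Λ : Submodule F (Fin m → L)}
  {N0 : ℕ} {T : Type} [Finite T] {R : T → Subalgebra k L} {H : T → L}
  {r : T → X →ₗ[F] (Fin s → L)} {ι : Type} [Fintype ι] [DecidableEq ι]
  {A : Type u} [CommRing A] [IsDomain A] [Algebra k A] {g : A →ₐ[k] L}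
  (hg : Function.Injective g)

include hg in
/-- The resolution of the quotients by groups with a condition on the determinant of the last
block. -/
theorem special (S : Stage F B X Λ N0 R H r) (x : ι → X)
    (hxB : ∀ i l, (x i : Fin m → L) l ∈ B)
    (hind : ∀ a : ι → F, ((∑ i, a i • x i : X) : Fin m → L) ∈ Λ → a = 0) {e N : ℕ}
    (he : 0 < e) (hN : 0 < N) (heN : N * e = Fintype.card F - 1) (hι : 0 < Fintype.card ι)
    (𝒢 : Set (L →+* L))
    (h𝒢 : ∀ σ ∈ 𝒢, ∀ (τ : TT r x) (M : ℕ), (∀ b ∈ RR R e τ, σ b = b) ∧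
      σ (HH H M e τ) = HH H M e τ)
    (hA1 : ∀ b ∈ B, (∀ σ ∈ 𝒢, σ b = b) → ∃ a, b = g a)
    (hA3 : ∀ V : ValuationSubring L, (∀ a, g a ∈ V) → ∀ b ∈ B, b ∈ V)
    (halg : ∀ τ : TT r x, Algebra.IsAlgebraic (RR R e τ) L)
    (haa : ∀ (τ : TT r x) a, IsIntegral (RR R e τ) (g a) ∧
      ∃ x' ∈ RR R e τ, ∃ y ∈ RR R e τ, y ≠ 0 ∧ g a * y = x')
    {c0 : ℕ} (hgen : ∀ t, ∃ (P : Type) (_ : Fintype P) (w : P → L), Fintype.card P = c0 ∧
      R t = Algebra.adjoin k (Set.range w))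
    (htr : ((c0 + s * Fintype.card ι : ℕ) : Cardinal) ≤ Algebra.trdeg k L) :
    Pool.Agent.H920R2.HasResolution (X := Spec (CommRingCat.of A))
      (Spec.map (CommRingCat.ofHom (algebraMap k A))) := by
  classical
  obtain ⟨M, S', hle, hinv, hrat, hinvB⟩ := step_more S x hxB hind e he
  -- the minors
  have hent : ∀ τ : TT r x, Ent (RR R e τ) (Ph τ.2) := fun τ =>
    Ph_ent τ.2 fun l p => τ.2.c_mem l p
  have hfC : ∀ (τ : TT r x) c j, ff x τ c j ∈ RR R e τ := fun τ c j =>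
    det_mem fun i l => hent τ _ _
  have hsp : ∀ (τ τ' : TT r x) c j, ff x τ' c j ∈
      Submodule.span (Loc (RR R e τ) (HH H M e τ' / HH H M e τ))
        (Set.range fun j => ff x τ c j) := by
    intro τ τ' c j
    have hdom := Ph_dom τ.2 τ'.2 (Q := Loc (RR R e τ) (HH H M e τ' / HH H M e τ))
      (fun p' => col_mem_of_op (R := R) (e := e) τ τ'.1.1 (hle τ τ') (le_loc _ _)
        (fun l => S.op τ.1.1 τ'.1.1 l) p'.1 p'.2) (hinv τ τ')
    have h1 := mn_dom hdom (c + 1) (Submodule.subset_span ⟨j.1, j.2, rfl⟩)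
    refine Submodule.span_mono ?_ h1
    rintro _ ⟨F1, G1, rfl⟩
    exact ⟨(F1, G1), rfl⟩
  obtain ⟨M', b0, bB, brt, ble, brat, binv, bgl, blB, biB, bdn⟩ :=
    blow (C := fun τ : TT r x => RR R e τ) (H := fun τ : TT r x => HH H M e τ) (B := B)
      (ff (r := r) x) S'.H0 S'.HB S'.rt S'.gl S'.dn hfC hsp
  let CC : BT (ff (r := r) x) → Subalgebra k L := BC (ff (r := r) x) fun τ : TT r x => RR R e τ
  let HHH : BT (ff (r := r) x) → L := BH (ff (r := r) x) (fun τ : TT r x => HH H M e τ) M'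
  let D : BT (ff (r := r) x) → ℕ → L := fun χ => DF (BD (ff (r := r) x) χ)
  let y : BT (ff (r := r) x) → Fin (Fintype.card ι) → L := fun χ j => yD (D χ) j
  let zz : BT (ff (r := r) x) → L := fun χ => χ.1.1.2.Δ ^ e
  have hD0 : ∀ χ c, D χ c ≠ 0 := fun χ c => DF_ne (fun c => BD_ne (ff (r := r) x) χ c) c
  have hDC : ∀ χ c, D χ c ∈ RR R e χ.1.1 := fun χ c =>
    DF_ind (p := fun a => a ∈ RR R e χ.1.1) (Subalgebra.one_mem _) (fun c => hfC _ _ _) c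
  have hDr : ∀ χ χ' c, D χ' c / D χ c ∈ Loc (CC χ) (HHH χ' / HHH χ) := fun χ χ' c =>
    DF_ind2 (p := fun a b => b / a ∈ Loc (CC χ) (HHH χ' / HHH χ))
      (by rw [div_one]; exact Subalgebra.one_mem _) (fun c => brat χ χ' c) c
  have hDi : ∀ χ χ' c, D χ c / D χ' c ∈ Loc (CC χ) (HHH χ' / HHH χ) := fun χ χ' c =>
    DF_ind2 (p := fun a b => a / b ∈ Loc (CC χ) (HHH χ' / HHH χ))
      (by rw [div_one]; exact Subalgebra.one_mem _) (fun c => binv χ χ' c) c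
  have hDB : ∀ χ c, (D χ c)⁻¹ ∈ Loc B (HHH χ) := fun χ c =>
    DF_ind (p := fun a => a⁻¹ ∈ Loc B (HHH χ)) (by rw [inv_one]; exact Subalgebra.one_mem _)
      (fun c => biB χ c) c
  have hCB : ∀ χ : BT (ff (r := r) x), RR R e χ.1.1 ≤ Loc B (HHH χ) := fun χ =>
    (S'.dn χ.1.1).trans (blB χ)
  have hleC : ∀ χ : BT (ff (r := r) x), RR R e χ.1.1 ≤ CC χ := fun χ =>
    le_BC (C := fun τ : TT r x => RR R e τ) (ff (r := r) x) χ
  -- the group
  have hk : ∀ σ ∈ 𝒢, ∀ χ : BT (ff (r := r) x), ∀ c : k, σ (algebraMap k L c) = algebraMap k L c :=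
    fun σ hσ χ c => (h𝒢 σ hσ χ.1.1 M).1 _ (Subalgebra.algebraMap_mem _ c)
  have hfixC : ∀ σ ∈ 𝒢, ∀ χ : BT (ff (r := r) x), ∀ a ∈ CC χ, σ a = a := by
    intro σ hσ χ a ha
    have h1 : CC χ ≤ fixA σ (hk σ hσ χ) := by
      refine BC_le (ff (r := r) x) (fun a ha => (h𝒢 σ hσ χ.1.1 M).1 a ha) fun c j => ?_
      change σ _ = _
      have h2 := (h𝒢 σ hσ χ.1.1 M).1 _ (hfC χ.1.1 c j)
      have h3 := (h𝒢 σ hσ χ.1.1 M).1 _ (hfC χ.1.1 c (χ.1.2 c))
      rw [map_div₀, h2]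
      congr 1
    exact h1 ha
  have hfixH : ∀ σ ∈ 𝒢, ∀ χ : BT (ff (r := r) x), σ (HHH χ) = HHH χ := by
    intro σ hσ χ
    change σ (_ ^ M' * ∏ c, BD (ff (r := r) x) χ c) = _ ^ M' * ∏ c, BD (ff (r := r) x) χ c
    rw [map_mul, map_pow, map_prod, (h𝒢 σ hσ χ.1.1 M).2]
    congr 1
    exact Finset.prod_congr rfl fun c _ => (h𝒢 σ hσ χ.1.1 M).1 _ (hfC χ.1.1 c (χ.1.2 c))
  have hdnA : ∀ (χ : BT (ff (r := r) x)) (a : L), a ∈ Loc B (HHH χ) → (∀ σ ∈ 𝒢, σ a = a) →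
      ∃ (n : ℕ) (a' : A), HHH χ ^ n * a = g a' := by
    intro χ a ha hσ
    obtain ⟨n, hn⟩ := exists_pow_mul (bB χ) (b0 χ) ha
    obtain ⟨a', ha'⟩ := hA1 _ hn fun σ hs => by
      rw [map_mul, map_pow, hσ σ hs]
      congr 2
      exact hfixH σ hs χ
    exact ⟨n, a', ha'⟩
  have hfixD : ∀ σ ∈ 𝒢, ∀ χ c, σ (D χ c) = D χ c := fun σ hσ χ c =>
    (h𝒢 σ hσ χ.1.1 M).1 _ (hDC χ c)
  -- the charts
  let T' := {χ : BT (ff (r := r) x) // GC (ι := ι) (CC χ) (y χ) (zz χ) ∧ ∀ j, y χ j ∈ CC χ}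
  have hfinBT : Finite (BT (ff (r := r) x)) := Subtype.finite
  refine kummer hg (n := Fintype.card ι) hN (T := T') (C := fun t => CC t.1)
    (H := fun t => HHH t.1) (y := fun t => y t.1) (z := fun t => zz t.1)
    (fun t => b0 t.1) ?_ (fun t t' => brt t.1 t'.1) (fun t t' => bgl t.1 t'.1) ?_ ?_ ?_ ?_
    (fun t => t.2.2) ?_ ?_ ?_ ?_ ?_ ?_ ?_ ?_ (fun t => t.2.1) ?_ ?_
  · intro t
    exact hA1 _ (bB t.1) fun σ hσ => hfixH σ hσ t.1
  · intro t a ha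
    exact hdnA t.1 a (bdn t.1 ha) fun σ hσ => hfixC σ hσ t.1 a ha
  · intro V hV
    obtain ⟨τ, hτ⟩ := S'.cv V (hA3 V hV)
    obtain ⟨χ, hχ, h1, h2, h3⟩ := cover (e := e) hι hgen htr τ V hτ
    subst hχ
    exact ⟨⟨χ, h1, h2⟩, h3⟩
  · intro t j
    change D t.1 (j + 1) * D t.1 (j - 1) / D t.1 j ^ 2 ≠ 0
    exact div_ne_zero (mul_ne_zero (hD0 _ _) (hD0 _ _)) (pow_ne_zero _ (hD0 _ _))
  · intro t
    exact pow_ne_zero _ t.1.1.1.2.Δ_ne
  · intro t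
    exact le_BC (ff (r := r) x) t.1 t.1.1.1.2.Δ_mem
  · intro t
    have h1 : zz t.1 ^ N = (Ph t.1.1.1.2).det := by
      rw [Ph_det, ← heN, mul_comm N e, pow_mul]
    have h2 : ∏ j : Fin (Fintype.card ι), y t.1 j ^ (Fintype.card ι - j : ℕ) =
        D t.1 (Fintype.card ι) := by
      rw [← DD_yD (hD0 t.1) rfl (Fintype.card ι), DD_eq_prod]
    have h3 : D t.1 (Fintype.card ι) =
        BD (ff (r := r) x) t.1 ⟨Fintype.card ι - 1, by omega⟩ := by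
      have h4 := DF_succ (BD (ff (r := r) x) t.1) ⟨Fintype.card ι - 1, by omega⟩
      rw [← h4]
      change DF _ (Fintype.card ι) = DF _ (Fintype.card ι - 1 + 1)
      rw [Nat.sub_add_cancel hι]
    have h4 := det_full (Ph t.1.1.1.2) (c := Fintype.card ι - 1 + 1)
      (Nat.sub_add_cancel hι) _ _ (BD_ne (ff (r := r) x) t.1 ⟨Fintype.card ι - 1, by omega⟩)
    rcases h4 with h4 | h4
    · refine ⟨1, one_ne_zero, ?_⟩
      rw [h2, h3, h1, map_one, one_mul]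
      exact h4.symm
    · refine ⟨-1, neg_ne_zero.2 one_ne_zero, ?_⟩
      rw [h2, h3, h1, map_neg, map_one, neg_one_mul, eq_neg_iff_add_eq_zero, add_comm,
        ← eq_neg_iff_add_eq_zero]
      exact h4
  · intro t t' j
    have h1 : y t'.1 j / y t.1 j = (D t'.1 (j + 1) / D t.1 (j + 1)) *
        (D t'.1 (j - 1) / D t.1 (j - 1)) * (D t.1 j / D t'.1 j) ^ 2 := by
      change D t'.1 (j + 1) * D t'.1 (j - 1) / D t'.1 j ^ 2 /
        (D t.1 (j + 1) * D t.1 (j - 1) / D t.1 j ^ 2) = _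
      have := hD0 t.1 (j + 1)
      have := hD0 t.1 (j - 1)
      have := hD0 t.1 j
      have := hD0 t'.1 j
      field_simp
    rw [h1]
    exact Subalgebra.mul_mem _ (Subalgebra.mul_mem _ (hDr _ _ _) (hDr _ _ _))
      (Subalgebra.pow_mem _ (hDi _ _ _) _)
  · intro t t' j
    have h1 : y t.1 j / y t'.1 j = (D t.1 (j + 1) / D t'.1 (j + 1)) *
        (D t.1 (j - 1) / D t'.1 (j - 1)) * (D t'.1 j / D t.1 j) ^ 2 := by
      change D t.1 (j + 1) * D t.1 (j - 1) / D t.1 j ^ 2 /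
        (D t'.1 (j + 1) * D t'.1 (j - 1) / D t'.1 j ^ 2) = _
      have := hD0 t'.1 (j + 1)
      have := hD0 t'.1 (j - 1)
      have := hD0 t.1 j
      have := hD0 t'.1 j
      field_simp
    rw [h1]
    exact Subalgebra.mul_mem _ (Subalgebra.mul_mem _ (hDi _ _ _) (hDi _ _ _))
      (Subalgebra.pow_mem _ (hDr _ _ _) _)
  · intro t t'
    have h1 : zz t'.1 / zz t.1 = (t'.1.1.1.2.Δ / t.1.1.1.2.Δ) ^ e := (div_pow _ _ _).symm
    rw [h1]
    exact Subalgebra.pow_mem _ (ble t.1 t'.1 (hrat _ _)) _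
  · intro t t'
    have h1 : zz t.1 / zz t'.1 = (t.1.1.1.2.Δ / t'.1.1.1.2.Δ) ^ e := (div_pow _ _ _).symm
    rw [h1]
    exact Subalgebra.pow_mem _ (ble t.1 t'.1 (hinv _ _)) _
  · intro t j
    refine hdnA t.1 _ ?_ fun σ hσ => ?_
    · have h1 : (y t.1 j)⁻¹ = D t.1 j ^ 2 * ((D t.1 (j + 1))⁻¹ * (D t.1 (j - 1))⁻¹) := by
        change (D t.1 (j + 1) * D t.1 (j - 1) / D t.1 j ^ 2)⁻¹ = _
        rw [inv_div, mul_comm (D t.1 (j + 1)), div_eq_mul_inv, mul_inv]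
        ring
      rw [h1]
      exact Subalgebra.mul_mem _ (Subalgebra.pow_mem _ (hCB _ (hDC _ _)) _)
        (Subalgebra.mul_mem _ (hDB _ _) (hDB _ _))
    · rw [map_inv₀]
      congr 1
      exact hfixC σ hσ t.1 _ (t.2.2 j)
  · intro t
    refine hdnA t.1 _ ?_ fun σ hσ => ?_
    · have h1 : (zz t.1)⁻¹ = (1 / t.1.1.1.2.Δ) ^ e := by
        change (t.1.1.1.2.Δ ^ e)⁻¹ = _
        rw [one_div, inv_pow]
      rw [h1]
      exact Subalgebra.pow_mem _ (blB t.1 (hinvB t.1.1.1)) _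
    · rw [map_inv₀]
      congr 1
      exact (h𝒢 σ hσ t.1.1.1 M).1 _ t.1.1.1.2.Δ_mem
  · intro t
    exact alg_mono (hleC t.1) (halg t.1.1.1)
  · intro t a
    exact aa_mono (hleC t.1) (haa t.1.1.1 a)

end special

end Pool.Agent.R837.FS
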