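import Pool.Agent.R837.FS.Spec2
import Pool.Agent.R837.FM.Levels

/-!
The resolution with a condition on the determinant of the last block.
-/

set_option autoImplicit false
set_option linter.unusedSectionVars false

open Finset AlgebraicGeometry CategoryTheory

universe u v w z

namespace Pool.Agent.R837.FS

open Pool.Agent.R837.FM

section res

variable {F : Type v} [Field F] [Fintype F] {k : Type u} [Field k] {L : Type u} [Field L]
  [Algebra F L] [Algebra k L] {m s n : ℕ} {X Λ0 : Submodule F (Fin m → L)}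
  {x : Fin n → X} {lv : Fin n → ℕ} {e : ℕ → ℕ}
  {A : Type u} [CommRing A] [IsDomain A] [Algebra k A] {g : A →ₐ[k] L}

/-- The resolution. -/
theorem resolution_top (hg : Function.Injective g)
    {B : Subalgebra k L} (hB : B = Algebra.adjoin k {a | ∃ i l, a = (x i : Fin m → L) l})
    {T0 : Type} [Finite T0] {R0 : T0 → Subalgebra k L} {H0 : T0 → L}
    {r0 : T0 → X →ₗ[F] (Fin s → L)} {J0 : Type} [Fintype J0] {z : J0 → X}
    (hz : Λ0 = Submodule.span F (Set.range fun j => (z j : Fin m → L)))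
    (S0 : Stage F B X Λ0 (Fintype.card J0) R0 H0 r0) (g0 : ℕ)
    (hg0 : ∀ t, ∃ (P : Type) (_ : Fintype P) (w : P → L), Fintype.card P = g0 ∧
      R0 t = Algebra.adjoin k (Set.range w))
    (hX0 : ∀ t (σ : L →+* L), (∀ b ∈ R0 t, σ b = b) → ∀ y ∈ X, (fun l => σ (y l)) ∈ X)
    (hx : LinearIndependent F (Sum.elim (fun i => (x i : Fin m → L)) fun j =>
      (z j : Fin m → L)))
    (hF : ∀ a : F, ∃ c : k, algebraMap k L c = algebraMap F L a)
    (hL : IntermediateField.adjoin k {a | ∃ i l, a = (x i : Fin m → L) l} = ⊤)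
    (htr : ((g0 + s * n : ℕ) : Cardinal) ≤ Algebra.trdeg k L)
    (he : ∀ a, e a = Fintype.card F - 1 ∨
      (Fintype.card {i // lv i = a} = 1 ∧ e a ∣ Fintype.card F - 1))
    (a : ℕ) (ha : ∀ i, lv i ≤ a) (hane : ∃ i, lv i = a)
    {d N : ℕ} (hd : 0 < d) (hN : 0 < N) (hdN : N * d = Fintype.card F - 1)
    (𝒢 : Set (L →+* L))
    (h𝒢 : ∀ σ ∈ 𝒢, (∀ t, (∀ b ∈ R0 t, σ b = b) ∧ σ (H0 t) = H0 t) ∧
      (∀ b < a, Q Λ0 x lv e σ b) ∧ Q Λ0 x lv (fun _ => d) σ a)
    (hA1 : ∀ b ∈ B, (∀ σ ∈ 𝒢, σ b = b) → ∃ a, b = g a)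
    (hA2 : ∀ σ : L →+* L, (∃ t0, ∀ b ∈ R0 t0, σ b = b) → (∀ b < a, Q Λ0 x lv e σ b) →
      Q Λ0 x lv (fun _ => d) σ a → ∀ a, g a ∈ B ∧ σ (g a) = g a)
    (hA3 : ∀ V : ValuationSubring L, (∀ a, g a ∈ V) → ∀ b ∈ B, b ∈ V) :
    Pool.Agent.H920R2.HasResolution (X := Spec (CommRingCat.of A))
      (Spec.map (CommRingCat.ofHom (algebraMap k A))) := by
  classical
  have hxB : ∀ i l, (x i : Fin m → L) l ∈ B := by
    intro i l
    rw [hB]
    exact Algebra.subset_adjoin ⟨i, l, rfl⟩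
  have hΛ0 : Λ0 ≤ X := by
    rw [hz]
    refine Submodule.span_le.2 ?_
    rintro _ ⟨j, rfl⟩
    exact (z j).2
  obtain ⟨T, hT, R, H, r, S, hgen, hconv, hfix⟩ := levels (e := e) hz S0 g0 hg0 hX0 hx hxB he a
  have hind := hind_of (lv := lv) hz hx a
  have hcard : Fintype.card {i // lv i < a} + Fintype.card {i // lv i = a} = n := by
    rw [← card_succ, Fintype.card_congr (Equiv.subtypeUnivEquiv fun i => Nat.lt_succ_of_le (ha i)),
      Fintype.card_fin]
  obtain ⟨M0, S'⟩ := S.step (fun i : {i // lv i = a} => x i) (fun i l => hxB i l) hind d hd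
  let x' : Fin n ⊕ J0 → X := Sum.elim x z
  have hker : ∀ i, (x i : Fin m → L) ∈ Lam Λ0 x lv a ⊔
      Submodule.span F (Set.range fun i : {i // lv i = a} => (x i : Fin m → L)) := by
    intro i
    rcases Nat.lt_or_ge (lv i) a with h | h
    · exact Submodule.mem_sup_left (Submodule.mem_sup_right (Submodule.subset_span ⟨i, h, rfl⟩))
    · exact Submodule.mem_sup_right (Submodule.subset_span ⟨⟨i, le_antisymm (ha i) h⟩, rfl⟩)
  have hr : ∀ (τ : TT r fun i : {i // lv i = a} => x i) i, rr τ (x' i) = 0 := by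
    rintro τ (i | j)
    · rw [S'.ker]
      exact hker i
    · rw [S'.ker]
      refine Submodule.mem_sup_left (Submodule.mem_sup_left ?_)
      rw [hz]
      exact Submodule.subset_span ⟨j, rfl⟩
  have hx' : LinearIndependent F fun i => (x' i : Fin m → L) := by
    have h1 : (fun i => (x' i : Fin m → L)) = Sum.elim (fun i => (x i : Fin m → L)) fun j =>
        (z j : Fin m → L) := by
      funext i
      rcases i with i | j <;> rfl
    rw [h1]
    exact hx
  have hch : ∀ τ : TT r fun i : {i // lv i = a} => x i,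
      Algebra.IsAlgebraic (RR R d τ) L ∧
      ∀ b, (∀ V : ValuationSubring L, (∀ a ∈ RR R d τ, a ∈ V) →
        (∀ i l, (x' i : Fin m → L) l ∈ V) → b ∈ V) →
        (∀ σ : L →+* L, (∀ a ∈ RR R d τ, σ a = a) → σ b = b) →
        IsIntegral (RR R d τ) b ∧ ∃ x ∈ RR R d τ, ∃ y ∈ RR R d τ, y ≠ 0 ∧ b * y = x := by
    intro τ
    refine chart_int (F := F) (r := rr τ) x' (hr τ) ?_ (S'.int τ) hx' hF ?_
    · obtain ⟨P, hP, base, h1, h2⟩ := S'.dim τ
      refine ⟨P, hP, base, ?_, h2⟩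
      rw [h1, add_assoc, hcard, Fintype.card_sum, Fintype.card_fin, add_comm]
    · rw [eq_top_iff, ← hL]
      refine IntermediateField.adjoin.mono k _ _ ?_
      rintro _ ⟨i, l, rfl⟩
      exact Or.inr ⟨Sum.inl i, l, rfl⟩
  have hσQ : ∀ (τ : TT r fun i : {i // lv i = a} => x i) (σ : L →+* L),
      (∀ b ∈ RR R d τ, σ b = b) → ∀ b, g b ∈ B ∧ σ (g b) = g b := by
    intro τ σ hσ
    have h1 := hconv τ.1.1 σ fun b hb => hσ b (τ.2.le_alg hb)
    obtain ⟨t0, ht0⟩ := h1.1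
    exact hA2 σ ⟨t0, ht0⟩ h1.2 (conv_step S hind σ (hX0 t0 σ ht0) τ hσ)
  refine special hg S (fun i : {i // lv i = a} => x i) (fun i l => hxB i l) hind hd hN hdN ?_
    𝒢 ?_ hA1 hA3 (fun τ => (hch τ).1) ?_ hgen ?_
  · obtain ⟨i, hi⟩ := hane
    exact Fintype.card_pos_iff.2 ⟨⟨i, hi⟩⟩
  · intro σ hσ τ M
    obtain ⟨hσ0, hσ1, hσ2⟩ := h𝒢 σ hσ
    obtain ⟨h1, h2⟩ := hfix σ hσ0 hσ1 τ.1.1
    obtain ⟨G, hg1, hg2⟩ := hσ2
    have hXσ : ∀ i : {i // lv i = a}, (fun l => σ ((x i : Fin m → L) l)) ∈ X := by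
      intro i
      have h3 := lam_le hΛ0 a (hg2 i)
      have h4 : ∑ j : {i // lv i = a}, G i j • (x j : Fin m → L) ∈ X :=
        Submodule.sum_mem _ fun j _ => Submodule.smul_mem _ _ (x j).2
      have h5 := X.add_mem h3 h4
      rwa [sub_add_cancel] at h5
    refine fix_step σ τ h1 G ?_ hg1 hd h2 M
    intro i l
    rw [sigma_r S σ τ.1.1 h1 (x i) ⟨_, hXσ i⟩ (fun l => rfl)]
    have h4 : r τ.1.1 ((⟨_, hXσ i⟩ : X) - ∑ j : {i // lv i = a}, G i j • x j) = 0 := by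
      rw [S.ker, Submodule.coe_sub, Submodule.coe_sum]
      exact hg2 i
    rw [map_sub, sub_eq_zero] at h4
    rw [h4, map_sum, Finset.sum_apply]
    exact Finset.sum_congr rfl fun j _ => by rw [map_smul]; rfl
  · intro τ b
    refine (hch τ).2 (g b) (fun V hV hxV => ?_) fun σ hσ => (hσQ τ σ hσ b).2
    have hk : ∀ c : k, algebraMap k L c ∈ V := fun c => hV _ (Subalgebra.algebraMap_mem _ c)
    have h1 : B ≤ valAlg V hk := by
      rw [hB]
      refine Algebra.adjoin_le_iff.2 ?_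
      rintro _ ⟨i, l, rfl⟩
      exact hxV (Sum.inl i) l
    exact h1 (hσQ τ (RingHom.id L) (fun a _ => rfl) b).1
  · rw [add_assoc, ← mul_add, hcard]
    exact htr

end res

end Pool.Agent.R837.FS
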